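import Pool.Agent.Helper97.Form.Perm

/-!
# MCD: permanents of block matrices, and the permanent of the graph of an automaton

`perm_auto`: layers `1, ..., n` with the states of an automaton; the total weight of the paths from
the beginning to the end is a sum over all words of `n` letters.
-/

set_option autoImplicit false
set_option linter.unusedSectionVars false

namespace Pool.MCD

open Finset Pool.Agent.Helper97.Form

section Blocks

variable {R : Type} [CommRing R] {G κ δ : Type} [Fintype G] [DecidableEq G] [Fintype κ]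
  [DecidableEq κ] [Fintype δ] [DecidableEq δ]

/-- the permanent of a block diagonal matrix -/
theorem perm_block (M : G → Matrix κ κ R) :
    (Matrix.of fun i j : G × κ => if i.1 = j.1 then M i.1 i.2 j.2 else 0).permanent =
      ∏ g, (M g).permanent := by
  apply perm_of_forms
  intro B _ f x hx
  rw [Fintype.prod_prod_type, Fintype.prod_prod_type, map_prod, ← prod_mul_distrib]
  refine prod_congr rfl fun g _ => ?_
  rw [← perm_forms f (M g) (fun j => x (g, j)) (fun j => hx _)]
  refine prod_congr rfl fun i _ => ?_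
  rw [Fintype.sum_prod_type, Fintype.sum_eq_single g]
  · simp
  · intro g' hg'
    refine sum_eq_zero fun j _ => ?_
    simp only [Matrix.of_apply]
    rw [if_neg (Ne.symm hg'), map_zero, zero_mul]

/-- padding by an identity matrix -/
theorem perm_pad (M : Matrix κ κ R) :
    (Matrix.of fun i j : κ ⊕ δ => match i, j with
      | Sum.inl i, Sum.inl j => M i j
      | Sum.inr i, Sum.inr j => if i = j then 1 else 0
      | _, _ => (0 : R)).permanent = M.permanent := by
  apply perm_of_forms
  intro B _ f x hx
  rw [Fintype.prod_sum_type, Fintype.prod_sum_type, ← mul_assoc,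
    ← perm_forms f M (fun j => x (Sum.inl j)) (fun j => hx _)]
  congr 1
  · refine prod_congr rfl fun i _ => ?_
    rw [Fintype.sum_sum_type]
    simp
  · refine prod_congr rfl fun i _ => ?_
    rw [Fintype.sum_sum_type]
    simp only [Matrix.of_apply, map_zero, zero_mul, sum_const_zero, zero_add]
    rw [Fintype.sum_eq_single i]
    · simp
    · intro j hj
      rw [if_neg (Ne.symm hj), map_zero, zero_mul]

end Blocks

section Auto

variable {Q D R : Type} [Fintype Q] [DecidableEq Q] [Fintype D] [DecidableEq D] [CommRing R]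
  (δ : Q → D → Q)

/-- the total weight of the paths with `k` more letters; `wt n q` = weight of the edge which
arrives in the state `q` after `n + 1` letters -/
def cont (fin : Q → R) : ℕ → (ℕ → Q → R) → Q → R
  | 0, _, q => fin q
  | k + 1, wt, q => ∑ d, wt 0 (δ q d) * cont fin k (fun n => wt (n + 1)) (δ q d)

/-- the states -/
def st (q : Q) (w : ℕ → D) : ℕ → Q
  | 0 => q
  | t + 1 => δ (st q w t) (w t)

theorem st_succ' (q : Q) (w : ℕ → D) (t : ℕ) :
    st δ q w (t + 1) = st δ (δ q (w 0)) (fun n => w (n + 1)) t := by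
  induction t with
  | zero => rfl
  | succ t ih =>
    show δ (st δ q w (t + 1)) (w (t + 1)) = δ (st δ (δ q (w 0)) (fun n => w (n + 1)) t) (w (t + 1))
    rw [ih]

/-- a finite word as a sequence -/
def ext (d0 : D) {k : ℕ} (w : Fin k → D) (n : ℕ) : D := if h : n < k then w ⟨n, h⟩ else d0

theorem ext_cons_zero (d0 d : D) {k : ℕ} (w : Fin k → D) :
    ext d0 (Fin.cons d w : Fin (k + 1) → D) 0 = d := by
  simp [ext]

theorem ext_cons_succ (d0 d : D) {k : ℕ} (w : Fin k → D) (n : ℕ) :
    ext d0 (Fin.cons d w : Fin (k + 1) → D) (n + 1) = ext d0 w n := by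
  unfold ext
  by_cases h : n < k
  · rw [dif_pos h, dif_pos (by omega)]
    exact Fin.cons_succ (α := fun _ => D) d w ⟨n, h⟩
  · rw [dif_neg h, dif_neg (by omega)]

theorem cont_eq_sum (d0 : D) (fin : Q → R) (k : ℕ) : ∀ (wt : ℕ → Q → R) (q : Q),
    cont δ fin k wt q = ∑ w : Fin k → D, (∏ t : Fin k, wt t (st δ q (ext d0 w) (t + 1))) *
      fin (st δ q (ext d0 w) k) := by
  induction k with
  | zero =>
    intro wt q
    simp [cont, st]
  | succ k ih =>
    intro wt q
    rw [← (Fin.consEquiv fun _ => D).sum_comp, Fintype.sum_prod_type]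
    show ∑ d, _ = _
    refine sum_congr rfl fun d _ => ?_
    rw [ih, mul_sum]
    refine sum_congr rfl fun w _ => ?_
    have h1 : ∀ t, st δ q (ext d0 (Fin.cons d w : Fin (k + 1) → D)) (t + 1) =
        st δ (δ q d) (ext d0 w) t := by
      intro t
      rw [st_succ', ext_cons_zero]
      congr 1
      funext n
      exact ext_cons_succ d0 d w n
    show _ = (∏ t : Fin (k + 1), wt t (st δ q (ext d0 (Fin.cons d w : Fin (k + 1) → D)) (t + 1))) *
      fin (st δ q (ext d0 (Fin.cons d w : Fin (k + 1) → D)) (k + 1))
    have e1 : ∀ t : Fin k, wt (t.succ : Fin (k + 1)).val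
        (st δ q (ext d0 (Fin.cons d w : Fin (k + 1) → D)) ((t.succ : Fin (k + 1)).val + 1)) =
        wt (t + 1) (st δ (δ q d) (ext d0 w) (t + 1)) := fun t => by
      rw [h1]
      rfl
    have e0 : st δ q (ext d0 (Fin.cons d w : Fin (k + 1) → D))
        ((0 : Fin (k + 1)).val + 1) = δ q d := h1 0
    rw [Fin.prod_univ_succ, h1 k, mul_assoc, e0]
    simp only [e1]
    rfl

theorem sum_step (hδ : ∀ q, Function.Injective (δ q)) (p : Q) (φ : Q → R) :
    ∑ q, (if ∃ d, δ p d = q then φ q else 0) = ∑ d, φ (δ p d) := by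
  rw [← sum_filter]
  have h1 : (univ.filter fun q => ∃ d, δ p d = q) = univ.image (δ p) := by
    ext q
    simp
  rw [h1, sum_image fun d _ d' _ h => hδ p h]

/-- **The permanent of the graph of an automaton.** -/
theorem perm_auto (hδ : ∀ q, Function.Injective (δ q)) (d0 : D) (n : ℕ) (hn : 0 < n) (a : R)
    (q0 : Q) (wt : ℕ → Q → R) (fin : Q → R) :
    (acy (τ := Fin n × Q) a
      (fun i => if i.1.val = 0 ∧ ∃ d, δ q0 d = i.2 then wt 0 i.2 else 0)
      (fun i => if i.1.val + 1 = n then fin i.2 else 0)
      (fun i j => if j.1.val = i.1.val + 1 ∧ ∃ d, δ i.2 d = j.2 then wt j.1 j.2 else 0)).permanent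
      = a + ∑ w : Fin n → D, (∏ t : Fin n, wt t (st δ q0 (ext d0 w) (t + 1))) *
          fin (st δ q0 (ext d0 w) n) := by
  rw [← cont_eq_sum]
  rw [perm_acy (fun i => n - i.1.val) a _ _
    (fun i => cont δ fin (n - (i.1.val + 1)) (fun m => wt (i.1.val + 1 + m)) i.2)]
  · congr 1
    obtain ⟨m, rfl⟩ : ∃ m, n = m + 1 := ⟨n - 1, by omega⟩
    rw [Fintype.sum_prod_type, Fintype.sum_eq_single (0 : Fin (m + 1))]
    · show _ = ∑ d, wt 0 (δ q0 d) * cont δ fin m (fun n => wt (n + 1)) (δ q0 d)
      rw [← sum_step δ hδ q0 fun q => wt 0 q * cont δ fin m (fun n => wt (n + 1)) q]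
      refine sum_congr rfl fun q _ => ?_
      by_cases hq : ∃ d, δ q0 d = q
      · rw [if_pos hq, if_pos ⟨rfl, hq⟩]
        have h1 : m + 1 - ((0 : Fin (m + 1)).val + 1) = m := by simp
        have h2 : (fun k => wt ((0 : Fin (m + 1)).val + 1 + k)) = fun k => wt (k + 1) := by
          funext k
          congr 1
          simp [add_comm]
        rw [h1, h2]
      · rw [if_neg hq, if_neg (fun h => hq h.2), zero_mul]
    · intro t ht
      refine sum_eq_zero fun q _ => ?_
      rw [if_neg, zero_mul]
      rintro ⟨h, -⟩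
      exact ht (Fin.ext h)
  · intro i j h
    have h1 : j.1.val = i.1.val + 1 := by
      by_contra hcon
      exact h (if_neg fun hh => hcon hh.1)
    have := j.1.isLt
    omega
  · rintro ⟨t, q⟩
    by_cases ht : t.val + 1 = n
    · have h1 : n - (t.val + 1) = 0 := by omega
      simp only [if_pos ht, h1]
      show fin q = _
      rw [left_eq_add]
      refine sum_eq_zero fun j _ => ?_
      rw [if_neg, zero_mul]
      rintro ⟨h, -⟩
      have := j.1.isLt
      omega
    · have ht' : t.val + 1 < n := by have := t.isLt; omega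
      simp only [if_neg ht, zero_add]
      obtain ⟨k, hk⟩ : ∃ k, n - (t.val + 1) = k + 1 := ⟨n - (t.val + 1) - 1, by omega⟩
      rw [Fintype.sum_prod_type, Fintype.sum_eq_single (⟨t.val + 1, ht'⟩ : Fin n)]
      · rw [hk]
        show ∑ d, wt (t.val + 1 + 0) (δ q d) *
          cont δ fin k (fun n => wt (t.val + 1 + (n + 1))) (δ q d) = _
        rw [← sum_step δ hδ q fun q' => wt (t.val + 1 + 0) q' *
          cont δ fin k (fun n => wt (t.val + 1 + (n + 1))) q']
        refine sum_congr rfl fun q' _ => ?_
        by_cases hq : ∃ d, δ q d = q'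
        · rw [if_pos hq, if_pos ⟨rfl, hq⟩]
          have h1 : n - (t.val + 1 + 1) = k := by omega
          have h2 : (fun n => wt (t.val + 1 + (n + 1))) = fun m => wt (t.val + 1 + 1 + m) := by
            funext m
            congr 1
            omega
          rw [h1, h2]
        · rw [if_neg hq, if_neg (fun h => hq h.2), zero_mul]
      · intro t' ht'
        refine sum_eq_zero fun q' _ => ?_
        rw [if_neg, zero_mul]
        rintro ⟨h, -⟩
        exact ht' (Fin.ext h)

end Auto

end Pool.MCD
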