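import Pool.Agent.MCD.Defs

/-!
# Multiples of the permanent at constant depth: the digit words (row N)
-/

set_option autoImplicit false

namespace Pool.MCD

open Finset

theorem ru_injective (A B h : ℕ) : Function.Injective (ru A B h) := by
  intro w w' hw
  ext1 ⟨t, ht⟩
  have hA : 0 < A := by
    rcases Nat.eq_zero_or_pos A with h0 | h0
    · subst h0
      omega
    · exact h0
  have h1 : t / A < B := Nat.div_lt_of_lt_mul ht
  have h2 : t % A < A := Nat.mod_lt _ hA
  have h3 := congrFun (congrFun hw ⟨t / A, h1⟩) ⟨t % A, h2⟩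
  unfold ru at h3
  have h4 : (⟨t / A * A + t % A, dig_lt (A := A) (B := B) ⟨t / A, h1⟩ ⟨t % A, h2⟩⟩ : Fin (A * B)) =
      ⟨t, ht⟩ := by
    ext
    exact Nat.div_add_mod' t A
  have h5 : w ⟨t, ht⟩ = w' ⟨t, ht⟩ := by
    rw [← h4]
    exact h3
  exact h5

theorem rv_injective (A B h : ℕ) : Function.Injective (rv A B h) := by
  intro w w' hw
  ext1 ⟨t, ht⟩
  have hB : 0 < B := by
    rcases Nat.eq_zero_or_pos B with h0 | h0
    · subst h0
      omega
    · exact h0
  have h1 : t / B < A := Nat.div_lt_of_lt_mul (by rwa [Nat.mul_comm B A])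
  have h2 : t % B < B := Nat.mod_lt _ hB
  have h3 := congrFun (congrFun hw ⟨t / B, h1⟩) ⟨t % B, h2⟩
  unfold rv at h3
  have h4 : (⟨t / B * B + t % B, dig_lt' (A := A) (B := B) ⟨t / B, h1⟩ ⟨t % B, h2⟩⟩ : Fin (A * B)) =
      ⟨t, ht⟩ := by
    ext
    exact Nat.div_add_mod' t B
  have h5 : w ⟨t, ht⟩ = w' ⟨t, ht⟩ := by
    rw [← h4]
    exact h3
  exact h5

/-- a proper part is not balanced -/
theorem unbalanced {A B : ℕ} (hB : 1 ≤ B) (hc : Nat.Coprime A B)
    {S : Finset (Fin B)} {S' : Finset (Fin A)} (h : Proper S S') : A * S.card ≠ B * S'.card := by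
  intro heq
  have h1 : B ∣ S.card := by
    have : B ∣ A * S.card := heq ▸ Dvd.intro _ rfl
    exact (Nat.Coprime.symm hc).dvd_of_dvd_mul_left this
  have h2 : S.card ≤ B := by
    have := card_le_univ S
    rwa [Fintype.card_fin] at this
  have h3 : S'.card ≤ A := by
    have := card_le_univ S'
    rwa [Fintype.card_fin] at this
  obtain ⟨q, hq⟩ := h1
  rcases Nat.eq_zero_or_pos q with h0 | h0
  · rw [h0, Nat.mul_zero] at hq
    rw [hq, Nat.mul_zero] at heq
    have h4 : S'.card = 0 := by
      rcases Nat.mul_eq_zero.1 heq.symm with h5 | h5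
      · omega
      · exact h5
    exact h.1 ⟨card_eq_zero.1 hq, card_eq_zero.1 h4⟩
  · have h4 : S.card = B := by
      apply le_antisymm h2
      rw [hq]
      exact Nat.le_mul_of_pos_right _ h0
    have h5 : S'.card = A := by
      rw [h4, Nat.mul_comm A B] at heq
      exact (Nat.eq_of_mul_eq_mul_left (by omega) heq).symm
    refine h.2 ⟨?_, ?_⟩
    · rw [← card_eq_iff_eq_univ, Fintype.card_fin, h4]
    · rw [← card_eq_iff_eq_univ, Fintype.card_fin, h5]

theorem card_image_restrict_le {W ι L : Type} [Fintype W] [Fintype ι] [Fintype L]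
    (p : ι → Prop) [DecidablePred p] [DecidableEq ({i // p i} → L)] (z : W → ι → L) :
    (univ.image fun (w : W) (i : {i // p i}) => z w i.1).card ≤
      Fintype.card L ^ (univ.filter p).card := by
  classical
  refine (card_le_univ _).trans (le_of_eq ?_)
  rw [Fintype.card_fun, Fintype.card_subtype]

/-- the number of dual pairs -/
def kk (A B h : ℕ) : ℕ := (h ^ (A * B) + 1) / 2

/-- ROW N, part 1: admissible vectors for the digit words -/
theorem digits_adm {K : Type} [Field K] (hG : GroupLemma K) {A B h : ℕ} (hA : 1 ≤ A) (hB : 1 ≤ B)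
    (hc : Nat.Coprime A B) (hh : 2 ^ (A + B + 4) ≤ h)
    (F : Finset (Fin B) → Finset (Fin A) → Wg A B h → Wg A B h → K)
    (hF : ∀ S S' w w1 w' w1', (∀ i ∈ S, ru A B h w i = ru A B h w1 i) →
      (∀ j ∈ S', rv A B h w' j = rv A B h w1' j) → F S S' w w' = F S S' w1 w1') :
    ∃ a a' : Fin (kk A B h) → Wg A B h → K,
      Adm (ru A B h) (rv A B h) F (fun S S' => B * S'.card < A * S.card) a a' := by
  have hh1 : 1 ≤ h := Nat.one_le_two_pow.trans hh
  have hAB : 1 ≤ A * B := Nat.mul_pos hA hB
  have cardLu : Fintype.card (Fin A → Fin h) = h ^ A := by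
    rw [Fintype.card_fun, Fintype.card_fin, Fintype.card_fin]
  have cardLv : Fintype.card (Fin B → Fin h) = h ^ B := by
    rw [Fintype.card_fun, Fintype.card_fin, Fintype.card_fin]
  have hcf : ∀ S : Finset (Fin B), (univ.filter fun i => i ∉ S).card = B - S.card := by
    intro S
    have : (univ.filter fun i => i ∉ S) = Sᶜ := by ext; simp
    rw [this, card_compl, Fintype.card_fin]
  have hcf' : ∀ S : Finset (Fin A), (univ.filter fun i => i ∉ S).card = A - S.card := by
    intro S
    have : (univ.filter fun i => i ∉ S) = Sᶜ := by ext; simp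
    rw [this, card_compl, Fintype.card_fin]
  have hcg : ∀ S : Finset (Fin B), (univ.filter fun i => i ∈ S).card = S.card := by
    intro S
    have : (univ.filter fun i => i ∈ S) = S := by ext; simp
    rw [this]
  have hcg' : ∀ S : Finset (Fin A), (univ.filter fun i => i ∈ S).card = S.card := by
    intro S
    have : (univ.filter fun i => i ∈ S) = S := by ext; simp
    rw [this]
  refine hG (Wg A B h) (Fin B) (Fin A) (Fin A → Fin h) (Fin B → Fin h) (ru A B h) (rv A B h) F
    (fun S S' => B * S'.card < A * S.card) (h ^ (A * B - 1)) (kk A B h) hF ?_ ?_ ?_ ?_ ?_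
  · intro S S' hp hv
    have hS : S.card ≤ B := by
      have := card_le_univ S
      rwa [Fintype.card_fin] at this
    refine (Nat.mul_le_mul (card_image_restrict_le (fun i => i ∉ S) (ru A B h))
      (card_image_restrict_le (fun j => j ∈ S') (rv A B h))).trans ?_
    rw [cardLu, cardLv, hcf, hcg', ← pow_mul, ← pow_mul, ← pow_add]
    apply Nat.pow_le_pow_right hh1
    have e1 : A * (B - S.card) = A * B - A * S.card := Nat.mul_sub A B S.card
    have e2 : A * S.card ≤ A * B := Nat.mul_le_mul_left _ hS
    omega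
  · intro S S' hp hv
    have hS' : S'.card ≤ A := by
      have := card_le_univ S'
      rwa [Fintype.card_fin] at this
    refine (Nat.mul_le_mul (card_image_restrict_le (fun i => i ∈ S) (ru A B h))
      (card_image_restrict_le (fun j => j ∉ S') (rv A B h))).trans ?_
    rw [cardLu, cardLv, hcf', hcg, ← pow_mul, ← pow_mul, ← pow_add]
    apply Nat.pow_le_pow_right hh1
    have e0 := unbalanced hB hc hp
    have e1 : B * (A - S'.card) = B * A - B * S'.card := Nat.mul_sub B A S'.card
    have e2 : B * S'.card ≤ B * A := Nat.mul_le_mul_left _ hS'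
    have e3 : B * A = A * B := Nat.mul_comm _ _
    omega
  · intro i
    refine (card_image_restrict_le (fun i' => i' ≠ i) (ru A B h)).trans ?_
    have e0 : (univ.filter fun i' : Fin B => i' ≠ i).card = B - 1 := by
      have : (univ.filter fun i' : Fin B => i' ≠ i) = univ.erase i := by ext; simp
      rw [this, card_erase_of_mem (mem_univ _), card_univ, Fintype.card_fin]
    rw [cardLu, e0, ← pow_mul]
    apply Nat.pow_le_pow_right hh1
    have e1 : A * (B - 1) = A * B - A * 1 := Nat.mul_sub A B 1
    omega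
  · intro j
    refine (card_image_restrict_le (fun j' => j' ≠ j) (rv A B h)).trans ?_
    have e0 : (univ.filter fun j' : Fin A => j' ≠ j).card = A - 1 := by
      have : (univ.filter fun j' : Fin A => j' ≠ j) = univ.erase j := by ext; simp
      rw [this, card_erase_of_mem (mem_univ _), card_univ, Fintype.card_fin]
    rw [cardLv, e0, ← pow_mul]
    apply Nat.pow_le_pow_right hh1
    have e1 : B * (A - 1) = B * A - B * 1 := Nat.mul_sub B A 1
    have e3 : B * A = A * B := Nat.mul_comm _ _
    omega
  · have cW : Fintype.card (Wg A B h) = h ^ (A * B) := by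
      rw [Fintype.card_fun, Fintype.card_fin, Fintype.card_fin]
    rw [cW, Fintype.card_fin, Fintype.card_fin]
    set M := h ^ (A * B - 1) with hM
    have e1 : h ^ (A * B) = h * M := by
      rw [hM, ← pow_succ']
      congr 1
      omega
    have hM1 : 1 ≤ M := Nat.one_le_pow _ _ hh1
    have e2 : A + B < 2 ^ (A + B) := Nat.lt_two_pow_self
    have e3 : 2 ^ (A + B + 4) = 16 * 2 ^ (A + B) := by rw [pow_add]; ring
    have e4 : B + A = A + B := Nat.add_comm _ _
    unfold kk
    rw [e1, e4]
    set P := 2 ^ (A + B) with hP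
    have e5 : (P + B + A) * M ≤ 2 * P * M := Nat.mul_le_mul_right _ (by omega)
    have e6 : 16 * P * M ≤ h * M := Nat.mul_le_mul_right _ (by omega)
    have e7 : 1 * 1 ≤ P * M := Nat.mul_le_mul (by omega) hM1
    have e8 : 2 * P * M = 2 * (P * M) := by ring
    have e9 : 16 * P * M = 16 * (P * M) := by ring
    omega

/-- the parts depend on the letters of the blocks -/
theorem part_local {W U V Lu Lv : Type} [Fintype W] [Fintype U] [Fintype V] {K : Type} [Field K]
    [DecidableEq U] [DecidableEq V] [DecidableEq Lu] [DecidableEq Lv]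
    (zu : W → U → Lu) (zv : W → V → Lv) (y : U → Lu → K) (z : V → Lv → K)
    (S : Finset U) (S' : Finset V) (w w1 w' w1' : W) (h1 : ∀ i ∈ S, zu w i = zu w1 i)
    (h2 : ∀ j ∈ S', zv w' j = zv w1' j) : part zu zv y z S S' w w' = part zu zv y z S S' w1 w1' := by
  unfold part
  refine sum_congr rfl fun v _ => ?_
  congr 2
  · exact prod_congr rfl fun i hi => by rw [h1 i hi]
  · exact prod_congr rfl fun j hj => by rw [h2 j hj]

/-- admissible vectors for the parts of the chain polynomial at every point -/
theorem digits_adm_part {K : Type} [Field K] (hG : GroupLemma K) {A B h : ℕ} (hA : 1 ≤ A)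
    (hB : 1 ≤ B) (hc : Nat.Coprime A B) (hh : 2 ^ (A + B + 4) ≤ h)
    (y : Fin B → (Fin A → Fin h) → K) (z : Fin A → (Fin B → Fin h) → K) :
    ∃ a a' : Fin (kk A B h) → Wg A B h → K,
      Adm (ru A B h) (rv A B h) (part (ru A B h) (rv A B h) y z)
        (fun S S' => B * S'.card < A * S.card) a a' :=
  digits_adm hG hA hB hc hh _ fun S S' w w1 w' w1' h1 h2 =>
    part_local (ru A B h) (rv A B h) y z S S' w w1 w' w1' h1 h2

end Pool.MCD
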