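import Mathlib
import Pool.Agent.Helper87.D3.Series

/-!
# Multiples of the permanent at constant depth: definitions and interface

One group: words `w : W`, read by `zu` in blocks `U` and by `zv` in blocks `V`.
There are `s` groups, each with one more variable.
-/

set_option autoImplicit false
set_option linter.unusedSectionVars false

namespace Pool.MCD

open Finset MvPolynomial
open Pool.Agent.Helper87.D3 (Ser cf cst lam mu)

section defs
variable {W U V Lu Lv : Type} [Fintype W] [Fintype U] [Fintype V]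

/-- the chain polynomial of one group -/
def chain {R : Type} [CommRing R] (zu : W → U → Lu) (zv : W → V → Lv) (y : U → Lu → R)
    (z : V → Lv → R) : R :=
  ∑ w, (∏ i, y i (zu w i)) * ∏ j, z j (zv w j)

/-- the variables `y` and `z` of all groups -/
abbrev YZ (s : ℕ) (U V Lu Lv : Type) : Type := (Fin s × U × Lu) ⊕ (Fin s × V × Lv)

/-- the chain polynomial of the group `g` in the variables -/
noncomputable def fg (K : Type) [Field K] (s : ℕ) (zu : W → U → Lu) (zv : W → V → Lv)
    (g : Fin s) : MvPolynomial (YZ s U V Lu Lv) K :=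
  chain zu zv (fun i a => X (Sum.inl (g, i, a))) (fun j b => X (Sum.inr (g, j, b)))

/-- the coefficients of the chain polynomial at the point `(y, z)`: the blocks of `S`, `S'` read
the words `w`, `w'` -/
def part {K : Type} [Field K] [DecidableEq U] [DecidableEq V] [DecidableEq Lu] [DecidableEq Lv]
    (zu : W → U → Lu) (zv : W → V → Lv) (y : U → Lu → K) (z : V → Lv → K)
    (S : Finset U) (S' : Finset V) (w w' : W) : K :=
  ∑ v, ((∏ i ∈ S, if zu w i = zu v i then 1 else 0) * ∏ i ∈ Sᶜ, y i (zu v i)) *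
    ((∏ j ∈ S', if zv w' j = zv v j then 1 else 0) * ∏ j ∈ S'ᶜ, z j (zv v j))

/-- `(S, S')` is a proper part -/
def Proper (S : Finset U) (S' : Finset V) : Prop :=
  ¬ (S = ∅ ∧ S' = ∅) ∧ ¬ (S = univ ∧ S' = univ)

/-- ADMISSIBLE VECTORS for one group, with coefficients `F S S' w w'` of the parts. `hv S S'` says
that the part is heavy for the first word. -/
structure Adm {K : Type} [Field K] [DecidableEq U] [DecidableEq V] (zu : W → U → Lu)
    (zv : W → V → Lv) (F : Finset U → Finset V → W → W → K) (hv : Finset U → Finset V → Prop)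
    {k : ℕ} (a a' : Fin k → W → K) : Prop where
  dual : ∀ κ κ', ∑ w, a κ w * a' κ' w = if κ = κ' then 1 else 0
  row : ∀ κ S S', Proper S S' → hv S S' → ∀ (w' : W) (ψ : W → K),
    (∀ w w1, (∀ i, i ∉ S → zu w i = zu w1 i) → ψ w = ψ w1) →
    ∑ w, a κ w * F S S' w w' * ψ w = 0
  col : ∀ κ S S', Proper S S' → ¬ hv S S' → ∀ (w : W) (ψ : W → K),
    (∀ w' w1, (∀ j, j ∉ S' → zv w' j = zv w1 j) → ψ w' = ψ w1) →
    ∑ w', a' κ w' * F S S' w w' * ψ w' = 0
  row1 : ∀ κ (i : U) (ψ : W → K), (∀ w w1, (∀ i', i' ≠ i → zu w i' = zu w1 i') → ψ w = ψ w1) →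
    ∑ w, a κ w * ψ w = 0
  col1 : ∀ κ (j : V) (ψ : W → K), (∀ w w1, (∀ j', j' ≠ j → zv w j' = zv w1 j') → ψ w = ψ w1) →
    ∑ w, a' κ w * ψ w = 0

/-- ROW G (helper7): the statement of the group lemma -/
def GroupLemma (K : Type) [Field K] : Prop :=
  ∀ (W U V Lu Lv : Type) [Fintype W] [Fintype U] [Fintype V] [DecidableEq W] [DecidableEq U]
    [DecidableEq V] [DecidableEq Lu] [DecidableEq Lv] (zu : W → U → Lu) (zv : W → V → Lv)
    (F : Finset U → Finset V → W → W → K) (hv : Finset U → Finset V → Prop) (M k : ℕ),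
    (∀ S S' w w1 w' w1', (∀ i ∈ S, zu w i = zu w1 i) → (∀ j ∈ S', zv w' j = zv w1' j) →
      F S S' w w' = F S S' w1 w1') →
    (∀ S S', Proper S S' → hv S S' →
      (univ.image fun (w : W) (i : {i // i ∉ S}) => zu w i.1).card *
        (univ.image fun (w : W) (j : {j // j ∈ S'}) => zv w j.1).card ≤ M) →
    (∀ S S', Proper S S' → ¬ hv S S' →
      (univ.image fun (w : W) (i : {i // i ∈ S}) => zu w i.1).card *
        (univ.image fun (w : W) (j : {j // j ∉ S'}) => zv w j.1).card ≤ M) →
    (∀ i : U, (univ.image fun (w : W) (i' : {i' // i' ≠ i}) => zu w i'.1).card ≤ M) →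
    (∀ j : V, (univ.image fun (w : W) (j' : {j' // j' ≠ j}) => zv w j'.1).card ≤ M) →
    k + 2 * ((2 ^ (Fintype.card U + Fintype.card V) + Fintype.card U + Fintype.card V) * M) ≤
      Fintype.card W →
    ∃ a a' : Fin k → W → K, Adm zu zv F hv a a'

end defs

section multi
variable {W U V Lu Lv : Type} [Fintype W] [Fintype U] [Fintype V] [DecidableEq W]
  [DecidableEq Lu] [DecidableEq Lv] {s : ℕ} {K : Type} [Field K]

/-- the family of points through `c` in direction of the words `p`, `p'` -/
noncomputable def line (zu : W → U → Lu) (zv : W → V → Lv) (c : YZ s U V Lu Lv → K)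
    (p p' : Fin s → W) : YZ s U V Lu Lv → Ser K
  | Sum.inl (g, i, a) => cst (c (Sum.inl (g, i, a))) + lam K * cst (if zu (p g) i = a then 1 else 0)
  | Sum.inr (g, j, b) => cst (c (Sum.inr (g, j, b))) + mu K * cst (if zv (p' g) j = b then 1 else 0)

/-- THE MATRIX: coefficient of `lam ^ (s * |U|) * mu ^ (s * |V|)` -/
noncomputable def Mx (zu : W → U → Lu) (zv : W → V → Lv) (c : YZ s U V Lu Lv → K)
    (H : MvPolynomial (YZ s U V Lu Lv) K) (p p' : Fin s → W) : K :=
  cf (s * Fintype.card U) (s * Fintype.card V) (aeval (line zu zv c p p') H)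

/-- compression of the matrix by vectors `a g κ`, `a' g κ'` of the groups -/
noncomputable def cmp (zu : W → U → Lu) (zv : W → V → Lv) (c : YZ s U V Lu Lv → K) {k : ℕ}
    (a a' : Fin s → Fin k → W → K) (H : MvPolynomial (YZ s U V Lu Lv) K)
    (κ κ' : Fin s → Fin k) : K :=
  ∑ p : Fin s → W, ∑ p' : Fin s → W, (∏ g, a g (κ g) (p g)) * (∏ g, a' g (κ' g) (p' g)) *
    Mx zu zv c H p p'

/-- functionals `Λ κ κ' J` (`J` = the differentiated groups) as in ROW C (helper76) -/
structure LamFam (zu : W → U → Lu) (zv : W → V → Lv) (c : YZ s U V Lu Lv → K) {k : ℕ}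
    (Λ : (Fin s → Fin k) → (Fin s → Fin k) → Finset (Fin s) →
      MvPolynomial (YZ s U V Lu Lv) K →ₗ[K] K) : Prop where
  h0 : ∀ κ κ' H, Λ κ κ' ∅ H = eval c H
  h1 : ∀ κ κ' J g H, g ∉ J → Λ κ κ' J (fg K s zu zv g * H) = eval c (fg K s zu zv g) * Λ κ κ' J H
  h2 : ∀ κ κ' J g H, g ∈ J → Λ κ κ' J (fg K s zu zv g * H) =
    eval c (fg K s zu zv g) * Λ κ κ' J H + (if κ g = κ' g then 1 else 0) * Λ κ κ' (J.erase g) H

/-- ROW L (helper10): admissible vectors at the point `c` give the functionals; the functional of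
all groups is the compressed matrix -/
def RowL : Prop :=
  ∀ (W U V Lu Lv : Type) [Fintype W] [Fintype U] [Fintype V] [DecidableEq W] [DecidableEq U]
    [DecidableEq V] [DecidableEq Lu] [DecidableEq Lv] (K : Type) [Field K] (s k : ℕ)
    (zu : W → U → Lu) (zv : W → V → Lv) (hv : Finset U → Finset V → Prop),
    Function.Injective zu → Function.Injective zv → Nonempty W → (Nonempty U ∨ Nonempty V) →
    ∀ (c : YZ s U V Lu Lv → K) (a a' : Fin s → Fin k → W → K),
    (∀ g, Adm zu zv (part zu zv (fun i b => c (Sum.inl (g, i, b)))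
      (fun j b => c (Sum.inr (g, j, b)))) hv (a g) (a' g)) →
    ∃ Λ : (Fin s → Fin k) → (Fin s → Fin k) → Finset (Fin s) →
      MvPolynomial (YZ s U V Lu Lv) K →ₗ[K] K,
      LamFam zu zv c Λ ∧ ∀ κ κ' H, Λ κ κ' univ H = cmp zu zv c a a' H κ κ'

end multi

section digits

theorem dig_lt {A B : ℕ} (i : Fin B) (k : Fin A) : i.val * A + k.val < A * B := by
  have h1 := i.2
  have h2 := k.2
  calc i.val * A + k.val < i.val * A + A := by omega
    _ = (i.val + 1) * A := by ring
    _ ≤ B * A := Nat.mul_le_mul_right _ h1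
    _ = A * B := Nat.mul_comm _ _

theorem dig_lt' {A B : ℕ} (j : Fin A) (k : Fin B) : j.val * B + k.val < A * B := by
  have := dig_lt (A := B) (B := A) j k
  rwa [Nat.mul_comm B A] at this

/-- words of one group: `A * B` digits -/
abbrev Wg (A B h : ℕ) : Type := Fin (A * B) → Fin h

/-- the first reading: `B` blocks of `A` digits -/
def ru (A B h : ℕ) (w : Wg A B h) (i : Fin B) (k : Fin A) : Fin h := w ⟨i.val * A + k.val, dig_lt i k⟩

/-- the second reading: `A` blocks of `B` digits -/
def rv (A B h : ℕ) (w : Wg A B h) (j : Fin A) (k : Fin B) : Fin h := w ⟨j.val * B + k.val, dig_lt' j k⟩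

/-- variables of the digit gadget -/
abbrev YD (s A B h : ℕ) : Type := YZ s (Fin B) (Fin A) (Fin A → Fin h) (Fin B → Fin h)

/-- an entry is an integer constant or a variable -/
def entry {s A B h : ℕ} {R : Type} [CommRing R] (x : Fin s → R) (y : YD s A B h → R) :
    ℤ ⊕ (Fin s ⊕ YD s A B h) → R
  | Sum.inl k => (k : R)
  | Sum.inr (Sum.inl g) => x g
  | Sum.inr (Sum.inr v) => y v

/-- ROW P: the gadget; a matrix of constants and variables with permanent
`∏ g, (x g + chain polynomial)`, an identity in every commutative ring. (Shift register: vertices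
`(t, σ)`, `t ≤ A * B`, `σ` the last `A` digits; the edge into `(t + 1, σ')` carries `y` if
`A ∣ t + 1` and `z` if `B ∣ t + 1`, one extra step at the end; the edge `x g` goes from the first
to the last vertex of the group; block diagonal, padded by an identity matrix.) -/
def RowP : Prop :=
  ∀ A B h s n : ℕ, 1 ≤ A → 1 ≤ B → B ≤ A → 1 ≤ h → s * ((A * B + 3) * (h ^ A + 1)) ≤ n →
    ∃ Fam : Fin n → Fin n → ℤ ⊕ (Fin s ⊕ YD s A B h),
      ∀ (R : Type) [CommRing R] (x : Fin s → R) (y : YD s A B h → R),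
        (Matrix.of fun i j => entry x y (Fam i j)).permanent =
          ∏ g, (x g + chain (ru A B h) (rv A B h) (fun i b => y (Sum.inl (g, i, b)))
            (fun j b => y (Sum.inr (g, j, b))))

end digits

end Pool.MCD
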