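import Pool.Agent.MCD.Auto
import Pool.Agent.MCD.Defs

/-!
# MCD: the gadget (ROW P)

Shift register of the last `A` letters; the edge which arrives after `A * (i + 1)` letters carries
the variable `y i (block)`, the edge which arrives after `B * (j + 1)` letters the variable
`z j (block)`, for the last block it is the edge to the end.
-/

set_option autoImplicit false
set_option linter.unusedSectionVars false

namespace Pool.MCD

open Finset Pool.Agent.Helper97.Form

section Shift

variable {A h : ℕ}

/-- the shift register -/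
def sh (q : Fin A → Fin h) (d : Fin h) : Fin A → Fin h :=
  fun k => if hk : k.val + 1 < A then q ⟨k.val + 1, hk⟩ else d

theorem sh_inj (hA : 1 ≤ A) (q : Fin A → Fin h) : Function.Injective (sh q) := by
  intro d d' hd
  have := congrFun hd ⟨A - 1, by omega⟩
  unfold sh at this
  rwa [dif_neg (by simp only; omega), dif_neg (by simp only; omega)] at this

theorem st_sh (d0 : Fin h) (w : ℕ → Fin h) (t : ℕ) (k : Fin A) :
    st sh (fun _ => d0) w t k = if A ≤ t + k.val then w (t + k.val - A) else d0 := by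
  induction t generalizing k with
  | zero =>
    have := k.isLt
    rw [if_neg (by omega)]
    rfl
  | succ t ih =>
    show sh (st sh (fun _ => d0) w t) (w t) k = _
    unfold sh
    by_cases hk : k.val + 1 < A
    · rw [dif_pos hk]
      have h1 := ih ⟨k.val + 1, hk⟩
      simp only at h1
      have e : t + (k.val + 1) = t + 1 + k.val := by omega
      rw [e] at h1
      exact h1
    · have h1 := k.isLt
      rw [dif_neg hk, if_pos (by omega)]
      congr 1
      omega

end Shift

section Prod

variable {R : Type} [CommRing R]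

/-- the product of the weights along a word -/
theorem prod_weights {A B : ℕ} (hA : 1 ≤ A) (hB : 1 ≤ B) (hc : A.Coprime B) (Y Z : ℕ → R) :
    (∏ t ∈ range (A * B), (if A ∣ t + 1 then Y ((t + 1) / A - 1)
      else if B ∣ t + 1 then Z ((t + 1) / B - 1) else 1)) * Z (A - 1) =
      (∏ i ∈ range B, Y i) * ∏ j ∈ range A, Z j := by
  have h1 : ∀ t, (if A ∣ t + 1 then Y ((t + 1) / A - 1)
      else if B ∣ t + 1 then Z ((t + 1) / B - 1) else 1) =
      (if A ∣ t + 1 then Y ((t + 1) / A - 1) else 1) *
        (if ¬ A ∣ t + 1 ∧ B ∣ t + 1 then Z ((t + 1) / B - 1) else 1) := by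
    intro t
    by_cases h : A ∣ t + 1
    · rw [if_pos h, if_pos h, if_neg (fun hh => hh.1 h), mul_one]
    · rw [if_neg h, if_neg h, one_mul]
      by_cases h' : B ∣ t + 1
      · rw [if_pos h', if_pos ⟨h, h'⟩]
      · rw [if_neg h', if_neg (fun hh => h' hh.2)]
  rw [prod_congr rfl fun t _ => h1 t, prod_mul_distrib, ← prod_filter, ← prod_filter]
  have h2 : ∏ t ∈ (range (A * B)).filter (fun t => A ∣ t + 1), Y ((t + 1) / A - 1) =
      ∏ i ∈ range B, Y i := by
    refine prod_nbij' (fun t => (t + 1) / A - 1) (fun i => A * (i + 1) - 1) ?_ ?_ ?_ ?_ ?_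
    · intro t ht
      rw [mem_filter, mem_range] at ht
      obtain ⟨ht, c, hc⟩ := ht
      rw [mem_range]
      simp only [hc]
      rw [Nat.mul_div_cancel_left _ (by omega)]
      have h3 : A * c ≤ A * B := by omega
      have h4 : c ≤ B := Nat.le_of_mul_le_mul_left h3 (by omega)
      omega
    · intro i hi
      rw [mem_range] at hi
      rw [mem_filter, mem_range]
      have h3 : A * (i + 1) ≤ A * B := Nat.mul_le_mul_left _ hi
      have h4 : 1 ≤ A * (i + 1) := Nat.mul_pos (by omega) (by omega)
      refine ⟨by omega, ?_⟩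
      rw [Nat.sub_add_cancel h4]
      exact dvd_mul_right _ _
    · intro t ht
      rw [mem_filter, mem_range] at ht
      obtain ⟨ht, c, hc⟩ := ht
      simp only [hc]
      rw [Nat.mul_div_cancel_left _ (by omega)]
      have h3 : 1 ≤ c := by
        rcases Nat.eq_zero_or_pos c with h0 | h0
        · rw [h0] at hc; omega
        · exact h0
      rw [Nat.sub_add_cancel h3, ← hc]
      omega
    · intro i hi
      have h4 : 1 ≤ A * (i + 1) := Nat.mul_pos (by omega) (by omega)
      rw [Nat.sub_add_cancel h4, Nat.mul_div_cancel_left _ (by omega)]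
      omega
    · intro t _
      rfl
  have h5 : ∏ t ∈ (range (A * B)).filter (fun t => ¬ A ∣ t + 1 ∧ B ∣ t + 1),
      Z ((t + 1) / B - 1) = ∏ j ∈ range (A - 1), Z j := by
    refine prod_nbij' (fun t => (t + 1) / B - 1) (fun j => B * (j + 1) - 1) ?_ ?_ ?_ ?_ ?_
    · intro t ht
      rw [mem_filter, mem_range] at ht
      obtain ⟨ht, hn, c, hc'⟩ := ht
      rw [mem_range]
      simp only [hc']
      rw [Nat.mul_div_cancel_left _ (by omega)]
      have h3 : B * c ≤ B * A := by rw [mul_comm B A]; omega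
      have h4 : c ≤ A := Nat.le_of_mul_le_mul_left h3 (by omega)
      have h6 : c ≠ A := by
        rintro rfl
        exact hn (by rw [hc']; exact dvd_mul_left _ _)
      have h7 : 1 ≤ c := by
        rcases Nat.eq_zero_or_pos c with h0 | h0
        · rw [h0] at hc'; omega
        · exact h0
      omega
    · intro j hj
      rw [mem_range] at hj
      rw [mem_filter, mem_range]
      have h3 : B * (j + 1) ≤ B * (A - 1) := Nat.mul_le_mul_left _ hj
      have h3' : B * (A - 1) ≤ A * B := by
        rw [mul_comm A B]; exact Nat.mul_le_mul_left _ (by omega)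
      have h4 : 1 ≤ B * (j + 1) := Nat.mul_pos (by omega) (by omega)
      refine ⟨by omega, ?_, ?_⟩
      · rw [Nat.sub_add_cancel h4]
        intro hd
        have h8 := hc.dvd_of_dvd_mul_left hd
        have := Nat.le_of_dvd (by omega) h8
        omega
      · rw [Nat.sub_add_cancel h4]
        exact dvd_mul_right _ _
    · intro t ht
      rw [mem_filter, mem_range] at ht
      obtain ⟨ht, hn, c, hc'⟩ := ht
      simp only [hc']
      rw [Nat.mul_div_cancel_left _ (by omega)]
      have h3 : 1 ≤ c := by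
        rcases Nat.eq_zero_or_pos c with h0 | h0
        · rw [h0] at hc'; omega
        · exact h0
      rw [Nat.sub_add_cancel h3, ← hc']
      omega
    · intro j hj
      have h4 : 1 ≤ B * (j + 1) := Nat.mul_pos (by omega) (by omega)
      rw [Nat.sub_add_cancel h4, Nat.mul_div_cancel_left _ (by omega)]
      omega
    · intro t _
      rfl
  rw [h2, h5, mul_assoc]
  congr 1
  obtain ⟨a, rfl⟩ : ∃ a, A = a + 1 := ⟨A - 1, by omega⟩
  rw [Nat.add_sub_cancel, prod_range_succ]

end Prod

section Group

variable {s A B h : ℕ}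

/-- the last `B` letters of the register -/
def lastB (hB : B ≤ A) (q : Fin A → Fin h) : Fin B → Fin h :=
  fun k => q ⟨A - B + k.val, by have := k.isLt; omega⟩

/-- the entry of the edge which arrives after `t + 1` letters -/
def wtE (hB : B ≤ A) (g : Fin s) (t : ℕ) (q : Fin A → Fin h) : ℤ ⊕ (Fin s ⊕ YD s A B h) :=
  if A ∣ t + 1 then
    if hi : (t + 1) / A - 1 < B then Sum.inr (Sum.inr (Sum.inl (g, ⟨(t + 1) / A - 1, hi⟩, q)))
    else Sum.inl 1
  else if B ∣ t + 1 then
    if hj : (t + 1) / B - 1 < A then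
      Sum.inr (Sum.inr (Sum.inr (g, ⟨(t + 1) / B - 1, hj⟩, lastB hB q)))
    else Sum.inl 1
  else Sum.inl 1

/-- the entry of the last edge -/
def finE (hA : 1 ≤ A) (hB : B ≤ A) (g : Fin s) (q : Fin A → Fin h) :
    ℤ ⊕ (Fin s ⊕ YD s A B h) :=
  Sum.inr (Sum.inr (Sum.inr (g, ⟨A - 1, by omega⟩, lastB hB q)))

variable {R : Type} [CommRing R] (x : Fin s → R) (y : YD s A B h → R)

/-- the factors of a word -/
def Yw (y : YD s A B h → R) (g : Fin s) (w : Wg A B h) (i : ℕ) : R :=
  if hi : i < B then y (Sum.inl (g, ⟨i, hi⟩, ru A B h w ⟨i, hi⟩)) else 1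

/-- the factors of a word -/
def Zw (y : YD s A B h → R) (g : Fin s) (w : Wg A B h) (j : ℕ) : R :=
  if hj : j < A then y (Sum.inr (g, ⟨j, hj⟩, rv A B h w ⟨j, hj⟩)) else 1

theorem st_ru (d0 : Fin h) (w : Wg A B h) (i : ℕ) (hi : i < B) :
    st sh (fun _ => d0) (ext d0 w) (A * (i + 1)) = ru A B h w ⟨i, hi⟩ := by
  funext k
  have h1 : A * (i + 1) = i * A + A := by ring
  have h2 := dig_lt (⟨i, hi⟩ : Fin B) k
  rw [st_sh, if_pos (by omega)]
  have h3 : A * (i + 1) + k.val - A = i * A + k.val := by omega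
  rw [h3]
  unfold ext
  rw [dif_pos h2]
  rfl

theorem st_rv (hB : B ≤ A) (d0 : Fin h) (w : Wg A B h) (j : ℕ) (hj : j < A) :
    lastB hB (st sh (fun _ => d0) (ext d0 w) (B * (j + 1))) = rv A B h w ⟨j, hj⟩ := by
  funext k
  have h1 : B * (j + 1) = j * B + B := by ring
  have h2 := dig_lt' (⟨j, hj⟩ : Fin A) k
  unfold lastB
  rw [st_sh, if_pos (by simp only; omega)]
  have h3 : B * (j + 1) + (A - B + k.val) - A = j * B + k.val := by omega
  simp only [h3]
  unfold ext
  rw [dif_pos h2]
  rfl

theorem entry_wtE (hA : 1 ≤ A) (hB1 : 1 ≤ B) (hB : B ≤ A) (g : Fin s) (d0 : Fin h) (w : Wg A B h)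
    (t : ℕ) (ht : t < A * B) :
    entry x y (wtE hB g t (st sh (fun _ => d0) (ext d0 w) (t + 1))) =
      if A ∣ t + 1 then Yw y g w ((t + 1) / A - 1)
      else if B ∣ t + 1 then Zw y g w ((t + 1) / B - 1) else 1 := by
  unfold wtE
  by_cases h1 : A ∣ t + 1
  · rw [if_pos h1, if_pos h1]
    obtain ⟨c, hc⟩ := h1
    have hc0 : 1 ≤ c := by
      rcases Nat.eq_zero_or_pos c with h0 | h0
      · rw [h0] at hc; omega
      · exact h0
    have h3 : (t + 1) / A - 1 = c - 1 := by
      rw [hc, Nat.mul_div_cancel_left _ (by omega)]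
    have h4 : c - 1 < B := by
      have h5 : A * c ≤ A * B := by omega
      have h6 : c ≤ B := Nat.le_of_mul_le_mul_left h5 (by omega)
      omega
    have h7 : t + 1 = A * (c - 1 + 1) := by rw [Nat.sub_add_cancel hc0, hc]
    have h8 := st_ru d0 w (c - 1) h4
    rw [← h7] at h8
    unfold Yw
    simp only [h3, dif_pos h4]
    rw [h8]
    rfl
  · rw [if_neg h1, if_neg h1]
    by_cases h2 : B ∣ t + 1
    · rw [if_pos h2, if_pos h2]
      obtain ⟨c, hc⟩ := h2
      have hc0 : 1 ≤ c := by
        rcases Nat.eq_zero_or_pos c with h0 | h0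
        · rw [h0] at hc; omega
        · exact h0
      have h3 : (t + 1) / B - 1 = c - 1 := by
        rw [hc, Nat.mul_div_cancel_left _ (by omega)]
      have h4 : c - 1 < A := by
        have h5 : B * c ≤ B * A := by rw [mul_comm B A]; omega
        have h6 : c ≤ A := Nat.le_of_mul_le_mul_left h5 (by omega)
        omega
      have h7 : t + 1 = B * (c - 1 + 1) := by rw [Nat.sub_add_cancel hc0, hc]
      have h8 := st_rv hB d0 w (c - 1) h4
      rw [← h7] at h8
      unfold Zw
      simp only [h3, dif_pos h4]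
      rw [h8]
      rfl
    · rw [if_neg h2, if_neg h2]
      show ((1 : ℤ) : R) = 1
      exact Int.cast_one

theorem entry_finE (hA : 1 ≤ A) (hB : B ≤ A) (g : Fin s) (d0 : Fin h)
    (w : Wg A B h) :
    entry x y (finE hA hB g (st sh (fun _ => d0) (ext d0 w) (A * B))) = Zw y g w (A - 1) := by
  have h1 : A * B = B * (A - 1 + 1) := by rw [Nat.sub_add_cancel hA, mul_comm]
  have h2 := st_rv hB d0 w (A - 1) (by omega)
  rw [← h1] at h2
  unfold finE Zw
  rw [dif_pos (by omega), h2]
  rfl

/-- vertices of one group -/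
abbrev Kap (A B h : ℕ) : Type := Option (Fin (A * B) × (Fin A → Fin h))

/-- the matrix of one group -/
def FamG (hA : 1 ≤ A) (hB : B ≤ A) (d0 : Fin h) (g : Fin s) :
    Kap A B h → Kap A B h → ℤ ⊕ (Fin s ⊕ YD s A B h)
  | none, none => Sum.inr (Sum.inl g)
  | none, some j => if j.1.val = 0 ∧ ∃ d, sh (fun _ => d0) d = j.2 then wtE hB g 0 j.2
      else Sum.inl 0
  | some i, none => if i.1.val + 1 = A * B then finE hA hB g i.2 else Sum.inl 0
  | some i, some j => if i = j then Sum.inl 1
      else if j.1.val = i.1.val + 1 ∧ ∃ d, sh i.2 d = j.2 then wtE hB g j.1 j.2 else Sum.inl 0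

theorem perm_group (hA : 1 ≤ A) (hB1 : 1 ≤ B) (hB : B ≤ A) (hc : A.Coprime B) (d0 : Fin h)
    (g : Fin s) :
    (Matrix.of fun i j => entry x y (FamG hA hB d0 g i j)).permanent =
      x g + chain (ru A B h) (rv A B h) (fun i b => y (Sum.inl (g, i, b)))
        (fun j b => y (Sum.inr (g, j, b))) := by
  have h2 := perm_auto sh (sh_inj hA) d0 (A * B) (Nat.mul_pos hA hB1) (x g) (fun _ => d0)
    (fun t q => entry x y (wtE hB g t q)) (fun q => entry x y (finE hA hB g q))
  refine (congrArg Matrix.permanent ?_).trans (h2.trans ?_)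
  · refine Matrix.ext fun i j => ?_
    rcases i with _ | i <;> rcases j with _ | j
    · rfl
    · show entry x y (FamG hA hB d0 g none (some j)) = _
      by_cases hp : j.1.val = 0 ∧ ∃ d, sh (fun _ => d0) d = j.2
      · have e1 : FamG hA hB d0 g none (some j) = wtE hB g 0 j.2 := if_pos hp
        rw [e1]
        exact (if_pos hp).symm
      · have e1 : FamG hA hB d0 g none (some j) = Sum.inl 0 := if_neg hp
        rw [e1]
        exact (Int.cast_zero (R := R)).trans (if_neg hp).symm
    · show entry x y (FamG hA hB d0 g (some i) none) = _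
      by_cases hp : i.1.val + 1 = A * B
      · have e1 : FamG hA hB d0 g (some i) none = finE hA hB g i.2 := if_pos hp
        rw [e1]
        exact (if_pos hp).symm
      · have e1 : FamG hA hB d0 g (some i) none = Sum.inl 0 := if_neg hp
        rw [e1]
        exact (Int.cast_zero (R := R)).trans (if_neg hp).symm
    · show entry x y (FamG hA hB d0 g (some i) (some j)) = (if i = j then (1 : R) else 0) + _
      by_cases hij : i = j
      · have e1 : FamG hA hB d0 g (some i) (some j) = Sum.inl 1 := if_pos hij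
        rw [e1, if_pos hij]
        refine (Int.cast_one (R := R)).trans ?_
        rw [left_eq_add]
        refine if_neg ?_
        rintro ⟨h2, -⟩
        rw [hij] at h2
        omega
      · rw [if_neg hij, zero_add]
        by_cases hp : j.1.val = i.1.val + 1 ∧ ∃ d, sh i.2 d = j.2
        · have e1 : FamG hA hB d0 g (some i) (some j) = wtE hB g j.1 j.2 :=
            (if_neg hij).trans (if_pos hp)
          rw [e1]
          exact (if_pos hp).symm
        · have e1 : FamG hA hB d0 g (some i) (some j) = Sum.inl 0 :=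
            (if_neg hij).trans (if_neg hp)
          rw [e1]
          exact (Int.cast_zero (R := R)).trans (if_neg hp).symm
  congr 1
  unfold chain
  refine sum_congr rfl fun w _ => ?_
  rw [entry_finE x y hA hB, prod_congr rfl fun (t : Fin (A * B)) _ =>
    entry_wtE x y hA hB1 hB g d0 w t t.isLt,
    ← Finset.prod_range (fun t => if A ∣ t + 1 then Yw y g w ((t + 1) / A - 1)
      else if B ∣ t + 1 then Zw y g w ((t + 1) / B - 1) else 1),
    prod_weights hA hB1 hc, Finset.prod_range, Finset.prod_range]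
  congr 1
  · refine prod_congr rfl fun i _ => ?_
    unfold Yw
    rw [dif_pos i.isLt]
  · refine prod_congr rfl fun j _ => ?_
    unfold Zw
    rw [dif_pos j.isLt]

/-- the whole family -/
def FamS (hA : 1 ≤ A) (hB : B ≤ A) (d0 : Fin h) (s p : ℕ) :
    (Fin s × Kap A B h) ⊕ Fin p → (Fin s × Kap A B h) ⊕ Fin p → ℤ ⊕ (Fin s ⊕ YD s A B h)
  | Sum.inl i, Sum.inl j => if i.1 = j.1 then FamG hA hB d0 i.1 i.2 j.2 else Sum.inl 0
  | Sum.inr i, Sum.inr j => if i = j then Sum.inl 1 else Sum.inl 0
  | _, _ => Sum.inl 0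

theorem perm_FamS (hA : 1 ≤ A) (hB1 : 1 ≤ B) (hB : B ≤ A) (hc : A.Coprime B) (d0 : Fin h)
    (p : ℕ) :
    (Matrix.of fun i j => entry x y (FamS hA hB d0 s p i j)).permanent =
      ∏ g, (x g + chain (ru A B h) (rv A B h) (fun i b => y (Sum.inl (g, i, b)))
        (fun j b => y (Sum.inr (g, j, b)))) := by
  have h1 : ∏ g, (x g + chain (ru A B h) (rv A B h) (fun i b => y (Sum.inl (g, i, b)))
      (fun j b => y (Sum.inr (g, j, b)))) =
      ∏ g, (Matrix.of fun i j => entry x y (FamG hA hB d0 g i j)).permanent :=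
    prod_congr rfl fun g _ => (perm_group x y hA hB1 hB hc d0 g).symm
  rw [h1, ← perm_block fun g : Fin s =>
    (Matrix.of fun i j => entry x y (FamG hA hB d0 g i j) : Matrix (Kap A B h) (Kap A B h) R)]
  refine Eq.trans ?_ (perm_pad (R := R) (δ := Fin p) _)
  refine congrArg Matrix.permanent (Matrix.ext fun i j => ?_)
  rcases i with i | i <;> rcases j with j | j
  · show entry x y (if _ then _ else _) = if _ then _ else _
    split_ifs
    · rfl
    · show ((0 : ℤ) : R) = 0
      exact Int.cast_zero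
  · show ((0 : ℤ) : R) = 0
    exact Int.cast_zero
  · show ((0 : ℤ) : R) = 0
    exact Int.cast_zero
  · show entry x y (if _ then _ else _) = if _ then _ else _
    split_ifs
    · show ((1 : ℤ) : R) = 1
      exact Int.cast_one
    · show ((0 : ℤ) : R) = 0
      exact Int.cast_zero

end Group

/-- **ROW P** (for coprime `A`, `B`) -/
theorem rowP (A B h s n : ℕ) (hA : 1 ≤ A) (hB1 : 1 ≤ B) (hB : B ≤ A) (hc : A.Coprime B)
    (hh : 1 ≤ h) (hn : s * (A * B * h ^ A + 1) ≤ n) :
    ∃ Fam : Fin n → Fin n → ℤ ⊕ (Fin s ⊕ YD s A B h),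
      ∀ (R : Type) [CommRing R] (x : Fin s → R) (y : YD s A B h → R),
        (Matrix.of fun i j => entry x y (Fam i j)).permanent =
          ∏ g, (x g + chain (ru A B h) (rv A B h) (fun i b => y (Sum.inl (g, i, b)))
            (fun j b => y (Sum.inr (g, j, b)))) := by
  obtain ⟨p, rfl⟩ := Nat.exists_eq_add_of_le hn
  let d0 : Fin h := ⟨0, by omega⟩
  have hcard : Fintype.card ((Fin s × Kap A B h) ⊕ Fin p) = s * (A * B * h ^ A + 1) + p := by
    simp [Fintype.card_sum, Fintype.card_prod, Fintype.card_option]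
  let e : Fin (s * (A * B * h ^ A + 1) + p) ≃ (Fin s × Kap A B h) ⊕ Fin p :=
    (Fintype.equivFinOfCardEq hcard).symm
  refine ⟨fun i j => FamS hA hB d0 s p (e i) (e j), fun R _ x y => ?_⟩
  rw [← perm_FamS x y hA hB1 hB hc d0 p]
  exact permanent_reindex e e (Matrix.of fun i j => entry x y (FamS hA hB d0 s p i j))

end Pool.MCD
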