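import Pool.Agent.Helper98.CD.Numbers
import Pool.Agent.CDep.Params
import Pool.Agent.CDep.Machine
import Pool.Agent.CDep.FinalNum

/-!
# Multiples of the permanent at constant depth: numbers (row N)
-/

set_option autoImplicit false

namespace Pool.MCD

open Pool.Helper98.CD

theorem cf_coprime {σ : ℕ} (j : ℕ) : Nat.Coprime (cf σ (j + 1)).2 (cf σ (j + 1)).1 := by
  have h := det_sq (σ := σ) j
  rw [← Nat.isCoprime_iff_coprime]
  refine ⟨(((cf σ (j + 1)).2 : ℤ) * (cf σ j).1 - (cf σ (j + 1)).1 * (cf σ j).2) * (cf σ j).1,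
    -((((cf σ (j + 1)).2 : ℤ) * (cf σ j).1 - (cf σ (j + 1)).1 * (cf σ j).2) * (cf σ j).2), ?_⟩
  rw [← h]
  ring

/-- ROW C with coprime numbers and separate bounds -/
theorem cf_numbers2 (L σ : ℕ) (hL : 1 ≤ L) (hσ : 1 ≤ σ) :
    ∃ (A B s : ℕ) (c : ℕ → ℝ) (τ : ℕ → ℕ), 1 ≤ s ∧ 1 ≤ B ∧ B ≤ A ∧ A ≤ 2 * B ∧
      (∀ i, 1 ≤ i → i ≤ L → ∀ b e : ℕ, 1 ≤ b + e → b + e ≤ τ i →
        2 * c i * (b + e) ≤ |(A : ℝ) * b - B * e|) ∧
      (σ : ℝ) * B ≤ τ 1 * (B / 4) ∧ c 1 ≤ (B : ℝ) / 8 ∧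
      (∀ i, 1 ≤ i → i + 1 ≤ L → (σ : ℝ) * B ≤ τ (i + 1) * (c i / 2) ∧ c (i + 1) ≤ c i / 4) ∧
      c L = 1 / (4 * s) ∧ Nat.Coprime A B ∧ s ≤ A ∧
      A ≤ 2 * (18 * σ) ^ (Nat.fib (L + 2) - 1) ∧
      (8 * σ) ^ (Nat.fib (L + 2) - 1) ≤ 3 * B := by
  have hBpos : ∀ j, (0 : ℝ) < ((cf σ (j + 1)).1 : ℝ) := fun j => by
    exact_mod_cast fst_pos hσ j
  have hSpos : ∀ j, (0 : ℝ) < (cs σ j : ℝ) := fun j => by
    exact_mod_cast cs_pos (σ := σ) j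
  have hσ' : (1 : ℝ) ≤ σ := by exact_mod_cast hσ
  refine ⟨(cf σ (L + 1)).2, (cf σ (L + 1)).1, cs σ L,
    fun i => ((cf σ (L + 1)).1 : ℝ) / (4 * (cf σ (i + 1)).1 * cs σ i),
    fun i => cs σ (i + 1) / 2, cs_pos L, fst_pos hσ L, fst_le_snd _, snd_le hσ L, ?_, ?_, ?_, ?_,
    ?_, ?_, ?_, ?_, ?_⟩
  · intro i hi hiL b e _ hbe
    have hbe' : b + e ≤ cs σ (i + 1) / 2 := hbe
    have h1 := imbalance hσ (L + 1) i (by omega) b e (by omega)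
    have h2 : ((cf σ (L + 1)).1 : ℝ) * (b + e) ≤ 2 * (cf σ (i + 1)).1 * cs σ i *
        |((cf σ (L + 1)).2 : ℝ) * b - (cf σ (L + 1)).1 * e| := by exact_mod_cast h1
    have h3 := hBpos i
    have h4 := hSpos i
    have h5 : 2 * (((cf σ (L + 1)).1 : ℝ) / (4 * (cf σ (i + 1)).1 * cs σ i)) * (b + e) =
        (((cf σ (L + 1)).1 : ℝ) * (b + e)) / (2 * (cf σ (i + 1)).1 * cs σ i) := by
      field_simp
      ring
    rw [h5, div_le_iff₀ (by positivity)]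
    linarith
  · have h0 : cs σ 2 = 16 * σ + 1 := by
      rw [cs_succ]
      simp [cs, cf]
      ring
    have h1 : (8 * σ : ℕ) = cs σ (1 + 1) / 2 := by
      rw [show 1 + 1 = 2 from rfl, h0]
      omega
    change (σ : ℝ) * ((cf σ (L + 1)).1 : ℝ) ≤ ((cs σ (1 + 1) / 2 : ℕ) : ℝ) *
      (((cf σ (L + 1)).1 : ℝ) / 4)
    rw [← h1]
    push_cast
    have := hBpos L
    nlinarith
  · change ((cf σ (L + 1)).1 : ℝ) / (4 * (cf σ (1 + 1)).1 * cs σ 1) ≤ _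
    have h0 : (cs σ 1 : ℝ) = 2 := by
      have : cs σ 1 = 2 := by simp [cs, cf]
      rw [this]
      norm_num
    have h1 : (1 : ℝ) ≤ ((cf σ (1 + 1)).1 : ℝ) := by exact_mod_cast fst_pos hσ 1
    rw [h0]
    apply div_le_div_of_nonneg_left (hBpos L).le (by norm_num)
    linarith
  · intro i hi hiL
    have h3 := hBpos i
    have h4 := hSpos i
    have h5 := hBpos (i + 1)
    have h6 := hSpos (i + 1)
    have h7 := hBpos L
    have h8 : 8 * (σ : ℝ) * cs σ i * (cf σ (i + 1)).1 ≤ (cf σ (i + 2)).1 := by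
      exact_mod_cast fst_step (σ := σ) i
    constructor
    · have h9 : (cf σ (i + 2)).1 ≤ cs σ (i + 2) / 2 := by
        have := fst_le_snd (σ := σ) (i + 2)
        rw [cs]
        omega
      have h10 : ((cf σ (i + 2)).1 : ℝ) ≤ ((cs σ (i + 2) / 2 : ℕ) : ℝ) := by exact_mod_cast h9
      change (σ : ℝ) * ((cf σ (L + 1)).1 : ℝ) ≤ ((cs σ (i + 1 + 1) / 2 : ℕ) : ℝ) *
        (((cf σ (L + 1)).1 : ℝ) / (4 * (cf σ (i + 1)).1 * cs σ i) / 2)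
      calc (σ : ℝ) * ((cf σ (L + 1)).1 : ℝ) = (8 * (σ : ℝ) * cs σ i * (cf σ (i + 1)).1) *
            (((cf σ (L + 1)).1 : ℝ) / (4 * (cf σ (i + 1)).1 * cs σ i) / 2) := by
              field_simp
              ring
        _ ≤ _ := by
              refine mul_le_mul_of_nonneg_right (h8.trans h10) (by positivity)
    · change ((cf σ (L + 1)).1 : ℝ) / (4 * (cf σ (i + 1 + 1)).1 * cs σ (i + 1)) ≤
        ((cf σ (L + 1)).1 : ℝ) / (4 * (cf σ (i + 1)).1 * cs σ i) / 4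
      rw [div_div]
      apply div_le_div_of_nonneg_left h7.le (by positivity)
      have h11 : (1 : ℝ) ≤ cs σ (i + 1) := by exact_mod_cast cs_pos (σ := σ) (i + 1)
      have h12 : 4 * ((cf σ (i + 1)).1 : ℝ) * cs σ i * 4 ≤ 4 * (cf σ (i + 2)).1 := by
        have h13 : (cs σ i : ℝ) * (cf σ (i + 1)).1 ≤ (σ : ℝ) * (cs σ i * (cf σ (i + 1)).1) :=
          le_mul_of_one_le_left (by positivity) hσ'
        nlinarith
      calc 4 * ((cf σ (i + 1)).1 : ℝ) * cs σ i * 4 ≤ 4 * (cf σ (i + 2)).1 := h12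
        _ ≤ 4 * (cf σ (i + 2)).1 * cs σ (i + 1) := le_mul_of_one_le_right (by positivity) h11
  · change ((cf σ (L + 1)).1 : ℝ) / (4 * (cf σ (L + 1)).1 * cs σ L) = _
    have h3 := hBpos L
    have h4 := hSpos L
    field_simp
  · exact cf_coprime L
  · obtain ⟨l, rfl⟩ : ∃ l, L = l + 1 := ⟨L - 1, by omega⟩
    have h1 := fst_le_snd (σ := σ) (l + 1)
    have h2 := cs_pos (σ := σ) l
    rw [cf_snd, cs]
    have h3 : 8 * σ * cs σ l * (cf σ (l + 1)).2 = (cf σ (l + 1)).2 * (8 * σ * cs σ l) := by ring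
    have h4 : 8 ≤ 8 * σ * cs σ l := by
      calc 8 = 8 * 1 * 1 := by norm_num
        _ ≤ 8 * σ * cs σ l := Nat.mul_le_mul (Nat.mul_le_mul_left _ hσ) h2
    have h5 : (cf σ (l + 1)).2 * 8 ≤ (cf σ (l + 1)).2 * (8 * σ * cs σ l) :=
      Nat.mul_le_mul_left _ h4
    rw [h3]
    omega
  · have h2 := cs_le hσ (L + 1)
    have h3 : (cf σ (L + 1)).2 ≤ cs σ (L + 1) := Nat.le_add_left _ _
    exact h3.trans h2
  · have h2 := le_cs (σ := σ) (L + 1)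
    have h3 : cs σ (L + 1) ≤ 3 * (cf σ (L + 1)).1 := by
      have := snd_le hσ L
      rw [cs]
      omega
    exact h2.trans h3


/-- the exponent of the final bound -/
noncomputable def etaM (k : ℕ) : ℝ := 1 / (((2 * Nat.fib (2 * k + 3) : ℕ) : ℝ) - 1)

open Pool.CD Pool.CDep in
/-- the parameters of the groups -/
theorem mcd_numbers (k : ℕ) : ∃ C : ℝ, 0 < C ∧ ∀ S w w0 : ℕ, 2 ≤ S → 1 ≤ w → w ≤ S → 1 ≤ w0 →
    ∃ (A B m : ℕ) (X Y : ℕ → ℝ) (c : ℝ), 1 ≤ B ∧ B ≤ A ∧ Nat.Coprime A B ∧ A + B + 4 ≤ m ∧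
      Grw w0 w S (((2 ^ m : ℕ) : ℝ) ^ A) (((2 ^ m : ℕ) : ℝ) ^ B) (2 * k + 1) X Y ∧ 16 ≤ c ∧
      X (2 * k + 1) = (2 : ℝ) ^ (((m * A : ℕ) : ℝ) / 2 - c) ∧
      Y (2 * k + 1) = (2 : ℝ) ^ (((m * B : ℕ) : ℝ) / 2 - c) ∧
      ((m * A : ℕ) : ℝ) ≤ C * (Real.log S ^ (1 - etaM k) * Real.log (2 * w) ^ etaM k +
        Real.log w0) := by
  have hfib : 2 ≤ Nat.fib (2 * k + 3) := by
    have h1 : Nat.fib 3 ≤ Nat.fib (2 * k + 3) := Nat.fib_mono (by omega)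
    exact h1
  obtain ⟨C, hC, hpar⟩ := final_params (2 * Nat.fib (2 * k + 3)) (by omega)
  refine ⟨6 * C, by positivity, ?_⟩
  intro S w w0 hS hw hwS hw0
  obtain ⟨σ, ω, μ, hσ, hω, hμ, hwω, hSp, hw0p, hfin⟩ := hpar S w w0 hS hw hwS hw0
  obtain ⟨A, B, s, c0, τ, hs, hB, hBA, hA2, h1, h2, h3, h4, h5, h6, h7, h8, h9⟩ :=
    cf_numbers2 (2 * k + 1) σ (by omega) hσ
  rw [show 2 * k + 1 + 2 = 2 * k + 3 by ring] at h8 h9
  have hpow : ∀ x : ℕ, x ^ (2 * Nat.fib (2 * k + 3) - 2) =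
      x ^ (Nat.fib (2 * k + 3) - 1) * x ^ (Nat.fib (2 * k + 3) - 1) := by
    intro x
    rw [← pow_add]
    congr 1
    omega
  rw [hpow] at hSp hw0p
  set q : ℕ := 3 * (B / s + 1) with hq
  have hsq : 3 * B ≤ s * q := by
    have e1 := Nat.div_add_mod B s
    have e2 := Nat.mod_lt B (show 0 < s by omega)
    have e3 : s * q = 3 * (s * (B / s) + s) := by rw [hq]; ring
    omega
  have hsq' : s * q ≤ 6 * A := by
    have e1 := Nat.mul_div_le B s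
    have e3 : s * q = 3 * (s * (B / s) + s) := by rw [hq]; ring
    omega
  have hq1 : 1 ≤ q := by
    rw [hq]
    exact Nat.mul_pos (by norm_num) (Nat.succ_pos _)
  have hμq : 1 ≤ μ * q := Nat.mul_pos hμ hq1
  clear_value q
  -- the powers
  have hP : (8 * σ) ^ (Nat.fib (2 * k + 3) - 1) * (8 * σ) ^ (Nat.fib (2 * k + 3) - 1) ≤
      q * (3 * (s * B)) := by
    calc (8 * σ) ^ (Nat.fib (2 * k + 3) - 1) * (8 * σ) ^ (Nat.fib (2 * k + 3) - 1) ≤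
          (3 * B) * (3 * B) := Nat.mul_le_mul h9 h9
      _ ≤ (3 * B) * (s * q) := Nat.mul_le_mul_left _ hsq
      _ = q * (3 * (s * B)) := by ring
  have hS' : S ≤ 2 ^ (5 * σ * ω * (μ * q) * (3 * (s * B))) := by
    refine hSp.trans (Nat.pow_le_pow_right (by norm_num) ?_)
    calc 5 * σ * ω * μ * ((8 * σ) ^ (Nat.fib (2 * k + 3) - 1) *
          (8 * σ) ^ (Nat.fib (2 * k + 3) - 1)) ≤ 5 * σ * ω * μ * (q * (3 * (s * B))) :=
          Nat.mul_le_mul_left _ hP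
      _ = _ := by ring
  have hw0' : (16 * w0) ^ 8 ≤ 2 ^ (5 * ω * (μ * q) * (3 * (s * B))) := by
    refine hw0p.trans (Nat.pow_le_pow_right (by norm_num) ?_)
    calc 5 * ω * μ * ((8 * σ) ^ (Nat.fib (2 * k + 3) - 1) *
          (8 * σ) ^ (Nat.fib (2 * k + 3) - 1)) ≤ 5 * ω * μ * (q * (3 * (s * B))) :=
          Nat.mul_le_mul_left _ hP
      _ = _ := by ring
  obtain ⟨c, hc, hX1, hY1, hN1, hstep⟩ := growth_exists (2 * k + 1) σ ω (μ * q) A B s S w w0 c0 τ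
    (by omega) hσ hω hμq hs hB hBA h1 h2 h3 h4 h5 hw hwω _ le_rfl hS' hw0'
  set m : ℕ := 16 * s * ω * (μ * q) with hm
  clear_value m
  have hω4 : 4 ≤ ω := by
    by_contra hcon
    have e1 : 2 ^ ω ≤ 2 ^ 3 := Nat.pow_le_pow_right (by norm_num) (by omega)
    omega
  have hcast : ∀ D : ℕ, ((2 ^ m : ℕ) : ℝ) ^ D = (2 : ℝ) ^ (m * D) := by
    intro D
    push_cast
    rw [pow_mul]
  refine ⟨A, B, m, fun i => (2 : ℝ) ^ (((m * A : ℕ) : ℝ) / 2 - c i),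
    fun i => (2 : ℝ) ^ (((m * B : ℕ) : ℝ) / 2 - c i), c (2 * k + 1), hB, hBA, h6, ?_, ?_, ?_, rfl,
    rfl, ?_⟩
  · have e1 : 16 * (3 * B) ≤ m := by
      calc 16 * (3 * B) = 16 * (3 * B) * 1 * 1 := by ring
        _ ≤ 16 * (s * q) * ω * μ :=
          Nat.mul_le_mul (Nat.mul_le_mul (Nat.mul_le_mul_left _ hsq) hω) hμ
        _ = m := by rw [hm]; ring
    omega
  · rw [hcast, hcast]
    exact ⟨hX1, hY1, hN1, fun i hi hiL => (hstep i hi hiL).1, fun i hi hiL => (hstep i hi hiL).2.1,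
      fun i hi hiL => (hstep i hi hiL).2.2.1, fun i hi hiL => (hstep i hi hiL).2.2.2⟩
  · have e1 := hc (2 * k + 1) (by omega) le_rfl
    have e2 : (4 : ℝ) ≤ ω := by exact_mod_cast hω4
    linarith
  · have e1 : m * A ≤ 6 * (64 * ω * μ * (18 * σ) ^ (2 * Nat.fib (2 * k + 3) - 2)) := by
      rw [hpow]
      generalize (18 * σ) ^ (Nat.fib (2 * k + 3) - 1) = x at h8
      calc m * A = 16 * ω * μ * (s * q) * A := by rw [hm]; ring
        _ ≤ 16 * ω * μ * (6 * A) * A := by gcongr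
        _ = 96 * ω * μ * (A * A) := by ring
        _ ≤ 96 * ω * μ * ((2 * x) * (2 * x)) :=
            Nat.mul_le_mul_left _ (Nat.mul_le_mul h8 h8)
        _ = _ := by ring
    have e2 : ((m * A : ℕ) : ℝ) ≤ 6 * ((64 * ω * μ * (18 * σ) ^ (2 * Nat.fib (2 * k + 3) - 2) : ℕ) : ℝ) := by
      exact_mod_cast e1
    refine e2.trans ?_
    have e3 := mul_le_mul_of_nonneg_left hfin (show (0 : ℝ) ≤ 6 by norm_num)
    refine e3.trans (le_of_eq ?_)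
    unfold etaM
    ring

/-- number of dual pairs, from below -/
theorem kk_ge (A B m : ℕ) : (2 : ℝ) ^ (m * (A * B)) ≤ 2 * (((2 ^ m : ℕ) ^ (A * B) + 1) / 2 : ℕ) := by
  have h1 : 2 ^ (m * (A * B)) ≤ 2 * (((2 ^ m) ^ (A * B) + 1) / 2) := by
    rw [← pow_mul]
    omega
  exact_mod_cast h1

open Pool.CD in
/-- from the rank inequality to the number of summands -/
theorem mcd_count {A B m s T : ℕ} {c : ℝ} (hc : 16 ≤ c) (hA : 1 ≤ A)
    (h : ((((2 ^ m : ℕ) ^ (A * B) + 1) / 2 : ℕ) : ℝ) ^ s ≤ 2 ^ (s * B + s * A) *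
      (T * (4 ^ (s * B + s * A) * ((2 : ℝ) ^ (((m * A : ℕ) : ℝ) / 2 - c)) ^ (s * B) *
        ((2 : ℝ) ^ (((m * B : ℕ) : ℝ) / 2 - c)) ^ (s * A)))) : (2 : ℝ) ^ s ≤ T := by
  have h0 : ((2 : ℝ) ^ (m * (A * B))) ^ s ≤ 2 ^ s *
      ((((2 ^ m : ℕ) ^ (A * B) + 1) / 2 : ℕ) : ℝ) ^ s := by
    rw [← mul_pow]
    exact pow_le_pow_left₀ (by positivity) (kk_ge A B m) s
  have h1 : (2 : ℝ) ^ (s * B + s * A) *
      (T * (4 ^ (s * B + s * A) * ((2 : ℝ) ^ (((m * A : ℕ) : ℝ) / 2 - c)) ^ (s * B) *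
        ((2 : ℝ) ^ (((m * B : ℕ) : ℝ) / 2 - c)) ^ (s * A))) =
      T * (2 : ℝ) ^ ((((m * (A * B)) * s : ℕ) : ℝ) + (3 - c) * (s * B + s * A)) := by
    have e1 : (2 : ℝ) ^ (s * B + s * A) *
      (T * (4 ^ (s * B + s * A) * ((2 : ℝ) ^ (((m * A : ℕ) : ℝ) / 2 - c)) ^ (s * B) *
        ((2 : ℝ) ^ (((m * B : ℕ) : ℝ) / 2 - c)) ^ (s * A))) = T * (((2 : ℝ) ^ (3 : ℕ)) ^ (s * B + s * A) *
        (((2 : ℝ) ^ (((m * A : ℕ) : ℝ) / 2 - c)) ^ (s * B) *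
          ((2 : ℝ) ^ (((m * B : ℕ) : ℝ) / 2 - c)) ^ (s * A))) := by
      have : ((2 : ℝ) ^ (3 : ℕ)) ^ (s * B + s * A) = 2 ^ (s * B + s * A) * 4 ^ (s * B + s * A) := by
        rw [← mul_pow]; norm_num
      rw [this]
      ring
    rw [e1, two_rpow_mul]
    have e2 : ((2 : ℝ) ^ (3 : ℕ)) ^ (s * B + s * A) = (2 : ℝ) ^ ((3 : ℝ) * (s * B + s * A)) := by
      rw [← pow_mul, ← Real.rpow_natCast]
      congr 1
      push_cast
      ring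
    rw [e2, ← Real.rpow_add (by norm_num)]
    congr 2
    push_cast
    ring
  rw [h1, Real.rpow_add (by norm_num), Real.rpow_natCast, pow_mul (2 : ℝ) (m * (A * B)) s] at h
  set Z : ℝ := ((2 : ℝ) ^ (m * (A * B))) ^ s with hZ
  have hZ0 : 0 < Z := by positivity
  have h2 : Z * 1 ≤ Z * (2 ^ s * (T * (2 : ℝ) ^ ((3 - c) * (s * B + s * A)))) := by
    calc Z * 1 = Z := mul_one _
      _ ≤ _ := h0
      _ ≤ 2 ^ s * (T * (Z * (2 : ℝ) ^ ((3 - c) * (s * B + s * A)))) :=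
        mul_le_mul_of_nonneg_left h (by positivity)
      _ = _ := by ring
  have h4 := le_of_mul_le_mul_left h2 hZ0
  have h5 : (2 : ℝ) ^ ((3 - c) * ((s : ℝ) * B + s * A)) ≤ (2 : ℝ) ^ (-(2 * (s : ℝ))) := by
    apply Real.rpow_le_rpow_of_exponent_le (by norm_num)
    have e0 : (0 : ℝ) ≤ (s : ℝ) := Nat.cast_nonneg _
    have e1 : (0 : ℝ) ≤ (s : ℝ) * B := by positivity
    have e2 : (s : ℝ) * 1 ≤ (s : ℝ) * A :=
      mul_le_mul_of_nonneg_left (by exact_mod_cast hA) e0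
    nlinarith
  have h6 : (1 : ℝ) ≤ 2 ^ s * (T * (2 : ℝ) ^ (-(2 * (s : ℝ)))) := by
    refine h4.trans ?_
    gcongr
  have h7 : (2 : ℝ) ^ (-(2 * (s : ℝ))) = ((2 : ℝ) ^ s)⁻¹ * ((2 : ℝ) ^ s)⁻¹ := by
    rw [Real.rpow_neg (by norm_num), ← mul_inv, ← pow_add, ← Real.rpow_natCast]
    congr 2
    push_cast
    ring
  rw [h7] at h6
  have h8 : (0 : ℝ) < 2 ^ s := by positivity
  have h9 : (2 : ℝ) ^ s * (T * (((2 : ℝ) ^ s)⁻¹ * ((2 : ℝ) ^ s)⁻¹)) = T / 2 ^ s := by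
    field_simp
  rw [h9, le_div_iff₀ h8, one_mul] at h6
  exact h6

/-- the size of the gadget -/
theorem mcd_size {A B m n t : ℕ} (hBA : B ≤ A) (hm : 2 ≤ m)
    (ht : t = n / 2 ^ (2 * (m * A) + 4)) : t * ((A * B + 3) * ((2 ^ m) ^ A + 1)) ≤ n := by
  have h1 : (A * B + 3) * ((2 ^ m) ^ A + 1) ≤ 2 ^ (2 * (m * A) + 4) := by
    have e1 : A < 2 ^ A := Nat.lt_two_pow_self
    have e2 : (2 ^ A) * (2 ^ A) ≤ 2 ^ (m * A) := by
      rw [← pow_add]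
      apply Nat.pow_le_pow_right (by norm_num)
      calc A + A = 2 * A := by ring
        _ ≤ m * A := Nat.mul_le_mul_right _ hm
    have e3 : A * B ≤ 2 ^ (m * A) :=
      (Nat.mul_le_mul e1.le (hBA.trans e1.le)).trans e2
    have e4 : 1 ≤ 2 ^ (m * A) := Nat.one_le_two_pow
    have e5 : A * B + 3 ≤ 4 * 2 ^ (m * A) := by omega
    have e6 : (2 ^ m) ^ A + 1 ≤ 2 * 2 ^ (m * A) := by rw [← pow_mul]; omega
    calc (A * B + 3) * ((2 ^ m) ^ A + 1) ≤ (4 * 2 ^ (m * A)) * (2 * 2 ^ (m * A)) :=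
          Nat.mul_le_mul e5 e6
      _ = 8 * (2 ^ (m * A) * 2 ^ (m * A)) := by ring
      _ ≤ 16 * (2 ^ (m * A) * 2 ^ (m * A)) := Nat.mul_le_mul_right _ (by norm_num)
      _ = 2 ^ (2 * (m * A) + 4) := by rw [pow_add, two_mul, pow_add]; ring
  rw [ht]
  exact (Nat.mul_le_mul_left _ h1).trans (Nat.div_mul_le_self _ _)

open Pool.CD Pool.CDep in
/-- **ROW N**: the final bound from the rank inequality for every admissible number `s` of groups -/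
theorem mcd_final (k : ℕ) : ∃ C : ℝ, 0 < C ∧ ∀ S w w0 : ℕ, 2 ≤ S → 1 ≤ w → w ≤ S → 1 ≤ w0 →
    ∃ (A B m : ℕ) (X Y : ℕ → ℝ), 1 ≤ B ∧ B ≤ A ∧ Nat.Coprime A B ∧
      2 ^ (A + B + 4) ≤ 2 ^ m ∧
      Grw w0 w S (((2 ^ m : ℕ) : ℝ) ^ A) (((2 ^ m : ℕ) : ℝ) ^ B) (2 * k + 1) X Y ∧
      ∀ n T : ℕ, 1 ≤ T →
        (∀ s : ℕ, 1 ≤ s → s * ((A * B + 3) * ((2 ^ m) ^ A + 1)) ≤ n →
          ((((2 ^ m : ℕ) ^ (A * B) + 1) / 2 : ℕ) : ℝ) ^ s ≤ 2 ^ (s * B + s * A) *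
            (T * (4 ^ (s * B + s * A) * X (2 * k + 1) ^ (s * B) * Y (2 * k + 1) ^ (s * A)))) →
        n * Real.exp (-(C * (Real.log S ^ (1 - etaM k) * Real.log (2 * w) ^ etaM k +
          Real.log w0))) ≤ C * Real.log (2 * T) := by
  obtain ⟨C', hC', hnum⟩ := mcd_numbers k
  refine ⟨max 24 (2 * C'), lt_of_lt_of_le (by norm_num) (le_max_left _ _), ?_⟩
  intro S w w0 hS hw hwS hw0
  obtain ⟨A, B, m, X, Y, c, hB, hBA, hco, hm, hG, hc, hX, hY, hle⟩ := hnum S w w0 hS hw hwS hw0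
  refine ⟨A, B, m, X, Y, hB, hBA, hco, Nat.pow_le_pow_right (by norm_num) hm, hG, ?_⟩
  intro n T hT hs
  have hG0 : 0 ≤ Real.log S ^ (1 - etaM k) * Real.log (2 * w) ^ etaM k + Real.log w0 := by
    have e1 : 0 ≤ Real.log S := Real.log_natCast_nonneg S
    have e2 : (1 : ℝ) ≤ w := by exact_mod_cast hw
    have e3 : 0 ≤ Real.log (2 * w) := Real.log_nonneg (by linarith)
    have e4 : 0 ≤ Real.log w0 := Real.log_natCast_nonneg w0
    positivity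
  apply log_final hC' hG0 hle
  set t := n / 2 ^ (2 * (m * A) + 4) with ht
  rcases Nat.eq_zero_or_pos t with ht0 | htpos
  · rw [ht0, pow_zero]
    exact_mod_cast hT
  · have h1 := hs t htpos (mcd_size hBA (by omega) ht)
    rw [hX, hY] at h1
    exact mcd_count hc (by omega) h1

end Pool.MCD
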