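import Mathlib

/-!
# MCD: reduction from the nonzero multiples of a polynomial to the multiples of its restriction

`ψ` is a substitution with `aeval ψ P ≠ 0`.  If `G ≠ 0` is a multiple of `P`, then the restriction of
`G` to the substitution may vanish, but the first coefficient of `G` at `ψ + η X1` (in powers of `η`)
is a nonzero multiple `G0` of `aeval ψ P`, and regular matrices of linear functionals of `G0` remain
regular for `G` at `ψ + η X1` for some `η`.
-/

set_option autoImplicit false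

namespace Pool.MCD

open Polynomial

section Det

variable {K : Type} [Field K] [Infinite K] {κ : Type} [Fintype κ] [DecidableEq κ]

/-- a polynomial family of matrices which is regular at `0` is regular at some other point -/
theorem exists_det_ne_zero (M : Matrix κ κ K[X]) (h : (M.map (eval 0)).det ≠ 0) :
    ∃ η : K, η ≠ 0 ∧ (M.map (eval η)).det ≠ 0 := by
  have h1 : ∀ η : K, (M.map (eval η)).det = eval η M.det := fun η => by
    have := (RingHom.map_det (evalRingHom η) M).symm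
    simpa [RingHom.mapMatrix_apply] using this
  rw [h1] at h
  have h2 : M.det * X ≠ 0 := mul_ne_zero (fun h0 => h (by rw [h0, eval_zero])) X_ne_zero
  obtain ⟨η, hη⟩ : ∃ η : K, eval η (M.det * X) ≠ 0 := by
    by_contra hcon
    push Not at hcon
    exact h2 (Polynomial.funext fun η => by rw [hcon, eval_zero])
  rw [eval_mul, eval_X] at hη
  exact ⟨η, right_ne_zero_of_mul hη, by rw [h1]; exact left_ne_zero_of_mul hη⟩

end Det

section Red

variable {K : Type} [Field K] {ι τ : Type}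

/-- the substitution `ψ + η X1`, `η` a variable -/
noncomputable def Theta (ψ : ι → MvPolynomial τ K) (X1 : ι → K) :
    MvPolynomial ι K →ₐ[K] (MvPolynomial τ K)[X] :=
  MvPolynomial.aeval fun i => C (ψ i) + X * C (MvPolynomial.C (X1 i))

/-- evaluation of `η` -/
noncomputable def evη (τ : Type) (η : K) : (MvPolynomial τ K)[X] →ₐ[K] MvPolynomial τ K :=
  (Polynomial.aeval (R := MvPolynomial τ K) (MvPolynomial.C η)).restrictScalars K

theorem evη_apply (η : K) (F : (MvPolynomial τ K)[X]) :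
    evη τ η F = eval (MvPolynomial.C η) F := by
  simp [evη, Polynomial.coe_aeval_eq_eval]

theorem evη_Theta (ψ : ι → MvPolynomial τ K) (X1 : ι → K) (η : K) (G : MvPolynomial ι K) :
    evη τ η (Theta ψ X1 G) =
      MvPolynomial.aeval (fun i => ψ i + MvPolynomial.C (η * X1 i)) G := by
  have : (evη τ η).comp (Theta ψ X1) =
      MvPolynomial.aeval (fun i => ψ i + MvPolynomial.C (η * X1 i)) := by
    refine MvPolynomial.algHom_ext fun i => ?_
    rw [AlgHom.comp_apply, Theta, MvPolynomial.aeval_X, MvPolynomial.aeval_X, evη_apply]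
    simp only [eval_add, eval_mul, eval_C, eval_X, MvPolynomial.C_mul]
  exact DFunLike.congr_fun this G

theorem coeff_zero_Theta (ψ : ι → MvPolynomial τ K) (X1 : ι → K) (G : MvPolynomial ι K) :
    (Theta ψ X1 G).coeff 0 = MvPolynomial.aeval ψ G := by
  have h := evη_Theta ψ X1 0 G
  rw [evη_apply, map_zero, ← coeff_zero_eq_eval_zero] at h
  rw [h]
  simp

theorem exists_Theta_ne_zero [Infinite K] (ψ : ι → MvPolynomial τ K) {Q : MvPolynomial ι K}
    (hQ : Q ≠ 0) : ∃ X1 : ι → K, Theta ψ X1 Q ≠ 0 := by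
  obtain ⟨x, hx⟩ : ∃ x : ι → K, MvPolynomial.eval x Q ≠ 0 := by
    by_contra hcon
    push Not at hcon
    exact hQ (MvPolynomial.funext fun x => by rw [hcon, map_zero])
  refine ⟨fun i => x i - MvPolynomial.eval 0 (ψ i), fun h0 => hx ?_⟩
  have h1 := evη_Theta ψ (fun i => x i - MvPolynomial.eval 0 (ψ i)) 1 Q
  rw [h0, map_zero] at h1
  have h2 := congrArg (MvPolynomial.eval (0 : τ → K)) h1
  rw [map_zero] at h2
  rw [h2]
  have h3 : (MvPolynomial.eval (0 : τ → K)).comp ((MvPolynomial.aeval (fun i => ψ i +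
      MvPolynomial.C (1 * (x i - MvPolynomial.eval 0 (ψ i))))
        : MvPolynomial ι K →ₐ[K] MvPolynomial τ K) : MvPolynomial ι K →+* MvPolynomial τ K) =
      MvPolynomial.eval x := by
    refine MvPolynomial.ringHom_ext (fun a => ?_) (fun i => ?_)
    · simp
    · simp
  exact (DFunLike.congr_fun h3 Q).symm

theorem evη_eq_sum (η : K) (H : (MvPolynomial τ K)[X]) :
    evη τ η H = ∑ d ∈ Finset.range (H.natDegree + 1), (η ^ d) • H.coeff d := by
  rw [evη_apply, eval_eq_sum_range]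
  refine Finset.sum_congr rfl fun d _ => ?_
  rw [← map_pow, mul_comm, ← MvPolynomial.smul_eq_C_mul]

/-- linear matrix functionals of a polynomial family in `η` -/
theorem exists_det_evη_ne_zero [Infinite K] {κ : Type} [Fintype κ] [DecidableEq κ]
    (Λ : MvPolynomial τ K →ₗ[K] Matrix κ κ K) (H : (MvPolynomial τ K)[X])
    (h : (Λ (H.coeff 0)).det ≠ 0) : ∃ η : K, η ≠ 0 ∧ (Λ (evη τ η H)).det ≠ 0 := by
  let M : Matrix κ κ K[X] := Matrix.of fun i j =>
    ∑ d ∈ Finset.range (H.natDegree + 1), C (Λ (H.coeff d) i j) * X ^ d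
  have hM : ∀ η : K, M.map (eval η) = Λ (evη τ η H) := by
    intro η
    ext i j
    rw [evη_eq_sum, map_sum, Matrix.sum_apply]
    simp only [M, Matrix.map_apply, Matrix.of_apply, eval_finsetSum, eval_mul, eval_C, eval_pow,
      eval_X, map_smul, Matrix.smul_apply, smul_eq_mul]
    exact Finset.sum_congr rfl fun d _ => mul_comm _ _
  have h0 : evη τ (0 : K) H = H.coeff 0 := by
    rw [evη_apply, map_zero, ← coeff_zero_eq_eval_zero]
  obtain ⟨η, hη, h1⟩ := exists_det_ne_zero M (by rw [hM, h0]; exact h)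
  exact ⟨η, hη, by rw [← hM]; exact h1⟩

/-- **Row R.** -/
theorem reduction [Infinite K] (ψ : ι → MvPolynomial τ K) (P G : MvPolynomial ι K)
    (hP : MvPolynomial.aeval ψ P ≠ 0) (hG : G ≠ 0) (hPG : P ∣ G) :
    ∃ (G0 : MvPolynomial τ K) (X1 : ι → K), G0 ≠ 0 ∧ MvPolynomial.aeval ψ P ∣ G0 ∧
      ∀ (κ : Type) [Fintype κ] [DecidableEq κ] (Λ : MvPolynomial τ K →ₗ[K] Matrix κ κ K),
        (Λ G0).det ≠ 0 → ∃ η : K, η ≠ 0 ∧
          (Λ (MvPolynomial.aeval (fun i => ψ i + MvPolynomial.C (η * X1 i)) G)).det ≠ 0 := by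
  obtain ⟨Q, rfl⟩ := hPG
  have hQ : Q ≠ 0 := right_ne_zero_of_mul hG
  obtain ⟨X1, hX1⟩ := exists_Theta_ne_zero ψ hQ
  obtain ⟨q, F, hF, hF0⟩ : ∃ (q : ℕ) (F : (MvPolynomial τ K)[X]),
      Theta ψ X1 Q = X ^ q * F ∧ F.coeff 0 ≠ 0 := by
    obtain ⟨F, hF⟩ : X ^ (Theta ψ X1 Q).natTrailingDegree ∣ Theta ψ X1 Q :=
      X_pow_dvd_iff.2 fun d hd => coeff_eq_zero_of_lt_natTrailingDegree hd
    refine ⟨_, F, hF, fun h0 => ?_⟩
    have h1 : (Theta ψ X1 Q).coeff (Theta ψ X1 Q).natTrailingDegree ≠ 0 :=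
      trailingCoeff_nonzero_iff_nonzero.2 hX1
    have h2 : (Theta ψ X1 Q).coeff (Theta ψ X1 Q).natTrailingDegree =
        (X ^ (Theta ψ X1 Q).natTrailingDegree * F).coeff (Theta ψ X1 Q).natTrailingDegree :=
      congrArg (fun p => p.coeff (Theta ψ X1 Q).natTrailingDegree) hF
    rw [h2] at h1
    have h3 := coeff_X_pow_mul F (Theta ψ X1 Q).natTrailingDegree 0
    rw [zero_add] at h3
    exact h1 (h3.trans h0)
  refine ⟨MvPolynomial.aeval ψ P * F.coeff 0, X1, mul_ne_zero hP hF0, dvd_mul_right _ _, ?_⟩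
  intro κ _ _ Λ hΛ
  have hH : (Theta ψ X1 P * F).coeff 0 = MvPolynomial.aeval ψ P * F.coeff 0 := by
    rw [mul_coeff_zero, coeff_zero_Theta]
  obtain ⟨η, hη, h1⟩ := exists_det_evη_ne_zero Λ (Theta ψ X1 P * F) (by rw [hH]; exact hΛ)
  refine ⟨η, hη, ?_⟩
  have h2 : MvPolynomial.aeval (fun i => ψ i + MvPolynomial.C (η * X1 i)) (P * Q) =
      (η ^ q) • evη τ η (Theta ψ X1 P * F) := by
    rw [← evη_Theta, map_mul, hF]
    have h3 : Theta ψ X1 P * (X ^ q * F) = X ^ q * (Theta ψ X1 P * F) := by ring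
    rw [h3, map_mul, evη_apply (F := X ^ q), eval_pow, eval_X, ← map_pow,
      ← MvPolynomial.smul_eq_C_mul]
  rw [h2, map_smul, Matrix.det_smul]
  exact mul_ne_zero (pow_ne_zero _ (pow_ne_zero _ hη)) h1

end Red

end Pool.MCD
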