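import Pool.Agent.CDep.Plug
import Pool.Agent.MCD.Red

/-!
# Multiples of the permanent: from the top form of a polynomial to the polynomial

If a compressed coefficient matrix of the top form of `G` is regular, then so is the one of `G`
after scaling of the base point and of the directions.
-/

set_option autoImplicit false
set_option linter.unusedSectionVars false

namespace Pool.MCD

open Finset MvPolynomial Pool.CDep Pool.CD
open Pool.Agent.Helper87.D3 (Ser cf cst lam mu cf_sum cf_cst_mul cst_mul)

section scale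
variable {K : Type} [Field K] {σ : Type} {N h : ℕ}

theorem algebraMap_serW (a : K) : algebraMap K (Ser (Fw K N h)) a = cst (algebraMap K (Fw K N h) a) :=
  Pool.Agent.Helper59.CD.algebraMap_ser a

theorem PhiW_scale_X (c : σ → K) (a b : σ → Wo N h → K) (t : K) (i : σ) :
    PhiW (fun i => t * c i) (fun i p => t * a i p) (fun i p => t * b i p) (X i) =
      t • PhiW c a b (X i) := by
  unfold PhiW
  rw [aeval_X, aeval_X, Algebra.smul_def, algebraMap_serW, mul_add, mul_add]
  have h1 : (fun p : Wo N h × Wo N h => t * a i p.1) =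
      algebraMap K (Fw K N h) t * fun p => a i p.1 := rfl
  have h2 : (fun p : Wo N h × Wo N h => t * b i p.2) =
      algebraMap K (Fw K N h) t * fun p => b i p.2 := rfl
  rw [h1, h2, map_mul, cst_mul, cst_mul, cst_mul]
  ring

/-- scaling of a homogeneous polynomial -/
theorem PhiW_scale (c : σ → K) (a b : σ → Wo N h → K) (t : K) {d : ℕ} {F : MvPolynomial σ K}
    (hF : F.IsHomogeneous d) :
    PhiW (fun i => t * c i) (fun i p => t * a i p) (fun i p => t * b i p) F =
      t ^ d • PhiW c a b F := by
  conv_lhs => rw [F.as_sum]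
  conv_rhs => rw [F.as_sum]
  rw [map_sum, map_sum, smul_sum]
  refine sum_congr rfl fun m hm => ?_
  have hd : m.degree = d := by
    have h := hF (mem_support_iff.1 hm)
    have h2 := DFunLike.congr_fun (Finsupp.degree_eq_weight_one (R := ℕ) (σ := σ)) m
    exact h2.trans h
  rw [monomial_eq, map_mul, map_mul]
  have h0 : ∀ x : K, PhiW (fun i => t * c i) (fun i p => t * a i p) (fun i p => t * b i p) (C x) =
      (PhiW c a b (C x) : Ser (Fw K N h)) := by
    intro x
    rw [← algebraMap_eq, AlgHom.commutes, AlgHom.commutes]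
  rw [h0, ← mul_smul_comm]
  congr 1
  rw [Finsupp.prod, map_prod, map_prod]
  have h1 : ∀ i ∈ m.support, PhiW (fun i => t * c i) (fun i p => t * a i p)
      (fun i p => t * b i p) (X i ^ m i) = t ^ m i • PhiW c a b (X i ^ m i) := by
    intro i _
    rw [map_pow, map_pow, PhiW_scale_X, smul_pow]
  rw [prod_congr rfl h1, Finset.prod_smul, prod_pow_eq_pow_sum]
  congr 2

/-- coefficients of a scaled series -/
theorem cf_smul' (r E : ℕ) (x : K) (F : Ser (Fw K N h)) : cf r E (x • F) = x • cf r E F := by
  rw [Algebra.smul_def, algebraMap_serW, cf_cst_mul, ← Algebra.smul_def]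

variable [Infinite K] {ι : Type} [Fintype ι] [DecidableEq ι]

/-- the compressed coefficient matrix -/
noncomputable def cmat (P Q : ι → Wo N h → K) (r E : ℕ) (F : Ser (Fw K N h)) : Matrix ι ι K :=
  Matrix.of fun u v => ∑ p, ∑ p', P u p * Q v p' * cf r E F (p, p')

theorem cmat_add (P Q : ι → Wo N h → K) (r E : ℕ) (F G : Ser (Fw K N h)) :
    cmat P Q r E (F + G) = cmat P Q r E F + cmat P Q r E G := by
  ext u v
  simp only [cmat, Matrix.of_apply, Matrix.add_apply]
  rw [← sum_add_distrib]
  refine sum_congr rfl fun p _ => ?_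
  rw [← sum_add_distrib]
  refine sum_congr rfl fun p' _ => ?_
  rw [Pool.Agent.Helper87.D3.cf_add, Pi.add_apply]
  ring

theorem cmat_zero (P Q : ι → Wo N h → K) (r E : ℕ) :
    cmat P Q r E (0 : Ser (Fw K N h)) = 0 := by
  ext u v
  simp only [cmat, Matrix.of_apply, Matrix.zero_apply]
  refine sum_eq_zero fun p _ => sum_eq_zero fun p' _ => ?_
  rw [Pool.Agent.Helper87.D3.cf_zero, Pi.zero_apply, mul_zero]

theorem cmat_smul (P Q : ι → Wo N h → K) (r E : ℕ) (x : K) (F : Ser (Fw K N h)) :
    cmat P Q r E (x • F) = x • cmat P Q r E F := by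
  ext u v
  simp only [cmat, Matrix.of_apply, Matrix.smul_apply, smul_eq_mul]
  rw [mul_sum]
  refine sum_congr rfl fun p _ => ?_
  rw [mul_sum]
  refine sum_congr rfl fun p' _ => ?_
  rw [cf_smul', Pi.smul_apply, smul_eq_mul]
  ring

theorem cmat_sum (P Q : ι → Wo N h → K) (r E : ℕ) {J : Type} (s : Finset J)
    (F : J → Ser (Fw K N h)) : cmat P Q r E (∑ j ∈ s, F j) = ∑ j ∈ s, cmat P Q r E (F j) := by
  classical
  induction s using Finset.induction_on with
  | empty => rw [sum_empty, sum_empty, cmat_zero]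
  | insert j s hj ih => rw [sum_insert hj, sum_insert hj, cmat_add, ih]

/-- TOP FORMS -/
theorem top_transfer (G : MvPolynomial σ K) (c : σ → K) (a b : σ → Wo N h → K)
    (P Q : ι → Wo N h → K) (r E : ℕ)
    (hdet : (cmat P Q r E (PhiW c a b (homogeneousComponent G.totalDegree G))).det ≠ 0) :
    ∃ ε : K, ε ≠ 0 ∧ (cmat P Q r E (PhiW (fun i => ε * c i) (fun i p => ε * a i p)
      (fun i p => ε * b i p) G)).det ≠ 0 := by
  set d := G.totalDegree with hd
  let M : ℕ → Matrix ι ι K := fun j => cmat P Q r E (PhiW c a b (homogeneousComponent j G))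
  let MM : Matrix ι ι (Polynomial K) := Matrix.of fun u v =>
    ∑ j ∈ range (d + 1), Polynomial.X ^ (d - j) * Polynomial.C (M j u v)
  have hev : ∀ t : K, MM.map (Polynomial.eval t) = ∑ j ∈ range (d + 1), t ^ (d - j) • M j := by
    intro t
    ext u v
    rw [Matrix.map_apply, Matrix.sum_apply]
    simp only [MM, Matrix.of_apply, Polynomial.eval_finsetSum, Polynomial.eval_mul,
      Polynomial.eval_pow, Polynomial.eval_X, Polynomial.eval_C, Matrix.smul_apply, smul_eq_mul]
  have h0 : (MM.map (Polynomial.eval 0)).det ≠ 0 := by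
    rw [hev, sum_eq_single d]
    · rw [Nat.sub_self, pow_zero, one_smul]
      exact hdet
    · intro j hj hne
      have : d - j ≠ 0 := by
        have := mem_range.1 hj
        omega
      rw [zero_pow this, zero_smul]
    · intro hn
      exact absurd (mem_range.2 (Nat.lt_succ_self d)) hn
  obtain ⟨t, ht, hdt⟩ := exists_det_ne_zero MM h0
  refine ⟨t⁻¹, inv_ne_zero ht, ?_⟩
  have h1 : cmat P Q r E (PhiW (fun i => t⁻¹ * c i) (fun i p => t⁻¹ * a i p)
      (fun i p => t⁻¹ * b i p) G) = (t⁻¹) ^ d • MM.map (Polynomial.eval t) := by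
    rw [hev, smul_sum]
    conv_lhs => rw [← sum_homogeneousComponent G, map_sum, cmat_sum]
    refine sum_congr rfl fun j hj => ?_
    rw [PhiW_scale c a b t⁻¹ (homogeneousComponent_isHomogeneous j G), cmat_smul, smul_smul]
    congr 1
    have hj' : j ≤ d := Nat.lt_succ_iff.1 (mem_range.1 hj)
    obtain ⟨e, he⟩ := Nat.exists_eq_add_of_le hj'
    rw [he, Nat.add_sub_cancel_left, pow_add, mul_assoc, ← mul_pow, inv_mul_cancel₀ ht, one_pow,
      mul_one]
  rw [h1, Matrix.det_smul]
  exact mul_ne_zero (pow_ne_zero _ (pow_ne_zero _ (inv_ne_zero ht))) hdt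

end scale

end Pool.MCD
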