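import Pool.Agent.MCD.Bridge
import Pool.Agent.MCD.Top
import Pool.Agent.MCD.Numbers
import Pool.Agent.MCD.Digits
import Pool.Agent.MCD.Gadget
import Pool.Agent.Helper97.HY.Box

/-!
# Constant depth: zero tests for the permanent

`mcd_top`: the lower bound for every polynomial whose top form is a multiple of the permanent.
`box`: no number of tests by such polynomials decides whether the permanent vanishes.
-/

set_option autoImplicit false
set_option linter.unusedSectionVars false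

namespace Pool.MCD

open Finset MvPolynomial Pool.CDep Pool.CD Pool.Agent.Helper41.CD
open Pool.Agent.Helper87.D3 (Ser cf cst lam mu)

section top
variable {K : Type} [Field K] [CharZero K]

theorem top_form_ne_zero {V : Type} {G : MvPolynomial V K} (hG : G ≠ 0) :
    homogeneousComponent G.totalDegree G ≠ 0 := by
  classical
  intro h
  have hne : G.support.Nonempty := support_nonempty.mpr hG
  obtain ⟨u, hu, hmax⟩ := Finset.exists_mem_eq_sup G.support hne fun u => u.sum fun _ e => e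
  have h1 : u.degree = G.totalDegree := hmax.symm
  have h2 := congrArg (coeff u) h
  rw [coeff_homogeneousComponent, if_pos h1, coeff_zero] at h2
  exact (mem_support_iff.mp hu) h2

theorem WGen_smul {N h : ℕ} {l : Fin N → ℕ} {x : ℕ} {g : Wo N h → K} (hg : g ∈ WGen K h l x)
    (t : K) : (fun p => t * g p) ∈ WGen K h l x := by
  obtain ⟨J, hJ, hc, hd⟩ := hg
  exact ⟨J, hJ, hc, fun p p' hp => congrArg (fun z => t * z) (hd p p' hp)⟩

variable {A B h s n k : ℕ}

theorem bridge_top (hA : 1 ≤ A) (hB : 1 ≤ B) (hh : 1 ≤ h)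
    (Fam : Fin n → Fin n → ℤ ⊕ (Fin s ⊕ YD s A B h))
    (hFam : ∀ (R : Type) [CommRing R] (x : Fin s → R) (y : YD s A B h → R),
      (Matrix.of fun i j => entry x y (Fam i j)).permanent =
        ∏ g, (x g + chain (ru A B h) (rv A B h) (fun i b => y (Sum.inl (g, i, b)))
          (fun j b => y (Sum.inr (g, j, b)))))
    (hadm : ∀ (y : Fin B → (Fin A → Fin h) → K) (z : Fin A → (Fin B → Fin h) → K),
      ∃ a a' : Fin k → Wg A B h → K, Adm (ru A B h) (rv A B h) (part (ru A B h) (rv A B h) y z)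
        (fun S S' => B * S'.card < A * S.card) a a')
    (G : MvPolynomial (Fin n × Fin n) K) (hG : G ≠ 0)
    (hPG : permP n K ∣ homogeneousComponent G.totalDegree G) :
    ∃ (c : Fin n × Fin n → K) (a b : Fin n × Fin n → Wo (s * (A * B)) h → K),
      (∀ i, a i ∈ WGen K h (tu A (s * (A * B))) 1) ∧ (∀ i, b i ∈ WGen K h (tv B (s * (A * B))) 1) ∧
      ∃ P Q : (Fin s → Fin k) → Wo (s * (A * B)) h → K,
        (Matrix.of fun u v => ∑ p, ∑ p', P u p * Q v p' *
          cf (s * B) (s * A) (PhiW c a b G) (p, p')).det ≠ 0 := by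
  obtain ⟨c, a, b, ha, hb, P, Q, hdet⟩ := bridge hA hB hh Fam hFam (ru_injective A B h)
    (rv_injective A B h) hadm _ (top_form_ne_zero hG) hPG
  obtain ⟨ε, _, hε⟩ := top_transfer G c a b P Q (s * B) (s * A) hdet
  exact ⟨fun i => ε * c i, fun i p => ε * a i p, fun i p => ε * b i p,
    fun i => WGen_smul (ha i) ε, fun i => WGen_smul (hb i) ε, P, Q, hε⟩

end top

/-- THE BOUND for polynomials whose top form is a multiple of the permanent -/
theorem mcd_top (hGL : ∀ (K : Type) [Field K], GroupLemma K) (k : ℕ) :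
    ∃ C : ℝ, 0 < C ∧ ∀ (K : Type) [Field K] [CharZero K] (n T S w w0 : ℕ)
      (f : Fin T → Fin S → MvPolynomial (Fin n × Fin n) K),
      2 ≤ S → 1 ≤ w → w ≤ S → 1 ≤ w0 → (∀ i j, f i j ∈ Cls w0 w S k) →
      (∑ i, ∏ j, f i j) ≠ 0 →
      permP n K ∣ homogeneousComponent (∑ i, ∏ j, f i j).totalDegree (∑ i, ∏ j, f i j) →
      n * Real.exp (-(C * (Real.log S ^ (1 - etaM k) * Real.log (2 * w) ^ etaM k +
          Real.log w0))) ≤ C * Real.log (2 * T) := by
  obtain ⟨C, hC, H⟩ := mcd_final k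
  refine ⟨C, hC, fun K _ _ n T S w w0 f hS hw hwS hw0 hf hG hPG => ?_⟩
  obtain ⟨A, B, m, X, Y, hB, hBA, hco, hm, hGrw, Hn⟩ := H S w w0 hS hw hwS hw0
  have hA : 1 ≤ A := hB.trans hBA
  have hh : 1 ≤ 2 ^ m := Nat.one_le_two_pow
  have hT : 1 ≤ T := by
    rcases Nat.eq_zero_or_pos T with hT | hT
    · subst hT
      exact absurd (by simp) hG
    · exact hT
  refine Hn n T hT fun s hs hsn => ?_
  have hsize : s * (A * B * (2 ^ m) ^ A + 1) ≤ n := by
    refine le_trans (Nat.mul_le_mul_left _ ?_) hsn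
    have e : (A * B + 3) * ((2 ^ m) ^ A + 1) =
        A * B * (2 ^ m) ^ A + (A * B + 3 * (2 ^ m) ^ A + 3) := by ring
    omega
  obtain ⟨Fam, hFam⟩ := rowP A B (2 ^ m) s n hA hB hBA hco hh hsize
  obtain ⟨c, a, b, ha, hb, P, Q, hdet⟩ := bridge_top hA hB hh Fam hFam
    (digits_adm_part (hGL K) hA hB hco hm) (∑ i, ∏ j, f i j) hG hPG
  have h1 := machine_words (K := K) (lu := tu A (s * (A * B))) (lv := tv B (s * (A * B)))
    (HU := ((2 ^ m : ℕ) : ℝ) ^ A) (HV := ((2 ^ m : ℕ) : ℝ) ^ B) hw0 hw (by positivity)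
    (by positivity) hGrw c a b ha hb T f hf (s * B) (s * A)
  have h2 := card_le_compressed hh (card_tu hA) (card_tv hB) P Q hdet h1
  have e1 : s * (A * B) = A * (s * B) := by ring
  have e2 : s * (A * B) = B * (s * A) := by ring
  have c1 : (univ.image (tu A (s * (A * B)))).card = s * B := by
    rw [e1]
    exact card_image_tu hA
  have c2 : (univ.image (tv B (s * (A * B)))).card = s * A := by
    rw [e2]
    exact card_image_tv hB
  rw [c1, c2, Fintype.card_fun, Fintype.card_fin, Fintype.card_fin] at h2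
  have h3 : kk A B (2 ^ m) = ((2 ^ m : ℕ) ^ (A * B) + 1) / 2 := rfl
  rw [h3] at h2
  push_cast at h2 ⊢
  exact h2

/-- ZERO TESTS -/
theorem box (hGL : ∀ (K : Type) [Field K], GroupLemma K) (k : ℕ) :
    ∃ C : ℝ, 0 < C ∧ ∀ n T S w w0 t : ℕ, 2 ≤ n → 2 ≤ S → 1 ≤ w → w ≤ S → 1 ≤ w0 →
      C * Real.log (2 * T) < n * Real.exp (-(C * (Real.log S ^ (1 - etaM k) *
        Real.log (2 * w) ^ etaM k + Real.log w0))) →
      ∀ G : Fin t → MvPolynomial (Fin n × Fin n) ℂ,
        (∀ i, G i ≠ 0 ∧ ∃ f : Fin T → Fin S → MvPolynomial (Fin n × Fin n) ℂ,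
          (∀ a b, f a b ∈ Cls w0 w S k) ∧ G i = ∑ a, ∏ b, f a b) →
      ∀ R : ℕ, ∃ X : Matrix (Fin n) (Fin n) ℤ, X.permanent = 0 ∧
        (∀ a b, (R : ℤ) ≤ |(X + Matrix.single a b 1).permanent| ∧
          (X - Matrix.single a b 1).permanent = -(X + Matrix.single a b 1).permanent) ∧
        ∀ Y : Matrix (Fin n) (Fin n) ℂ, (∀ a b, ‖Y a b - X a b‖ ≤ R) →
          ∀ i, eval (fun p => Y p.1 p.2) (G i) ≠ 0 := by
  obtain ⟨C, hC, H⟩ := mcd_top hGL k
  refine ⟨C, hC, fun n T S w w0 t hn hS hw hwS hw0 hlt G hG R => ?_⟩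
  refine Pool.HY.box_int n t hn G (fun i hdvd => ?_) R
  obtain ⟨hG0, f, hf, hGf⟩ := hG i
  rw [hGf] at hG0 hdvd
  exact absurd (H ℂ n T S w w0 f hS hw hwS hw0 hf hG0 hdvd) (not_le.2 hlt)

end Pool.MCD
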