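import Mathlib

/-! # Core of MCD (helper76): the test functionals of all dual vectors see every nonzero multiple of `t_1 .. t_s`

`S' = K[y, z]`, `t_g = x_g + f_g`.  For a base point `c`, `x_g = tau * xs_g - f_g(c)`, functionals `Lam J` which
satisfy the one step rule, the matrix of the functionals on a multiple of all `t_g` is regular for some `tau`. -/

namespace Pool.MCD

open MvPolynomial Finset

set_option linter.unusedSectionVars false

variable {K : Type*} [Field K] [CharZero K] {s : ℕ} {σ : Type*}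

/-- The coefficient of lowest order: `sum_(|m| = d) prod_g m_g x_g^(m_g - 1) Gam_m(c)`. -/
noncomputable def lowSum (G : MvPolynomial (Fin s) (MvPolynomial σ K)) (d : ℕ) (xs : Fin s → K) (c : σ → K) : K :=
  ∑ m ∈ G.support with ∑ g, m g = d, (∏ g, ((m g : K) * xs g ^ (m g - 1))) * eval c (coeff m G)

/-- (C1) A good point for the lowest order. -/
theorem exists_lowSum (G : MvPolynomial (Fin s) (MvPolynomial σ K)) (hG : G ≠ 0)
    (h1 : ∀ m ∈ G.support, ∀ g, 1 ≤ m g) :
    ∃ (d : ℕ) (xs : Fin s → K) (c : σ → K), (∀ m ∈ G.support, d ≤ ∑ g, m g) ∧ lowSum G d xs c ≠ 0 := by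
  classical
  have hne : G.support.Nonempty := by
    rw [Finset.nonempty_iff_ne_empty]
    intro h
    exact hG (MvPolynomial.support_eq_empty.1 h)
  obtain ⟨m0, hm0, hmin⟩ := G.support.exists_min_image (fun m => ∑ g, m g) hne
  set d := ∑ g, m0 g with hd
  -- choose c with Gam_(m0)(c) nonzero
  have hc0 : coeff m0 G ≠ 0 := MvPolynomial.mem_support_iff.1 hm0
  obtain ⟨c, hc⟩ : ∃ c : σ → K, eval c (coeff m0 G) ≠ 0 := by
    by_contra hcon
    push Not at hcon
    exact hc0 (MvPolynomial.funext (fun x => by simpa using hcon x))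
  -- the polynomial in x
  let P : MvPolynomial (Fin s) K :=
    ∑ m ∈ G.support with ∑ g, m g = d,
      monomial (m - Finsupp.equivFunOnFinite.symm (fun _ => 1)) ((∏ g, (m g : K)) * eval c (coeff m G))
  have hP : P ≠ 0 := by
    intro h0
    have h2 : coeff (m0 - Finsupp.equivFunOnFinite.symm (fun _ => 1)) P = 0 := by rw [h0]; simp
    rw [MvPolynomial.coeff_sum] at h2
    rw [Finset.sum_eq_single m0] at h2
    · rw [coeff_monomial, if_pos rfl] at h2
      rcases mul_eq_zero.1 h2 with h3 | h3
      · rw [Finset.prod_eq_zero_iff] at h3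
        obtain ⟨g, -, hg⟩ := h3
        have h4 := h1 m0 hm0 g
        have h5 : m0 g = 0 := by exact_mod_cast hg
        omega
      · exact hc h3
    · intro m hm hne
      rw [coeff_monomial, if_neg]
      intro h3
      apply hne
      ext g
      have h4 := congrArg (fun f => f g) h3
      simp only [Finsupp.coe_tsub, Pi.sub_apply, Finsupp.equivFunOnFinite_symm_apply_apply] at h4
      have h5 := h1 m (Finset.mem_filter.1 hm).1 g
      have h6 := h1 m0 hm0 g
      omega
    · intro h3
      exact absurd (Finset.mem_filter.2 ⟨hm0, hd.symm⟩) h3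
  obtain ⟨xs, hxs⟩ : ∃ xs : Fin s → K, eval xs P ≠ 0 := by
    by_contra hcon
    push Not at hcon
    exact hP (MvPolynomial.funext (fun x => by simpa using hcon x))
  refine ⟨d, xs, c, hmin, ?_⟩
  convert hxs using 1
  simp only [lowSum, P, map_sum]
  apply Finset.sum_congr rfl
  intro m hm
  rw [eval_monomial, Finset.prod_mul_distrib]
  have : (m - Finsupp.equivFunOnFinite.symm (fun _ => 1)).prod (fun n e => xs n ^ e) = ∏ g, xs g ^ (m g - 1) := by
    rw [Finsupp.prod_fintype _ _ (by simp)]
    apply Finset.prod_congr rfl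
    intro g _
    simp
  rw [this]
  ring

/-- the element `t_g` with `x_g = tau * xs_g - f_g(c)` -/
noncomputable def tt (f : Fin s → MvPolynomial σ K) (xs : Fin s → K) (c : σ → K) (τ : K) (g : Fin s) :
    MvPolynomial σ K :=
  C (τ * xs g - eval c (f g)) + f g

section one
variable (f : Fin s → MvPolynomial σ K) (xs : Fin s → K) (c : σ → K)
  (al : Fin s → K) (L : Finset (Fin s) → (MvPolynomial σ K →ₗ[K] K))

theorem step_tt
    (h1 : ∀ J g H, g ∉ J → L J (f g * H) = eval c (f g) * L J H)
    (h2 : ∀ J g H, g ∈ J → L J (f g * H) = eval c (f g) * L J H + al g * L (J.erase g) H)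
    (τ : K) (J : Finset (Fin s)) (g : Fin s) (H : MvPolynomial σ K) :
    L J (tt f xs c τ g * H) = τ * xs g * L J H + (if g ∈ J then al g * L (J.erase g) H else 0) := by
  rw [tt, add_mul, map_add, ← smul_eq_C_mul, map_smul]
  by_cases hg : g ∈ J
  · rw [if_pos hg, h2 J g H hg, smul_eq_mul]; ring
  · rw [if_neg hg, h1 J g H hg, smul_eq_mul]; ring

theorem pow_tt
    (h1 : ∀ J g H, g ∉ J → L J (f g * H) = eval c (f g) * L J H)
    (h2 : ∀ J g H, g ∈ J → L J (f g * H) = eval c (f g) * L J H + al g * L (J.erase g) H)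
    (τ : K) (J : Finset (Fin s)) (g : Fin s) (n : ℕ) (H : MvPolynomial σ K) :
    L J (tt f xs c τ g ^ (n + 1) * H) = (τ * xs g) ^ n *
      (τ * xs g * L J H + (if g ∈ J then ((n : K) + 1) * al g * L (J.erase g) H else 0)) := by
  have hout : ∀ (J : Finset (Fin s)), g ∉ J → ∀ (n : ℕ) (H : MvPolynomial σ K),
      L J (tt f xs c τ g ^ n * H) = (τ * xs g) ^ n * L J H := by
    intro J hJ n
    induction n with
    | zero => intro H; simp
    | succ n ih =>
      intro H
      rw [pow_succ, mul_assoc, ih, step_tt f xs c al L h1 h2, if_neg hJ]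
      ring
  by_cases hg : g ∈ J
  · simp only [if_pos hg]
    induction n generalizing H with
    | zero =>
      rw [zero_add, pow_one, step_tt f xs c al L h1 h2, if_pos hg]
      push_cast; ring
    | succ n ih =>
      rw [pow_succ, mul_assoc, ih, step_tt f xs c al L h1 h2, if_pos hg,
        step_tt f xs c al L h1 h2, if_neg (Finset.notMem_erase g J)]
      push_cast; ring
  · simp only [if_neg hg]
    rw [hout J hg]
    ring

/-- The product of all powers: divisible by the power of `tau`, with the right constant. -/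
theorem prod_tt
    (h1 : ∀ J g H, g ∉ J → L J (f g * H) = eval c (f g) * L J H)
    (h2 : ∀ J g H, g ∈ J → L J (f g * H) = eval c (f g) * L J H + al g * L (J.erase g) H)
    (m : Fin s → ℕ) (hm : ∀ g, 1 ≤ m g) (A : Finset (Fin s)) :
    ∀ (J : Finset (Fin s)) (H : MvPolynomial σ K), ∃ N : Polynomial K,
      (∀ τ : K, L J ((∏ g ∈ A, tt f xs c τ g ^ m g) * H) = τ ^ (∑ g ∈ A, (m g - 1)) * N.eval τ) ∧
      (A ⊆ J → N.eval 0 = (∏ g ∈ A, ((m g : K) * xs g ^ (m g - 1) * al g)) * L (J \ A) H) := by
  classical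
  induction A using Finset.induction_on with
  | empty =>
    intro J H
    exact ⟨Polynomial.C (L J H), by intro τ; simp, by intro _; simp⟩
  | insert g A hgA ih =>
    intro J H
    obtain ⟨N1, hN1, -⟩ := ih J H
    obtain ⟨N2, hN2, hN2'⟩ := ih (J.erase g) H
    obtain ⟨n, hn⟩ : ∃ n, m g = n + 1 := ⟨m g - 1, by have := hm g; omega⟩
    refine ⟨Polynomial.C (xs g ^ n) * (Polynomial.X * Polynomial.C (xs g) * N1 +
      Polynomial.C (if g ∈ J then ((n : K) + 1) * al g else 0) * N2), ?_, ?_⟩
    · intro τ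
      rw [Finset.prod_insert hgA, mul_assoc, hn, pow_tt f xs c al L h1 h2, hN1, hN2,
        Finset.sum_insert hgA, hn]
      simp only [Polynomial.eval_mul, Polynomial.eval_add, Polynomial.eval_C, Polynomial.eval_X,
        Nat.add_sub_cancel]
      split_ifs <;> ring
    · intro hAJ
      have hgJ : g ∈ J := hAJ (Finset.mem_insert_self g A)
      have hA : A ⊆ J.erase g := by
        intro i hi
        rw [Finset.mem_erase]
        exact ⟨fun h => hgA (h ▸ hi), hAJ (Finset.mem_insert_of_mem hi)⟩
      have hsd : J.erase g \ A = J \ insert g A := by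
        ext i
        simp only [Finset.mem_sdiff, Finset.mem_erase, Finset.mem_insert]
        tauto
      simp only [Polynomial.eval_mul, Polynomial.eval_add, Polynomial.eval_C, Polynomial.eval_X,
        if_pos hgJ]
      rw [hN2' hA, Finset.prod_insert hgA, hsd, hn]
      simp only [Nat.add_sub_cancel]
      push_cast
      ring

end one

/-- (C2) The core: regular matrix for some `tau`. -/
theorem core {KK : Type*} [Fintype KK] [DecidableEq KK] (f : Fin s → MvPolynomial σ K)
    (G : MvPolynomial (Fin s) (MvPolynomial σ K)) (h1G : ∀ m ∈ G.support, ∀ g, 1 ≤ m g)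
    (d : ℕ) (xs : Fin s → K) (c : σ → K) (hd : ∀ m ∈ G.support, d ≤ ∑ g, m g) (hR : lowSum G d xs c ≠ 0)
    (L : (Fin s → KK) → (Fin s → KK) → Finset (Fin s) → (MvPolynomial σ K →ₗ[K] K))
    (h0 : ∀ k k' H, L k k' ∅ H = eval c H)
    (h1 : ∀ k k' J g H, g ∉ J → L k k' J (f g * H) = eval c (f g) * L k k' J H)
    (h2 : ∀ k k' J g H, g ∈ J → L k k' J (f g * H) = eval c (f g) * L k k' J H +
      (if k g = k' g then 1 else 0) * L k k' (J.erase g) H) :
    ∃ τ : K, (Matrix.of fun k k' : Fin s → KK =>
      L k k' Finset.univ (aeval (tt f xs c τ) G)).det ≠ 0 := by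
  classical
  -- the polynomials
  have key : ∀ (k k' : Fin s → KK) (m : Fin s →₀ ℕ), ∃ N : Polynomial K, m ∈ G.support →
      (∀ τ : K, L k k' Finset.univ ((∏ g, tt f xs c τ g ^ m g) * coeff m G) =
        τ ^ (∑ g, (m g - 1)) * N.eval τ) ∧
      N.eval 0 = (∏ g, ((m g : K) * xs g ^ (m g - 1) * (if k g = k' g then 1 else 0))) *
        eval c (coeff m G) := by
    intro k k' m
    by_cases hm : m ∈ G.support
    · obtain ⟨N, hN1, hN2⟩ := prod_tt f xs c (fun g => if k g = k' g then 1 else 0) (L k k')
        (h1 k k') (h2 k k') m (h1G m hm) Finset.univ Finset.univ (coeff m G)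
      refine ⟨N, fun _ => ⟨hN1, ?_⟩⟩
      rw [hN2 (Finset.Subset.refl _), Finset.sdiff_self, h0]
    · exact ⟨0, fun h => absurd h hm⟩
  choose N hN using key
  -- the exponent
  have hsum : ∀ m ∈ G.support, (∑ g, (m g - 1)) = (d - s) + ((∑ g, m g) - d) := by
    intro m hm
    have ha : (∑ g, (m g - 1)) + s = ∑ g, m g := by
      have hb : ∑ g : Fin s, m g = ∑ g : Fin s, ((m g - 1) + 1) :=
        Finset.sum_congr rfl (fun g _ => by have := h1G m hm g; omega)
      rw [hb, Finset.sum_add_distrib]
      simp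
    have hb := hd m hm
    -- s ≤ d
    have hs : s ≤ d := by
      by_contra hcon
      -- all sums are at least s; lowSum is empty if d < s
      apply hR
      rw [lowSum]
      apply Finset.sum_eq_zero
      intro m' hm'
      rw [Finset.mem_filter] at hm'
      have hc : s ≤ ∑ g, m' g := by
        have : ∑ g : Fin s, 1 ≤ ∑ g : Fin s, m' g := Finset.sum_le_sum (fun g _ => h1G m' hm'.1 g)
        simpa using this
      omega
    omega
  let NN : Matrix (Fin s → KK) (Fin s → KK) (Polynomial K) := Matrix.of fun k k' =>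
    ∑ m ∈ G.support, Polynomial.X ^ ((∑ g, m g) - d) * N k k' m
  -- value of the matrix
  have hval : ∀ (τ : K) (k k' : Fin s → KK), L k k' Finset.univ (aeval (tt f xs c τ) G) =
      τ ^ (d - s) * (NN k k').eval τ := by
    intro τ k k'
    have hG : aeval (tt f xs c τ) G = ∑ m ∈ G.support, (∏ g, tt f xs c τ g ^ m g) * coeff m G := by
      conv_lhs => rw [G.as_sum]
      rw [map_sum]
      apply Finset.sum_congr rfl
      intro m hm
      rw [aeval_monomial, Finsupp.prod_fintype _ _ (by simp)]
      simp [mul_comm]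
    rw [hG, map_sum]
    simp only [NN, Matrix.of_apply, Polynomial.eval_finsetSum, Polynomial.eval_mul, Polynomial.eval_pow,
      Polynomial.eval_X, Finset.mul_sum]
    apply Finset.sum_congr rfl
    intro m hm
    rw [((hN k k' m) hm).1 τ, hsum m hm, pow_add]
    ring
  have hprod : ∀ k k' : Fin s → KK, (∏ g, (if k g = k' g then (1 : K) else 0)) = if k = k' then 1 else 0 := by
    intro k k'
    by_cases h : k = k'
    · subst h; simp
    · rw [if_neg h]
      obtain ⟨g, hg⟩ := Function.ne_iff.1 h
      exact Finset.prod_eq_zero (Finset.mem_univ g) (if_neg hg)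
  have hzero : ∀ k k' : Fin s → KK, (NN k k').eval 0 = if k = k' then lowSum G d xs c else 0 := by
    intro k k'
    simp only [NN, Matrix.of_apply, Polynomial.eval_finsetSum, Polynomial.eval_mul, Polynomial.eval_pow,
      Polynomial.eval_X]
    have h3 : ∀ m ∈ G.support, (0 : K) ^ ((∑ g, m g) - d) * (N k k' m).eval 0 =
        if ∑ g, m g = d then (if k = k' then ((∏ g, ((m g : K) * xs g ^ (m g - 1))) * eval c (coeff m G)) else 0)
        else 0 := by
      intro m hm
      by_cases h4 : ∑ g, m g = d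
      · rw [if_pos h4, h4, Nat.sub_self, pow_zero, one_mul, ((hN k k' m) hm).2, Finset.prod_mul_distrib, hprod]
        split_ifs <;> simp
      · have h5 := hd m hm
        rw [if_neg h4, zero_pow (by omega), zero_mul]
    rw [Finset.sum_congr rfl h3, ← Finset.sum_filter]
    split_ifs with h6
    · rfl
    · simp
  have hdet0 : NN.det.eval 0 ≠ 0 := by
    have h3 : NN.det.eval 0 = (NN.map (Polynomial.evalRingHom (0 : K))).det := by
      rw [← RingHom.mapMatrix_apply, ← RingHom.map_det]; rfl
    rw [h3]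
    have h4 : NN.map (Polynomial.evalRingHom (0 : K)) = (lowSum G d xs c) • (1 : Matrix (Fin s → KK) (Fin s → KK) K) := by
      ext k k'
      rw [Matrix.map_apply, Polynomial.coe_evalRingHom, hzero, Matrix.smul_apply, Matrix.one_apply]
      split_ifs <;> simp
    rw [h4, Matrix.det_smul, Matrix.det_one, mul_one]
    exact pow_ne_zero _ hR
  have hdet : Polynomial.X * NN.det ≠ 0 := by
    refine mul_ne_zero Polynomial.X_ne_zero ?_
    intro h; rw [h] at hdet0; simp at hdet0
  obtain ⟨τ, hτ⟩ : ∃ τ : K, (Polynomial.X * NN.det).eval τ ≠ 0 := by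
    by_contra hcon
    push Not at hcon
    exact hdet (Polynomial.funext (fun x => by simpa using hcon x))
  rw [Polynomial.eval_mul, Polynomial.eval_X] at hτ
  have hτ1 : τ ≠ 0 := left_ne_zero_of_mul hτ
  have hτ2 : NN.det.eval τ ≠ 0 := right_ne_zero_of_mul hτ
  refine ⟨τ, ?_⟩
  have h5 : (Matrix.of fun k k' : Fin s → KK => L k k' Finset.univ (aeval (tt f xs c τ) G)) =
      (τ ^ (d - s)) • (NN.map (Polynomial.evalRingHom τ)) := by
    ext k k'
    rw [Matrix.of_apply, hval, Matrix.smul_apply, Matrix.map_apply, Polynomial.coe_evalRingHom, smul_eq_mul]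
  rw [h5, Matrix.det_smul]
  refine mul_ne_zero (pow_ne_zero _ (pow_ne_zero _ hτ1)) ?_
  have h3 : NN.det.eval τ = (NN.map (Polynomial.evalRingHom τ)).det := by
    rw [← RingHom.mapMatrix_apply, ← RingHom.map_det]; rfl
  rw [← h3]
  exact hτ2

/-! ## (C3) multiples of `prod (x_g + f_g)` -/

/-- `x_g -> t_g - f_g` -/
noncomputable def psi (f : Fin s → MvPolynomial σ K) :
    MvPolynomial (Fin s ⊕ σ) K →ₐ[K] MvPolynomial (Fin s) (MvPolynomial σ K) :=
  aeval (Sum.elim (fun g => X g - C (f g)) (fun i => C (X i)))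

/-- `t_g -> x_g + f_g` -/
noncomputable def chi (f : Fin s → MvPolynomial σ K) :
    MvPolynomial (Fin s) (MvPolynomial σ K) →+* MvPolynomial (Fin s ⊕ σ) K :=
  eval₂Hom (rename Sum.inr : MvPolynomial σ K →ₐ[K] MvPolynomial (Fin s ⊕ σ) K).toRingHom
    (fun g => X (Sum.inl g) + rename Sum.inr (f g))

theorem chi_psi (f : Fin s → MvPolynomial σ K) (G : MvPolynomial (Fin s ⊕ σ) K) : chi f (psi f G) = G := by
  have h : ((chi f).comp (psi f).toRingHom) = RingHom.id _ := by
    apply MvPolynomial.ringHom_ext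
    · intro a
      simp [chi, psi, algebraMap_eq]
    · rintro (g | i)
      · simp [chi, psi]
      · simp [chi, psi]
  have h2 := congrArg (fun φ : MvPolynomial (Fin s ⊕ σ) K →+* MvPolynomial (Fin s ⊕ σ) K => φ G) h
  simpa using h2

theorem psi_injective (f : Fin s → MvPolynomial σ K) : Function.Injective (psi f) :=
  Function.LeftInverse.injective (chi_psi f)

theorem psi_t (f : Fin s → MvPolynomial σ K) (g : Fin s) :
    psi f (X (Sum.inl g) + rename Sum.inr (f g)) = X g := by
  have h : ∀ P : MvPolynomial σ K, psi f (rename Sum.inr P) = C P := by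
    intro P
    rw [psi, aeval_rename]
    have : (Sum.elim (fun g => X g - C (f g)) (fun i => C (X i)) ∘ Sum.inr :
        σ → MvPolynomial (Fin s) (MvPolynomial σ K)) = fun i => C (X i) := by
      ext i; rfl
    rw [this]
    have h2 : (aeval (fun i => C (X i)) : MvPolynomial σ K →ₐ[K] MvPolynomial (Fin s) (MvPolynomial σ K)) P =
        (Algebra.ofId (MvPolynomial σ K) (MvPolynomial (Fin s) (MvPolynomial σ K))).restrictScalars K P := by
      congr 1
      apply MvPolynomial.algHom_ext
      intro i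
      simp [Algebra.ofId_apply, algebraMap_eq]
    rw [h2]
    simp [Algebra.ofId_apply, algebraMap_eq]
  rw [map_add, h, psi, aeval_X]
  simp

/-- the substitution `x_g = tau xs_g - f_g(c)` -/
noncomputable def subst (f : Fin s → MvPolynomial σ K) (xs : Fin s → K) (c : σ → K) (τ : K) :
    MvPolynomial (Fin s ⊕ σ) K →ₐ[K] MvPolynomial σ K :=
  aeval (Sum.elim (fun g => C (τ * xs g - eval c (f g))) X)

theorem aeval_psi (f : Fin s → MvPolynomial σ K) (xs : Fin s → K) (c : σ → K) (τ : K)
    (G : MvPolynomial (Fin s ⊕ σ) K) : aeval (tt f xs c τ) (psi f G) = subst f xs c τ G := by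
  have h : ((aeval (tt f xs c τ) : MvPolynomial (Fin s) (MvPolynomial σ K) →ₐ[MvPolynomial σ K] MvPolynomial σ K).toRingHom.comp
      (psi f).toRingHom) = (subst f xs c τ).toRingHom := by
    apply MvPolynomial.ringHom_ext
    · intro a
      have e1 : (psi f) (C a) = C (C a) := by
        rw [← MvPolynomial.algebraMap_eq, AlgHom.commutes]
        rfl
      simp [e1]
    · rintro (g | i)
      · simp [psi, subst, tt]
      · simp [psi, subst]
  have h2 := congrArg (fun φ : MvPolynomial (Fin s ⊕ σ) K →+* MvPolynomial σ K => φ G) h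
  simpa using h2

/-- (C3) Multiples of `prod (x_g + f_g)`. -/
theorem core_multiple {KK : Type*} [Fintype KK] [DecidableEq KK] (f : Fin s → MvPolynomial σ K)
    (G : MvPolynomial (Fin s ⊕ σ) K) (hG : G ≠ 0)
    (hdiv : (∏ g : Fin s, (X (Sum.inl g) + rename Sum.inr (f g))) ∣ G) :
    ∃ (xs : Fin s → K) (c : σ → K),
    ∀ (L : (Fin s → KK) → (Fin s → KK) → Finset (Fin s) → (MvPolynomial σ K →ₗ[K] K)),
      (∀ k k' H, L k k' ∅ H = eval c H) →
      (∀ k k' J g H, g ∉ J → L k k' J (f g * H) = eval c (f g) * L k k' J H) →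
      (∀ k k' J g H, g ∈ J → L k k' J (f g * H) = eval c (f g) * L k k' J H +
        (if k g = k' g then 1 else 0) * L k k' (J.erase g) H) →
      ∃ τ : K, (Matrix.of fun k k' : Fin s → KK =>
        L k k' Finset.univ (subst f xs c τ G)).det ≠ 0 := by
  classical
  have hG' : psi f G ≠ 0 := by
    intro h
    exact hG (psi_injective f (by rw [h, map_zero]))
  have h1G : ∀ m ∈ (psi f G).support, ∀ g, 1 ≤ m g := by
    intro m hm g
    obtain ⟨Q, hQ⟩ := hdiv
    have e1 : psi f G = monomial (Finsupp.equivFunOnFinite.symm (fun _ : Fin s => 1)) 1 * psi f Q := by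
      rw [hQ, map_mul, map_prod]
      congr 1
      rw [Finset.prod_congr rfl (fun g _ => psi_t f g), monomial_eq, Finsupp.prod_fintype _ _ (by simp)]
      simp
    have h3 := MvPolynomial.mem_support_iff.1 hm
    rw [e1, coeff_monomial_mul'] at h3
    by_contra hcon
    apply h3
    rw [if_neg]
    intro hle
    have := hle g
    simp at this
    omega
  obtain ⟨d, xs, c, hd, hR⟩ := exists_lowSum (psi f G) hG' h1G
  refine ⟨xs, c, fun L h0 h1 h2 => ?_⟩
  obtain ⟨τ, hτ⟩ := core f (psi f G) h1G d xs c hd hR L h0 h1 h2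
  refine ⟨τ, ?_⟩
  convert hτ using 4
  rw [aeval_psi]

end Pool.MCD
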