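import Pool.Agent.MCD.Defs

/-! # Row L of MCD (helper76): the test functionals of admissible vectors -/

set_option autoImplicit false
set_option linter.unusedSectionVars false

namespace Pool.MCD

open Finset MvPolynomial
open Pool.Agent.Helper87.D3 (Ser cf cst lam mu)

namespace RL

variable {W U V Lu Lv : Type} [Fintype W] [Fintype U] [Fintype V] [DecidableEq W] [DecidableEq U]
  [DecidableEq V] [DecidableEq Lu] [DecidableEq Lv] {s : ℕ} {K : Type} [Field K]

/-- the formal variables `lam_(g,i)` and `mu_(g,j)` -/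
abbrev Bl (s : ℕ) (U V : Type) : Type := (Fin s × U) ⊕ (Fin s × V)

/-- the fine substitution -/
noncomputable def fine (zu : W → U → Lu) (zv : W → V → Lv) (c : YZ s U V Lu Lv → K) (p q : Fin s → W) :
    MvPolynomial (YZ s U V Lu Lv) K →ₐ[K] MvPolynomial (Bl s U V) K :=
  aeval (Sum.elim
    (fun t => C (c (Sum.inl t)) + if zu (p t.1) t.2.1 = t.2.2 then X (Sum.inl (t.1, t.2.1)) else 0)
    (fun t => C (c (Sum.inr t)) + if zv (q t.1) t.2.1 = t.2.2 then X (Sum.inr (t.1, t.2.1)) else 0))

/-- the monomial of a part -/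
noncomputable def mon (g : Fin s) (S : Finset U) (S' : Finset V) : Bl s U V →₀ ℕ :=
  Finsupp.equivFunOnFinite.symm (Sum.elim (fun t => if t.1 = g ∧ t.2 ∈ S then 1 else 0)
    (fun t => if t.1 = g ∧ t.2 ∈ S' then 1 else 0))

/-- the monomial of all blocks of the groups in `J` -/
noncomputable def full (J : Finset (Fin s)) : Bl s U V →₀ ℕ :=
  Finsupp.equivFunOnFinite.symm (Sum.elim (fun t => if t.1 ∈ J then 1 else 0)
    (fun t => if t.1 ∈ J then 1 else 0))

theorem prod_X_mon (g : Fin s) (S : Finset U) (S' : Finset V) :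
    (∏ i ∈ S, (X (Sum.inl (g, i)) : MvPolynomial (Bl s U V) K)) * ∏ j ∈ S', X (Sum.inr (g, j)) =
      monomial (mon g S S') 1 := by
  rw [monomial_eq, Finsupp.prod_fintype _ _ (by simp), C_1, one_mul, Fintype.prod_sum_type]
  congr 1
  · rw [Fintype.prod_prod_type, Finset.prod_eq_single g]
    · simp only [mon, Finsupp.equivFunOnFinite_symm_apply_apply, Sum.elim_inl, true_and]
      rw [← Finset.prod_subset (Finset.subset_univ S)]
      · apply Finset.prod_congr rfl
        intro i hi
        rw [if_pos hi, pow_one]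
      · intro i _ hi
        rw [if_neg hi, pow_zero]
    · intro g' _ hg'
      apply Finset.prod_eq_one
      intro i _
      simp [mon, hg']
    · intro h; exact absurd (Finset.mem_univ g) h
  · rw [Fintype.prod_prod_type, Finset.prod_eq_single g]
    · simp only [mon, Finsupp.equivFunOnFinite_symm_apply_apply, Sum.elim_inr, true_and]
      rw [← Finset.prod_subset (Finset.subset_univ S')]
      · apply Finset.prod_congr rfl
        intro i hi
        rw [if_pos hi, pow_one]
      · intro i _ hi
        rw [if_neg hi, pow_zero]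
    · intro g' _ hg'
      apply Finset.prod_eq_one
      intro i _
      simp [mon, hg']
    · intro h; exact absurd (Finset.mem_univ g) h

/-- the value of a part at a base point -/
noncomputable abbrev FP (zu : W → U → Lu) (zv : W → V → Lv) (c : YZ s U V Lu Lv → K) (g : Fin s)
    (S : Finset U) (S' : Finset V) (w w' : W) : K :=
  part zu zv (fun i b => c (Sum.inl (g, i, b))) (fun j b => c (Sum.inr (g, j, b))) S S' w w'

/-- the expansion of the chain polynomial -/
theorem fine_fg (zu : W → U → Lu) (zv : W → V → Lv) (c : YZ s U V Lu Lv → K) (p q : Fin s → W)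
    (g : Fin s) : fine zu zv c p q (fg K s zu zv g) =
      ∑ S : Finset U, ∑ S' : Finset V, monomial (mon g S S') (FP zu zv c g S S' (p g) (q g)) := by
  have h1 : ∀ w : W, fine zu zv c p q ((∏ i, X (Sum.inl (g, i, zu w i))) * ∏ j, X (Sum.inr (g, j, zv w j))) =
      ∑ S : Finset U, ∑ S' : Finset V, monomial (mon g S S')
        (((∏ i ∈ S, if zu (p g) i = zu w i then 1 else 0) * ∏ i ∈ Sᶜ, c (Sum.inl (g, i, zu w i))) *
        ((∏ j ∈ S', if zv (q g) j = zv w j then 1 else 0) * ∏ j ∈ S'ᶜ, c (Sum.inr (g, j, zv w j)))) := by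
    intro w
    rw [map_mul, map_prod, map_prod]
    have e1 : ∀ i : U, fine zu zv c p q (X (Sum.inl (g, i, zu w i))) =
        (if zu (p g) i = zu w i then X (Sum.inl (g, i)) else 0) + C (c (Sum.inl (g, i, zu w i))) := by
      intro i; rw [fine, aeval_X, Sum.elim_inl, add_comm]
    have e2 : ∀ j : V, fine zu zv c p q (X (Sum.inr (g, j, zv w j))) =
        (if zv (q g) j = zv w j then X (Sum.inr (g, j)) else 0) + C (c (Sum.inr (g, j, zv w j))) := by
      intro i; rw [fine, aeval_X, Sum.elim_inr, add_comm]
    rw [Finset.prod_congr rfl (fun i _ => e1 i), Finset.prod_congr rfl (fun j _ => e2 j),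
      Finset.prod_add, Finset.prod_add, Finset.powerset_univ, Finset.powerset_univ, Finset.sum_mul_sum]
    apply Finset.sum_congr rfl
    intro S _
    apply Finset.sum_congr rfl
    intro S' _
    have e3 : (∏ i ∈ S, (if zu (p g) i = zu w i then X (Sum.inl (g, i)) else 0 : MvPolynomial (Bl s U V) K)) =
        C (∏ i ∈ S, if zu (p g) i = zu w i then 1 else 0) * ∏ i ∈ S, X (Sum.inl (g, i)) := by
      rw [map_prod, ← Finset.prod_mul_distrib]
      apply Finset.prod_congr rfl
      intro i _
      split_ifs <;> simp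
    have e4 : (∏ j ∈ S', (if zv (q g) j = zv w j then X (Sum.inr (g, j)) else 0 : MvPolynomial (Bl s U V) K)) =
        C (∏ j ∈ S', if zv (q g) j = zv w j then 1 else 0) * ∏ j ∈ S', X (Sum.inr (g, j)) := by
      rw [map_prod, ← Finset.prod_mul_distrib]
      apply Finset.prod_congr rfl
      intro i _
      split_ifs <;> simp
    rw [e3, e4, ← map_prod, ← map_prod]
    have e5 : (monomial (mon g S S')) (((∏ i ∈ S, if zu (p g) i = zu w i then (1 : K) else 0) *
        ∏ i ∈ Sᶜ, c (Sum.inl (g, i, zu w i))) *
        ((∏ j ∈ S', if zv (q g) j = zv w j then (1 : K) else 0) * ∏ j ∈ S'ᶜ, c (Sum.inr (g, j, zv w j)))) =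
        C (((∏ i ∈ S, if zu (p g) i = zu w i then (1 : K) else 0) *
        ∏ i ∈ Sᶜ, c (Sum.inl (g, i, zu w i))) *
        ((∏ j ∈ S', if zv (q g) j = zv w j then (1 : K) else 0) * ∏ j ∈ S'ᶜ, c (Sum.inr (g, j, zv w j)))) *
        monomial (mon g S S') 1 := by
      rw [C_mul_monomial, mul_one]
    rw [e5, ← prod_X_mon]
    simp only [map_mul, compl_eq_univ_sdiff]
    ring
  rw [fg, chain, map_sum, Finset.sum_congr rfl (fun w _ => h1 w), Finset.sum_comm]
  apply Finset.sum_congr rfl
  intro S _
  rw [Finset.sum_comm]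
  apply Finset.sum_congr rfl
  intro S' _
  rw [FP, part, map_sum]

/-- set the variables outside of the support of `m` to zero -/
noncomputable def kill {τ : Type} (m : τ →₀ ℕ) : MvPolynomial τ K →ₐ[K] MvPolynomial τ K :=
  aeval (fun t => if m t ≠ 0 then X t else 0)

/-- only the variables in the support of `m` matter for the coefficient of `m` -/
theorem coeff_kill {τ : Type} (m : τ →₀ ℕ) (P : MvPolynomial τ K) :
    coeff m (kill m P) = coeff m P := by
  classical
  induction P using MvPolynomial.induction_on' with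
  | monomial n a =>
    rw [kill, aeval_monomial]
    by_cases h : ∀ t ∈ n.support, m t ≠ 0
    · have e : n.prod (fun t e => (if m t ≠ 0 then (X t : MvPolynomial τ K) else 0) ^ e) =
          n.prod (fun t e => X t ^ e) := by
        apply Finsupp.prod_congr
        intro t ht
        rw [if_pos (h t ht)]
      rw [e, monomial_eq]
      rfl
    · push Not at h
      obtain ⟨t, ht, hmt⟩ := h
      have hnt : n t ≠ 0 := Finsupp.mem_support_iff.1 ht
      have e : n.prod (fun t e => (if m t ≠ 0 then (X t : MvPolynomial τ K) else 0) ^ e) = 0 := by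
        rw [Finsupp.prod]
        apply Finset.prod_eq_zero ht
        rw [if_neg (by simpa using hmt), zero_pow hnt]
      rw [e, mul_zero, coeff_zero, coeff_monomial, if_neg]
      intro h
      rw [h] at hnt
      exact hnt hmt
  | add P Q hP hQ => rw [map_add, coeff_add, hP, hQ, coeff_add]

/-- locality of the coefficients -/
theorem coeff_fine_congr (zu : W → U → Lu) (zv : W → V → Lv) (c : YZ s U V Lu Lv → K)
    (p q p1 q1 : Fin s → W) (m : Bl s U V →₀ ℕ)
    (hp : ∀ g i, m (Sum.inl (g, i)) ≠ 0 → zu (p g) i = zu (p1 g) i)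
    (hq : ∀ g j, m (Sum.inr (g, j)) ≠ 0 → zv (q g) j = zv (q1 g) j) (H : MvPolynomial (YZ s U V Lu Lv) K) :
    coeff m (fine zu zv c p q H) = coeff m (fine zu zv c p1 q1 H) := by
  have hk : ∀ t : Bl s U V, m t = 0 → kill m (X t : MvPolynomial (Bl s U V) K) = 0 := by
    intro t ht
    rw [kill, aeval_X, if_neg (by simpa using ht)]
  have h : (kill m).comp (fine zu zv c p q) = (kill m).comp (fine zu zv c p1 q1) := by
    apply MvPolynomial.algHom_ext
    rintro (⟨g, i, a⟩ | ⟨g, j, b⟩)
    · rw [AlgHom.comp_apply, AlgHom.comp_apply, fine, fine, aeval_X, aeval_X, Sum.elim_inl, Sum.elim_inl,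
        map_add, map_add]
      refine congrArg _ ?_
      by_cases hm : m (Sum.inl (g, i)) = 0
      · have e := hk _ hm
        split_ifs <;> simp [e]
      · rw [hp g i hm]
    · rw [AlgHom.comp_apply, AlgHom.comp_apply, fine, fine, aeval_X, aeval_X, Sum.elim_inr, Sum.elim_inr,
        map_add, map_add]
      refine congrArg _ ?_
      by_cases hm : m (Sum.inr (g, j)) = 0
      · have e := hk _ hm
        split_ifs <;> simp [e]
      · rw [hq g j hm]
  have h3 := DFunLike.congr_fun h H
  rw [AlgHom.comp_apply, AlgHom.comp_apply] at h3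
  rw [← coeff_kill m (fine zu zv c p q H), h3, coeff_kill]

/-! ## Sums over words of all groups, one group at a time -/

theorem sum_pi_eq_zero [Nonempty W] (g : Fin s) (F : (Fin s → W) → K)
    (h : ∀ p, ∑ w, F (Function.update p g w) = 0) : ∑ p, F p = 0 := by
  classical
  let e := Equiv.funSplitAt g W
  rw [← Equiv.sum_comp e.symm, Fintype.sum_prod_type, Finset.sum_comm]
  apply Finset.sum_eq_zero
  intro r _
  have w0 : W := Classical.arbitrary W
  rw [← h (e.symm (w0, r))]
  apply Finset.sum_congr rfl
  intro w _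
  congr 1
  ext g'
  by_cases hg : g' = g
  · subst hg; simp [e, Equiv.funSplitAt, Equiv.piSplitAt]
  · rw [Function.update_of_ne hg]
    simp [e, Equiv.funSplitAt, Equiv.piSplitAt, hg]

theorem sum_pi_congr [Nonempty W] (g : Fin s) (F G : (Fin s → W) → (Fin s → W) → K)
    (h : ∀ p q, ∑ w, ∑ w', F (Function.update p g w) (Function.update q g w') =
      ∑ w, ∑ w', G (Function.update p g w) (Function.update q g w')) :
    ∑ p, ∑ q, F p q = ∑ p, ∑ q, G p q := by
  classical
  rw [← sub_eq_zero, ← Finset.sum_sub_distrib]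
  apply sum_pi_eq_zero g
  intro p
  simp only [← Finset.sum_sub_distrib]
  rw [Finset.sum_comm]
  apply sum_pi_eq_zero g
  intro q
  have h2 := h p q
  rw [← sub_eq_zero, ← Finset.sum_sub_distrib] at h2
  rw [← h2, Finset.sum_comm]
  apply Finset.sum_congr rfl
  intro w _
  rw [Finset.sum_sub_distrib]

/-! ## The functionals -/

/-- weight of a word of all groups: the vector in the groups of `J`, the word `w0` in the others -/
noncomputable def wt (w0 : W) (b : Fin s → W → K) (J : Finset (Fin s)) (p : Fin s → W) : K :=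
  ∏ g, if g ∈ J then b g (p g) else if p g = w0 then 1 else 0

theorem wt_update (w0 : W) (b : Fin s → W → K) (J : Finset (Fin s)) (p : Fin s → W) (g : Fin s) (w : W) :
    wt w0 b J (Function.update p g w) = (if g ∈ J then b g w else if w = w0 then 1 else 0) *
      ∏ g' ∈ univ.erase g, if g' ∈ J then b g' (p g') else if p g' = w0 then 1 else 0 := by
  classical
  rw [wt, ← Finset.mul_prod_erase univ _ (Finset.mem_univ g), Function.update_self]
  congr 1
  apply Finset.prod_congr rfl
  intro g' hg'
  rw [Function.update_of_ne (Finset.ne_of_mem_erase hg')]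

/-- the functional -/
noncomputable def Lm (zu : W → U → Lu) (zv : W → V → Lv) (c : YZ s U V Lu Lv → K) (w0 : W)
    (b b' : Fin s → W → K) (J : Finset (Fin s)) : MvPolynomial (YZ s U V Lu Lv) K →ₗ[K] K :=
  ∑ p : Fin s → W, ∑ q : Fin s → W, (wt w0 b J p * wt w0 b' J q) •
    ((lcoeff K (full J : Bl s U V →₀ ℕ)).comp (fine zu zv c p q).toLinearMap)

theorem Lm_apply (zu : W → U → Lu) (zv : W → V → Lv) (c : YZ s U V Lu Lv → K) (w0 : W)
    (b b' : Fin s → W → K) (J : Finset (Fin s)) (H : MvPolynomial (YZ s U V Lu Lv) K) :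
    Lm zu zv c w0 b b' J H = ∑ p : Fin s → W, ∑ q : Fin s → W, wt w0 b J p * wt w0 b' J q *
      coeff (full J) (fine zu zv c p q H) := by
  simp [Lm, LinearMap.sum_apply]

/-! ## The monomials -/

theorem mon_empty (g : Fin s) : (mon g ∅ ∅ : Bl s U V →₀ ℕ) = 0 := by
  ext t; rcases t with ⟨g', i⟩ | ⟨g', j⟩ <;> simp [mon]

theorem mon_le {J : Finset (Fin s)} {g : Fin s} (hg : g ∈ J) (S : Finset U) (S' : Finset V) :
    (mon g S S' : Bl s U V →₀ ℕ) ≤ full J := by
  intro t
  rcases t with ⟨g', i⟩ | ⟨g', j⟩
  · simp only [mon, full, Finsupp.equivFunOnFinite_symm_apply_apply, Sum.elim_inl]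
    split_ifs with h1 h2 h2
    · exact le_refl _
    · exact absurd (h1.1 ▸ hg) h2
    · exact Nat.zero_le _
    · exact le_refl _
  · simp only [mon, full, Finsupp.equivFunOnFinite_symm_apply_apply, Sum.elim_inr]
    split_ifs with h1 h2 h2
    · exact le_refl _
    · exact absurd (h1.1 ▸ hg) h2
    · exact Nat.zero_le _
    · exact le_refl _

theorem not_mon_le {J : Finset (Fin s)} {g : Fin s} (hg : g ∉ J) {S : Finset U} {S' : Finset V}
    (h : ¬ (S = ∅ ∧ S' = ∅)) : ¬ (mon g S S' : Bl s U V →₀ ℕ) ≤ full J := by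
  intro hle
  by_cases hS : S = ∅
  · have hS' : S' ≠ ∅ := fun h' => h ⟨hS, h'⟩
    obtain ⟨j, hj⟩ := Finset.nonempty_iff_ne_empty.2 hS'
    have := hle (Sum.inr (g, j))
    simp [mon, full, hj, hg] at this
  · obtain ⟨i, hi⟩ := Finset.nonempty_iff_ne_empty.2 hS
    have := hle (Sum.inl (g, i))
    simp [mon, full, hi, hg] at this

theorem full_sub_univ {J : Finset (Fin s)} {g : Fin s} :
    (full J : Bl s U V →₀ ℕ) - mon g univ univ = full (J.erase g) := by
  ext t
  rcases t with ⟨g', i⟩ | ⟨g', j⟩
  · simp only [mon, full, Finsupp.coe_tsub, Pi.sub_apply, Finsupp.equivFunOnFinite_symm_apply_apply,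
      Sum.elim_inl, Finset.mem_univ, and_true, Finset.mem_erase]
    by_cases h1 : g' = g
    · by_cases h2 : g' ∈ J <;> simp [h1, h1 ▸ h2]
    · by_cases h2 : g' ∈ J <;> simp [h1, h2]
  · simp only [mon, full, Finsupp.coe_tsub, Pi.sub_apply, Finsupp.equivFunOnFinite_symm_apply_apply,
      Sum.elim_inr, Finset.mem_univ, and_true, Finset.mem_erase]
    by_cases h1 : g' = g
    · by_cases h2 : g' ∈ J <;> simp [h1, h1 ▸ h2]
    · by_cases h2 : g' ∈ J <;> simp [h1, h2]

theorem sub_inl {J : Finset (Fin s)} {g : Fin s} {S : Finset U} {S' : Finset V} {i : U}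
    (h : ((full J : Bl s U V →₀ ℕ) - mon g S S') (Sum.inl (g, i)) ≠ 0) : i ∉ S := by
  intro hi
  apply h
  simp only [mon, full, Finsupp.coe_tsub, Pi.sub_apply, Finsupp.equivFunOnFinite_symm_apply_apply,
      Sum.elim_inl, true_and, if_pos hi]
  split_ifs <;> rfl

theorem sub_inr {J : Finset (Fin s)} {g : Fin s} {S : Finset U} {S' : Finset V} {j : V}
    (h : ((full J : Bl s U V →₀ ℕ) - mon g S S') (Sum.inr (g, j)) ≠ 0) : j ∉ S' := by
  intro hi
  apply h
  simp only [mon, full, Finsupp.coe_tsub, Pi.sub_apply, Finsupp.equivFunOnFinite_symm_apply_apply,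
      Sum.elim_inr, true_and, if_pos hi]
  split_ifs <;> rfl

/-! ## The rules -/

/-- the term of a part -/
noncomputable def term (zu : W → U → Lu) (zv : W → V → Lv) (c : YZ s U V Lu Lv → K) (w0 : W)
    (b b' : Fin s → W → K) (J : Finset (Fin s)) (g : Fin s) (H : MvPolynomial (YZ s U V Lu Lv) K)
    (S : Finset U) (S' : Finset V) (p q : Fin s → W) : K :=
  wt w0 b J p * wt w0 b' J q * (if (mon g S S' : Bl s U V →₀ ℕ) ≤ full J then
    FP zu zv c g S S' (p g) (q g) * coeff (full J - mon g S S') (fine zu zv c p q H) else 0)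

theorem Lm_fg_mul (zu : W → U → Lu) (zv : W → V → Lv) (c : YZ s U V Lu Lv → K) (w0 : W)
    (b b' : Fin s → W → K) (J : Finset (Fin s)) (g : Fin s) (H : MvPolynomial (YZ s U V Lu Lv) K) :
    Lm zu zv c w0 b b' J (fg K s zu zv g * H) =
      ∑ SS : Finset U × Finset V, ∑ p, ∑ q, term zu zv c w0 b b' J g H SS.1 SS.2 p q := by
  rw [Lm_apply]
  have h1 : ∀ p q : Fin s → W, wt w0 b J p * wt w0 b' J q *
      coeff (full J) (fine zu zv c p q (fg K s zu zv g * H)) =
      ∑ SS : Finset U × Finset V, term zu zv c w0 b b' J g H SS.1 SS.2 p q := by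
    intro p q
    rw [map_mul, fine_fg, Finset.sum_mul, coeff_sum, Finset.mul_sum, Fintype.sum_prod_type]
    apply Finset.sum_congr rfl
    intro S _
    rw [Finset.sum_mul, coeff_sum, Finset.mul_sum]
    apply Finset.sum_congr rfl
    intro S' _
    rw [coeff_monomial_mul']
    rfl
  simp only [h1]
  rw [Finset.sum_congr rfl (fun p _ => Finset.sum_comm), Finset.sum_comm]

theorem term_empty (zu : W → U → Lu) (zv : W → V → Lv) (c : YZ s U V Lu Lv → K) (w0 : W)
    (b b' : Fin s → W → K) (J : Finset (Fin s)) (g : Fin s) (H : MvPolynomial (YZ s U V Lu Lv) K) :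
    ∑ p, ∑ q, term zu zv c w0 b b' J g H ∅ ∅ p q = eval c (fg K s zu zv g) * Lm zu zv c w0 b b' J H := by
  rw [Lm_apply, Finset.mul_sum]
  apply Finset.sum_congr rfl
  intro p _
  rw [Finset.mul_sum]
  apply Finset.sum_congr rfl
  intro q _
  rw [term, mon_empty, if_pos (zero_le (a := (full J : Bl s U V →₀ ℕ))), tsub_zero]
  have h1 : FP zu zv c g ∅ ∅ (p g) (q g) = eval c (fg K s zu zv g) := by
    rw [FP, part, fg, chain, map_sum]
    apply Finset.sum_congr rfl
    intro w _
    rw [map_mul, map_prod, map_prod]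
    simp
  rw [h1]
  ring

theorem term_out (zu : W → U → Lu) (zv : W → V → Lv) (c : YZ s U V Lu Lv → K) (w0 : W)
    (b b' : Fin s → W → K) (J : Finset (Fin s)) (g : Fin s) (H : MvPolynomial (YZ s U V Lu Lv) K)
    (hg : g ∉ J) (S : Finset U) (S' : Finset V) (h : ¬ (S = ∅ ∧ S' = ∅)) :
    ∑ p, ∑ q, term zu zv c w0 b b' J g H S S' p q = 0 := by
  apply Finset.sum_eq_zero
  intro p _
  apply Finset.sum_eq_zero
  intro q _
  rw [term, if_neg (not_mon_le hg h), mul_zero]

theorem term_full (zu : W → U → Lu) (zv : W → V → Lv) (hzu : Function.Injective zu)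
    (hzv : Function.Injective zv) (c : YZ s U V Lu Lv → K) (w0 : W)
    (b b' : Fin s → W → K) (J : Finset (Fin s)) (g : Fin s) (H : MvPolynomial (YZ s U V Lu Lv) K)
    (hg : g ∈ J) :
    ∑ p, ∑ q, term zu zv c w0 b b' J g H univ univ p q =
      (∑ w, b g w * b' g w) * Lm zu zv c w0 b b' (J.erase g) H := by
  have hne : Nonempty W := ⟨w0⟩
  rw [Lm_apply, Finset.mul_sum]
  have e0 : ∀ p : Fin s → W, (∑ w, b g w * b' g w) * ∑ q : Fin s → W, wt w0 b (J.erase g) p * wt w0 b' (J.erase g) q *
      coeff (full (J.erase g)) (fine zu zv c p q H) = ∑ q : Fin s → W, (∑ w, b g w * b' g w) *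
      (wt w0 b (J.erase g) p * wt w0 b' (J.erase g) q *
      coeff (full (J.erase g)) (fine zu zv c p q H)) := fun p => by rw [Finset.mul_sum]
  simp only [e0]
  apply sum_pi_congr g
  intro p q
  have hFP : ∀ w w', FP zu zv c g univ univ w w' = if w = w' then 1 else 0 := by
    intro w w'
    rw [FP, part]
    have e1 : ∀ v : W, (∏ i ∈ (univ : Finset U), if zu w i = zu v i then (1 : K) else 0) =
        if w = v then 1 else 0 := by
      intro v
      by_cases h : w = v
      · simp [h]
      · rw [if_neg h]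
        obtain ⟨i, hi⟩ := Function.ne_iff.1 (fun h' => h (hzu h'))
        exact Finset.prod_eq_zero (Finset.mem_univ i) (if_neg hi)
    have e2 : ∀ v : W, (∏ j ∈ (univ : Finset V), if zv w' j = zv v j then (1 : K) else 0) =
        if w' = v then 1 else 0 := by
      intro v
      by_cases h : w' = v
      · simp [h]
      · rw [if_neg h]
        obtain ⟨i, hi⟩ := Function.ne_iff.1 (fun h' => h (hzv h'))
        exact Finset.prod_eq_zero (Finset.mem_univ i) (if_neg hi)
    simp only [e1, e2, Finset.compl_univ, Finset.prod_empty, mul_one]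
    rw [Finset.sum_eq_single w]
    · by_cases h : w = w'
      · simp [h]
      · simp [h, Ne.symm h]
    · intro v _ hv
      rw [if_neg (Ne.symm hv), zero_mul]
    · intro h; exact absurd (Finset.mem_univ w) h
  have hco : ∀ w w', coeff (full (J.erase g)) (fine zu zv c (Function.update p g w) (Function.update q g w') H) =
      coeff (full (J.erase g)) (fine zu zv c p q H) := by
    intro w w'
    apply coeff_fine_congr
    · intro g' i hm
      have : g' ≠ g := by
        intro h
        apply hm
        simp [full, h]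
      rw [Function.update_of_ne this]
    · intro g' i hm
      have : g' ≠ g := by
        intro h
        apply hm
        simp [full, h]
      rw [Function.update_of_ne this]
  have hrest : ∀ (b : Fin s → W → K) (p : Fin s → W), (∏ g' ∈ univ.erase g, if g' ∈ J.erase g then b g' (p g') else if p g' = w0 then 1 else 0) =
      ∏ g' ∈ univ.erase g, if g' ∈ J then b g' (p g') else if p g' = w0 then 1 else 0 := by
    intro b p
    apply Finset.prod_congr rfl
    intro g' hg'
    have h1 : g' ≠ g := Finset.ne_of_mem_erase hg'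
    have h2 : g' ∈ J.erase g ↔ g' ∈ J := by rw [Finset.mem_erase]; exact ⟨fun h => h.2, fun h => ⟨h1, h⟩⟩
    simp only [h2]
  simp only [term, if_pos (mon_le hg univ univ), full_sub_univ, wt_update, Function.update_self, hFP, hco,
    if_pos hg, if_neg (Finset.notMem_erase g J), hrest]
  set R := ∏ g' ∈ univ.erase g, if g' ∈ J then b g' (p g') else if p g' = w0 then 1 else 0
  set R' := ∏ g' ∈ univ.erase g, if g' ∈ J then b' g' (q g') else if q g' = w0 then 1 else 0
  set Y := coeff (full (J.erase g)) (fine zu zv c p q H)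
  have e1 : ∀ w : W, ∑ w' : W, b g w * R * (b' g w' * R') * ((if w = w' then 1 else 0) * Y) =
      b g w * b' g w * (R * R' * Y) := by
    intro w
    rw [Finset.sum_eq_single w]
    · rw [if_pos rfl]; ring
    · intro w' _ h
      rw [if_neg (Ne.symm h)]; ring
    · intro h; exact absurd (Finset.mem_univ w) h
  have e2 : ∀ w : W, ∑ w' : W, (∑ w, b g w * b' g w) *
      ((if w = w0 then 1 else 0) * R * ((if w' = w0 then 1 else 0) * R') * Y) =
      (if w = w0 then 1 else 0) * ((∑ w, b g w * b' g w) * (R * R' * Y)) := by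
    intro w
    rw [Finset.sum_eq_single w0]
    · rw [if_pos rfl]; ring
    · intro w' _ h
      rw [if_neg h]; ring
    · intro h; exact absurd (Finset.mem_univ w0) h
  rw [Finset.sum_congr rfl (fun w _ => e1 w), Finset.sum_congr rfl (fun w _ => e2 w), ← Finset.sum_mul,
    ← Finset.sum_mul]
  simp

theorem term_row (zu : W → U → Lu) (zv : W → V → Lv) (c : YZ s U V Lu Lv → K) (w0 : W)
    (b b' : Fin s → W → K) (J : Finset (Fin s)) (g : Fin s) (H : MvPolynomial (YZ s U V Lu Lv) K)
    (hg : g ∈ J) (S : Finset U) (S' : Finset V)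
    (hb : ∀ (w' : W) (ψ : W → K), (∀ w w1, (∀ i, i ∉ S → zu w i = zu w1 i) → ψ w = ψ w1) →
      ∑ w, b g w * FP zu zv c g S S' w w' * ψ w = 0) :
    ∑ p, ∑ q, term zu zv c w0 b b' J g H S S' p q = 0 := by
  have hne : Nonempty W := ⟨w0⟩
  have e0 : ∑ p : Fin s → W, ∑ q : Fin s → W, (0 : K) = 0 := by simp
  rw [← e0]
  apply sum_pi_congr g
  intro p q
  simp only [Finset.sum_const_zero]
  rw [Finset.sum_comm]
  apply Finset.sum_eq_zero
  intro w' _
  have h1 := hb w' (fun w => coeff (full J - mon g S S')
    (fine zu zv c (Function.update p g w) (Function.update q g w') H)) (by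
      intro w w1 hw
      apply coeff_fine_congr
      · intro g' i hm
        by_cases h : g' = g
        · subst h
          rw [Function.update_self, Function.update_self]
          exact hw i (sub_inl hm)
        · rw [Function.update_of_ne h, Function.update_of_ne h]
      · intro g' j hm
        rfl)
  simp only [term, if_pos (mon_le hg S S'), wt_update, Function.update_self, if_pos hg]
  set R := ∏ g' ∈ univ.erase g, if g' ∈ J then b g' (p g') else if p g' = w0 then 1 else 0
  set R' := ∏ g' ∈ univ.erase g, if g' ∈ J then b' g' (q g') else if q g' = w0 then 1 else 0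
  have h2 := congrArg (fun t => R * (b' g w' * R') * t) h1
  simp only [mul_zero, Finset.mul_sum] at h2
  rw [← h2]
  apply Finset.sum_congr rfl
  intro w _
  ring

theorem term_col (zu : W → U → Lu) (zv : W → V → Lv) (c : YZ s U V Lu Lv → K) (w0 : W)
    (b b' : Fin s → W → K) (J : Finset (Fin s)) (g : Fin s) (H : MvPolynomial (YZ s U V Lu Lv) K)
    (hg : g ∈ J) (S : Finset U) (S' : Finset V)
    (hb : ∀ (w : W) (ψ : W → K), (∀ w' w1, (∀ j, j ∉ S' → zv w' j = zv w1 j) → ψ w' = ψ w1) →
      ∑ w', b' g w' * FP zu zv c g S S' w w' * ψ w' = 0) :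
    ∑ p, ∑ q, term zu zv c w0 b b' J g H S S' p q = 0 := by
  have hne : Nonempty W := ⟨w0⟩
  have e0 : ∑ p : Fin s → W, ∑ q : Fin s → W, (0 : K) = 0 := by simp
  rw [← e0]
  apply sum_pi_congr g
  intro p q
  simp only [Finset.sum_const_zero]
  apply Finset.sum_eq_zero
  intro w _
  have h1 := hb w (fun w' => coeff (full J - mon g S S')
    (fine zu zv c (Function.update p g w) (Function.update q g w') H)) (by
      intro w' w1 hw
      apply coeff_fine_congr
      · intro g' i hm
        rfl
      · intro g' j hm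
        by_cases h : g' = g
        · subst h
          rw [Function.update_self, Function.update_self]
          exact hw j (sub_inr hm)
        · rw [Function.update_of_ne h, Function.update_of_ne h])
  simp only [term, if_pos (mon_le hg S S'), wt_update, Function.update_self, if_pos hg]
  set R := ∏ g' ∈ univ.erase g, if g' ∈ J then b g' (p g') else if p g' = w0 then 1 else 0
  set R' := ∏ g' ∈ univ.erase g, if g' ∈ J then b' g' (q g') else if q g' = w0 then 1 else 0
  have h2 := congrArg (fun t => b g w * R * R' * t) h1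
  simp only [mul_zero, Finset.mul_sum] at h2
  rw [← h2]
  apply Finset.sum_congr rfl
  intro w' _
  ring

/-! ## The coarse coefficient -/

/-- identify all `lam_(g,i)` and all `mu_(g,j)` -/
noncomputable def crs : MvPolynomial (Bl s U V) K →ₐ[K] Ser K :=
  aeval (Sum.elim (fun _ => lam K) (fun _ => mu K))

theorem algebraMap_ser (x : K) : algebraMap K (Ser K) x = cst x := by
  rw [PowerSeries.algebraMap_apply, PowerSeries.algebraMap_apply]
  rfl

theorem crs_fine (zu : W → U → Lu) (zv : W → V → Lv) (c : YZ s U V Lu Lv → K) (p q : Fin s → W)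
    (H : MvPolynomial (YZ s U V Lu Lv) K) :
    crs (fine zu zv c p q H) = aeval (line zu zv c p q) H := by
  have h : (crs : MvPolynomial (Bl s U V) K →ₐ[K] Ser K).comp (fine zu zv c p q) =
      aeval (line zu zv c p q) := by
    apply MvPolynomial.algHom_ext
    rintro (⟨g, i, a⟩ | ⟨g, j, b⟩)
    · rw [AlgHom.comp_apply, fine, aeval_X, aeval_X, Sum.elim_inl, map_add, line, crs, ← algebraMap_eq,
        AlgHom.commutes, algebraMap_ser]
      refine congrArg _ ?_
      dsimp only
      split_ifs
      · rw [aeval_X, Sum.elim_inl, Pool.Agent.Helper87.D3.cst_one, mul_one]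
      · rw [map_zero, Pool.Agent.Helper87.D3.cst_zero, mul_zero]
    · rw [AlgHom.comp_apply, fine, aeval_X, aeval_X, Sum.elim_inr, map_add, line, crs, ← algebraMap_eq,
        AlgHom.commutes, algebraMap_ser]
      refine congrArg _ ?_
      dsimp only
      split_ifs
      · rw [aeval_X, Sum.elim_inr, Pool.Agent.Helper87.D3.cst_one, mul_one]
      · rw [map_zero, Pool.Agent.Helper87.D3.cst_zero, mul_zero]
  exact DFunLike.congr_fun h H

/-- the monomials of degree `r` in `lam` and `E` in `mu` -/
noncomputable def Box (r E : ℕ) : Finset (Bl s U V →₀ ℕ) :=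
  (Finset.finsuppAntidiag univ (r + E)).filter
    (fun m => (∑ t, m (Sum.inl t)) = r ∧ (∑ t, m (Sum.inr t)) = E)

theorem mem_Box {r E : ℕ} {m : Bl s U V →₀ ℕ} :
    m ∈ (Box r E : Finset (Bl s U V →₀ ℕ)) ↔ (∑ t, m (Sum.inl t)) = r ∧ (∑ t, m (Sum.inr t)) = E := by
  rw [Box, Finset.mem_filter, Finset.mem_finsuppAntidiag]
  constructor
  · exact fun h => h.2
  · intro h
    refine ⟨⟨?_, Finset.subset_univ _⟩, h⟩
    rw [Fintype.sum_sum_type, h.1, h.2]

theorem cf_crs (r E : ℕ) (P : MvPolynomial (Bl s U V) K) :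
    cf r E (crs P) = ∑ m ∈ (Box r E : Finset (Bl s U V →₀ ℕ)), coeff m P := by
  classical
  induction P using MvPolynomial.induction_on' with
  | monomial n a =>
    have e1 : crs (monomial n a : MvPolynomial (Bl s U V) K) =
        lam K ^ (∑ t, n (Sum.inl t)) * mu K ^ (∑ t, n (Sum.inr t)) * cst a := by
      rw [crs, aeval_monomial, Finsupp.prod_fintype _ _ (by simp), Fintype.prod_sum_type, algebraMap_ser]
      simp only [Sum.elim_inl, Sum.elim_inr, Finset.prod_pow_eq_pow_sum]
      ring
    rw [e1, Pool.Agent.Helper87.D3.cf_lam_pow_mul]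
    simp only [coeff_monomial]
    rw [Finset.sum_ite_eq]
    by_cases h : n ∈ (Box r E : Finset (Bl s U V →₀ ℕ))
    · rw [if_pos h, if_pos]
      rw [mem_Box] at h
      exact ⟨h.1.symm, h.2.symm⟩
    · rw [if_neg h, if_neg]
      intro h'
      exact h (mem_Box.2 ⟨h'.1.symm, h'.2.symm⟩)
  | add P Q hP hQ =>
    rw [map_add, Pool.Agent.Helper87.D3.cf_add, hP, hQ, ← Finset.sum_add_distrib]
    simp only [coeff_add]

theorem full_mem_Box : (full univ : Bl s U V →₀ ℕ) ∈
    (Box (s * Fintype.card U) (s * Fintype.card V) : Finset (Bl s U V →₀ ℕ)) := by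
  rw [mem_Box]
  constructor
  · simp [full]
  · simp [full]

/-- a monomial of the box other than the full one misses a block -/
theorem exists_zero {m : Bl s U V →₀ ℕ}
    (hm : m ∈ (Box (s * Fintype.card U) (s * Fintype.card V) : Finset (Bl s U V →₀ ℕ)))
    (hne : m ≠ full univ) : ∃ t, m t = 0 := by
  by_contra hcon
  push Not at hcon
  apply hne
  rw [mem_Box] at hm
  have h1 : ∀ t, m (Sum.inl t) = 1 := by
    have h2 : ∑ t : Fin s × U, (1 : ℕ) = ∑ t : Fin s × U, m (Sum.inl t) := by rw [hm.1]; simp
    have h3 := (Finset.sum_eq_sum_iff_of_le (fun t _ => Nat.one_le_iff_ne_zero.2 (hcon (Sum.inl t)))).1 h2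
    exact fun t => (h3 t (Finset.mem_univ t)).symm
  have h2 : ∀ t, m (Sum.inr t) = 1 := by
    have h2 : ∑ t : Fin s × V, (1 : ℕ) = ∑ t : Fin s × V, m (Sum.inr t) := by rw [hm.2]; simp
    have h3 := (Finset.sum_eq_sum_iff_of_le (fun t _ => Nat.one_le_iff_ne_zero.2 (hcon (Sum.inr t)))).1 h2
    exact fun t => (h3 t (Finset.mem_univ t)).symm
  ext t
  rcases t with t | t
  · simp [full, h1]
  · simp [full, h2]

theorem wt_univ (w0 : W) (b : Fin s → W → K) (p : Fin s → W) : wt w0 b univ p = ∏ g, b g (p g) := by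
  rw [wt]
  simp

/-- the functional of all groups is the compressed matrix -/
theorem Lm_univ (zu : W → U → Lu) (zv : W → V → Lv) (c : YZ s U V Lu Lv → K) (w0 : W)
    (b b' : Fin s → W → K)
    (hb : ∀ g (i : U) (ψ : W → K), (∀ w w1, (∀ i', i' ≠ i → zu w i' = zu w1 i') → ψ w = ψ w1) →
      ∑ w, b g w * ψ w = 0)
    (hb' : ∀ g (j : V) (ψ : W → K), (∀ w w1, (∀ j', j' ≠ j → zv w j' = zv w1 j') → ψ w = ψ w1) →
      ∑ w, b' g w * ψ w = 0) (H : MvPolynomial (YZ s U V Lu Lv) K) :
    Lm zu zv c w0 b b' univ H = ∑ p : Fin s → W, ∑ q : Fin s → W,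
      (∏ g, b g (p g)) * (∏ g, b' g (q g)) * Mx zu zv c H p q := by
  classical
  have hne : Nonempty W := ⟨w0⟩
  have e1 : ∀ p q : Fin s → W, Mx zu zv c H p q =
      ∑ m ∈ (Box (s * Fintype.card U) (s * Fintype.card V) : Finset (Bl s U V →₀ ℕ)),
        coeff m (fine zu zv c p q H) := by
    intro p q
    rw [Mx, ← crs_fine, cf_crs]
  have e2 : ∀ p q : Fin s → W, (∏ g, b g (p g)) * (∏ g, b' g (q g)) * Mx zu zv c H p q =
      ∑ m ∈ (Box (s * Fintype.card U) (s * Fintype.card V) : Finset (Bl s U V →₀ ℕ)),
        wt w0 b univ p * wt w0 b' univ q * coeff m (fine zu zv c p q H) := by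
    intro p q
    rw [e1, Finset.mul_sum, wt_univ, wt_univ]
  simp only [e2]
  rw [Finset.sum_congr rfl (fun p _ => Finset.sum_comm), Finset.sum_comm,
    Finset.sum_eq_single (full univ)]
  · rw [Lm_apply]
  · intro m hm hmne
    obtain ⟨t, ht⟩ := exists_zero hm hmne
    have e0 : ∑ p : Fin s → W, ∑ q : Fin s → W, (0 : K) = 0 := by simp
    rw [← e0]
    rcases t with ⟨g, i⟩ | ⟨g, j⟩
    · apply sum_pi_congr g
      intro p q
      simp only [Finset.sum_const_zero]
      rw [Finset.sum_comm]
      apply Finset.sum_eq_zero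
      intro w' _
      have h1 := hb g i (fun w => coeff m
        (fine zu zv c (Function.update p g w) (Function.update q g w') H)) (by
          intro w w1 hw
          apply coeff_fine_congr
          · intro g' i' hm'
            by_cases h : g' = g
            · subst h
              rw [Function.update_self, Function.update_self]
              apply hw
              intro hi
              rw [hi] at hm'
              exact hm' ht
            · rw [Function.update_of_ne h, Function.update_of_ne h]
          · intro g' j hm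
            rfl)
      simp only [wt_update, if_pos (Finset.mem_univ g)]
      set R := ∏ g' ∈ univ.erase g, if g' ∈ univ then b g' (p g') else if p g' = w0 then 1 else 0
      set R' := ∏ g' ∈ univ.erase g, if g' ∈ univ then b' g' (q g') else if q g' = w0 then 1 else 0
      have h2 := congrArg (fun t => R * (b' g w' * R') * t) h1
      simp only [mul_zero, Finset.mul_sum] at h2
      rw [← h2]
      apply Finset.sum_congr rfl
      intro w _
      ring
    · apply sum_pi_congr g
      intro p q
      simp only [Finset.sum_const_zero]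
      apply Finset.sum_eq_zero
      intro w _
      have h1 := hb' g j (fun w' => coeff m
        (fine zu zv c (Function.update p g w) (Function.update q g w') H)) (by
          intro w' w1 hw
          apply coeff_fine_congr
          · intro g' i' hm'
            rfl
          · intro g' j' hm'
            by_cases h : g' = g
            · subst h
              rw [Function.update_self, Function.update_self]
              apply hw
              intro hi
              rw [hi] at hm'
              exact hm' ht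
            · rw [Function.update_of_ne h, Function.update_of_ne h])
      simp only [wt_update, if_pos (Finset.mem_univ g)]
      set R := ∏ g' ∈ univ.erase g, if g' ∈ univ then b g' (p g') else if p g' = w0 then 1 else 0
      set R' := ∏ g' ∈ univ.erase g, if g' ∈ univ then b' g' (q g') else if q g' = w0 then 1 else 0
      have h2 := congrArg (fun t => b g w * R * R' * t) h1
      simp only [mul_zero, Finset.mul_sum] at h2
      rw [← h2]
      apply Finset.sum_congr rfl
      intro w' _
      ring
  · intro h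
    exact absurd full_mem_Box h

end RL

/-- ROW L -/
theorem rowL : RowL := by
  intro W U V Lu Lv _ _ _ _ _ _ _ _ K _ s k zu zv hv hzu hzv hW hUV c a a' hadm
  obtain ⟨w0⟩ := hW
  refine ⟨fun κ κ' J => RL.Lm zu zv c w0 (fun g => a g (κ g)) (fun g => a' g (κ' g)) J,
    ⟨?_, ?_, ?_⟩, ?_⟩
  · -- h0
    intro κ κ' H
    rw [RL.Lm_apply]
    have h1 : ∀ p q : Fin s → W, coeff (RL.full ∅) (RL.fine zu zv c p q H) = eval c H := by
      intro p q
      have h2 : (RL.full ∅ : RL.Bl s U V →₀ ℕ) = 0 := by
        ext t; rcases t with t | t <;> simp [RL.full]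
      rw [h2, ← constantCoeff_eq]
      have h3 : (constantCoeff (R := K) (σ := RL.Bl s U V)).comp (RL.fine zu zv c p q).toRingHom =
          eval c := by
        apply MvPolynomial.ringHom_ext
        · intro x
          simp [RL.fine]
        · rintro (⟨g, i, b⟩ | ⟨g, j, b⟩)
          · simp only [RL.fine, RingHom.comp_apply, AlgHom.toRingHom_eq_coe, RingHom.coe_coe, aeval_X,
              Sum.elim_inl, map_add, constantCoeff_C, eval_X]
            split_ifs <;> simp
          · simp only [RL.fine, RingHom.comp_apply, AlgHom.toRingHom_eq_coe, RingHom.coe_coe, aeval_X,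
              Sum.elim_inr, map_add, constantCoeff_C, eval_X]
            split_ifs <;> simp
      exact DFunLike.congr_fun h3 H
    simp only [h1]
    have h4 : ∀ (b : Fin s → W → K), ∑ p : Fin s → W, RL.wt w0 b ∅ p = 1 := by
      intro b
      rw [Finset.sum_eq_single (fun _ => w0)]
      · simp [RL.wt]
      · intro p _ hp
        obtain ⟨g, hg⟩ := Function.ne_iff.1 hp
        rw [RL.wt]
        apply Finset.prod_eq_zero (Finset.mem_univ g)
        simp only [Finset.notMem_empty, if_false]
        exact if_neg hg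
      · intro h; exact absurd (Finset.mem_univ _) h
    simp only [← Finset.sum_mul, ← Finset.mul_sum]
    rw [h4, h4]
    ring
  · -- h1
    intro κ κ' J g H hg
    rw [RL.Lm_fg_mul, Fintype.sum_eq_single (∅, ∅), RL.term_empty]
    intro SS hSS
    apply RL.term_out (hg := hg)
    intro h
    exact hSS (Prod.ext h.1 h.2)
  · -- h2
    intro κ κ' J g H hg
    have hne : ((∅, ∅) : Finset U × Finset V) ≠ (univ, univ) := by
      intro h
      rw [Prod.mk.injEq] at h
      rcases hUV with ⟨⟨u⟩⟩ | ⟨⟨v⟩⟩
      · have := Finset.mem_univ u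
        rw [← h.1] at this
        exact Finset.notMem_empty u this
      · have := Finset.mem_univ v
        rw [← h.2] at this
        exact Finset.notMem_empty v this
    rw [RL.Lm_fg_mul, Fintype.sum_eq_add _ _ hne, RL.term_empty, RL.term_full zu zv hzu hzv c w0 _ _ J g H hg,
      (hadm g).dual]
    rintro ⟨S, S'⟩ ⟨h1, h2⟩
    have hP : Proper S S' := ⟨fun h => h1 (Prod.ext h.1 h.2), fun h => h2 (Prod.ext h.1 h.2)⟩
    by_cases hh : hv S S'
    · exact RL.term_row zu zv c w0 _ _ J g H hg S S' ((hadm g).row (κ g) S S' hP hh)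
    · exact RL.term_col zu zv c w0 _ _ J g H hg S S' ((hadm g).col (κ' g) S S' hP hh)
  · intro κ κ' H
    simp only
    rw [RL.Lm_univ zu zv c w0 _ _ (fun g => (hadm g).row1 (κ g)) (fun g => (hadm g).col1 (κ' g)) H]
    rfl

end Pool.MCD
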