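import Pool.Agent.CDep.Plug
import Pool.Agent.CDep.Blocks
import Pool.Agent.MCD.Core
import Pool.Agent.MCD.Red
import Pool.Agent.MCD.RowL

/-! # MCD: the bridge from the multiples of the permanent to the machine (helper76) -/

set_option autoImplicit false
set_option linter.unusedSectionVars false

namespace Pool.MCD

open Finset MvPolynomial
open Pool.Agent.Helper87.D3
open Pool.CDep Pool.CD

section compressed

variable {K : Type} [Field K]

/-- a regular compressed matrix bounds the number of products -/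
theorem card_le_of_rankLe_compressed {X Y : Type} [Fintype X] [Fintype Y] [DecidableEq Y] {N : ℕ}
    {f : X × X → K} (hf : RankLe N f) (P Q : Y → X → K)
    (hdet : (Matrix.of fun u v => ∑ p, ∑ p', P u p * Q v p' * f (p, p')).det ≠ 0) :
    Fintype.card Y ≤ N := by
  obtain ⟨a, b, rfl⟩ := hf
  refine card_le_of_rankLe (X := Y) (f := fun uv => ∑ p, ∑ p', P uv.1 p * Q uv.2 p' *
    ∑ i, a i p * b i p') ?_ hdet
  refine ⟨fun i u => ∑ p, P u p * a i p, fun i v => ∑ p', Q v p' * b i p', ?_⟩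
  ext uv
  have e1 : ∀ p : X, ∑ p' : X, P uv.1 p * Q uv.2 p' * ∑ i, a i p * b i p' =
      ∑ i, ∑ p' : X, (P uv.1 p * a i p) * (Q uv.2 p' * b i p') := by
    intro p
    simp only [Finset.mul_sum]
    rw [Finset.sum_comm]
    refine Finset.sum_congr rfl fun i _ => Finset.sum_congr rfl fun p' _ => ?_
    ring
  simp only [e1]
  rw [Finset.sum_comm]
  refine Finset.sum_congr rfl fun i _ => ?_
  rw [Finset.sum_mul_sum]

/-- THE RANK BOUND for compressed matrices of pairs of words -/
theorem card_le_compressed {N h A B : ℕ} (hh : 1 ≤ h) {lu lv : Fin N → ℕ}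
    (hA : ∀ t, (univ.filter fun d => lu d = t).card ≤ A)
    (hB : ∀ t, (univ.filter fun d => lv d = t).card ≤ B)
    {f : Fw K N h} {Y : Type} [Fintype Y] [DecidableEq Y] (P Q : Y → Wo N h → K)
    (hdet : (Matrix.of fun u v => ∑ p, ∑ p', P u p * Q v p' * f (p, p')).det ≠ 0) {κ : ℝ}
    (h1 : Nu (WV K h lv) (WU K h lu) ((h : ℝ) ^ B) ((h : ℝ) ^ A) f κ) :
    (Fintype.card Y : ℝ) ≤ 2 ^ ((univ.image lu).card + (univ.image lv).card) * κ := by
  have h0v : (0 : ℝ) ≤ (h : ℝ) ^ B := by positivity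
  have h0u : (0 : ℝ) ≤ (h : ℝ) ^ A := by positivity
  have h2 : RankLe (⌊(((2 ^ (univ.image lv).card : ℕ) : ℝ) *
      ((2 ^ (univ.image lu).card : ℕ) : ℝ)) * κ⌋₊) f := by
    refine Nu.rank (cV := 2 ^ (univ.image lv).card) (cU := 2 ^ (univ.image lu).card) ?_ ?_ h0v h1
      (Nat.lt_floor_add_one _)
    · intro x g hg
      refine ⟨_, le_of_eq ?_, rank_WV hh hB hg⟩
      push_cast
      rfl
    · intro x g hg
      refine ⟨_, le_of_eq ?_, rank_WU hh hA hg⟩
      push_cast
      rfl
  have h3 := card_le_of_rankLe_compressed h2 P Q hdet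
  have hκ : 0 ≤ κ := Nu.nonneg h0v h0u h1
  have h4 : (Fintype.card Y : ℝ) ≤ (((2 ^ (univ.image lv).card : ℕ) : ℝ) *
      ((2 ^ (univ.image lu).card : ℕ) : ℝ)) * κ :=
    (Nat.cast_le.2 h3).trans (Nat.floor_le (by positivity))
  refine h4.trans (le_of_eq ?_)
  push_cast
  rw [pow_add]
  ring

end compressed

section value

variable {K : Type} [Field K] {N h : ℕ} {σ : Type}

/-- the value of the substitution at a pair of words -/
theorem cf_PhiW (c : σ → K) (a b : σ → Wo N h → K) (r E : ℕ) (G : MvPolynomial σ K)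
    (p p' : Wo N h) : cf r E (PhiW c a b G) (p, p') =
      cf r E (aeval (fun i => cst (c i) + lam K * cst (a i p) + mu K * cst (b i p')) G) := by
  have h1 : ((serMap (Pi.evalRingHom (fun _ : Wo N h × Wo N h => K) (p, p'))).comp
      (PhiW c a b).toRingHom) =
      (aeval (fun i => cst (c i) + lam K * cst (a i p) + mu K * cst (b i p')) :
        MvPolynomial σ K →ₐ[K] Ser K).toRingHom := by
    apply MvPolynomial.ringHom_ext
    · intro x
      simp only [RingHom.comp_apply, AlgHom.toRingHom_eq_coe, RingHom.coe_coe]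
      rw [← MvPolynomial.algebraMap_eq, AlgHom.commutes, AlgHom.commutes, algebraMap_ser',
        serMap_cst, algebraMap_ser']
      rfl
    · intro i
      simp only [RingHom.comp_apply, AlgHom.toRingHom_eq_coe, RingHom.coe_coe, PhiW, aeval_X, map_add,
        map_mul, serMap_cst, serMap_lam, serMap_mu]
      rfl
  have h2 := DFunLike.congr_fun h1 G
  simp only [RingHom.comp_apply, AlgHom.toRingHom_eq_coe, RingHom.coe_coe] at h2
  rw [← h2, cf_serMap]
  rfl

end value

section words

/-- words of all groups as words of digits -/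
def wordEquiv (s M h : ℕ) : Wo (s * M) h ≃ (Fin s → Fin M → Fin h) :=
  (Equiv.arrowCongr finProdFinEquiv.symm (Equiv.refl _)).trans (Equiv.curry _ _ _)

theorem wordEquiv_apply (s M h : ℕ) (p : Wo (s * M) h) (g : Fin s) (x : Fin M) :
    wordEquiv s M h p g x = p (finProdFinEquiv (g, x)) := rfl

variable {K : Type} [Field K]

theorem mem_WGen_u {s A B h : ℕ} (hA : 1 ≤ A) (g : Fin s) (i : Fin B) (l : Fin A → Fin h) :
    (fun p : Wo (s * (A * B)) h =>
      if ru A B h (wordEquiv s (A * B) h p g) i = l then (1 : K) else 0) ∈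
      WGen K h (tu A (s * (A * B))) 1 := by
  have hlab : ∀ k : Fin A, tu A (s * (A * B)) (finProdFinEquiv (g, ⟨i.val * A + k.val, dig_lt i k⟩)) =
      2 * (A * (i.val + B * g.val)) := by
    intro k
    rw [tu]
    have e1 : (finProdFinEquiv (g, (⟨i.val * A + k.val, dig_lt i k⟩ : Fin (A * B)))).val =
        k.val + A * (i.val + B * g.val) := by
      simp only [finProdFinEquiv_apply_val]
      ring
    rw [e1, Nat.add_mul_div_left _ _ hA, Nat.div_eq_of_lt k.2, zero_add]
  refine ⟨{2 * (A * (i.val + B * g.val))}, ?_, by simp, ?_⟩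
  · intro t ht
    rw [Finset.mem_singleton] at ht
    rw [Finset.mem_image]
    exact ⟨_, Finset.mem_univ _, (hlab ⟨0, hA⟩).trans ht.symm⟩
  · intro p p' hp
    have e : ru A B h (wordEquiv s (A * B) h p g) i = ru A B h (wordEquiv s (A * B) h p' g) i := by
      funext k
      rw [ru, ru, wordEquiv_apply, wordEquiv_apply]
      apply hp
      rw [hlab]
      exact Finset.mem_singleton_self _
    dsimp only
    rw [e]

theorem mem_WGen_v {s A B h : ℕ} (hB : 1 ≤ B) (g : Fin s) (j : Fin A) (l : Fin B → Fin h) :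
    (fun p : Wo (s * (A * B)) h =>
      if rv A B h (wordEquiv s (A * B) h p g) j = l then (1 : K) else 0) ∈
      WGen K h (tv B (s * (A * B))) 1 := by
  have hlab : ∀ k : Fin B, tv B (s * (A * B)) (finProdFinEquiv (g, ⟨j.val * B + k.val, dig_lt' j k⟩)) =
      2 * (B * (j.val + A * g.val)) + 1 := by
    intro k
    rw [tv]
    have e1 : (finProdFinEquiv (g, (⟨j.val * B + k.val, dig_lt' j k⟩ : Fin (A * B)))).val =
        k.val + B * (j.val + A * g.val) := by
      simp only [finProdFinEquiv_apply_val]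
      ring
    rw [e1, Nat.add_mul_div_left _ _ hB, Nat.div_eq_of_lt k.2, zero_add]
  refine ⟨{2 * (B * (j.val + A * g.val)) + 1}, ?_, by simp, ?_⟩
  · intro t ht
    rw [Finset.mem_singleton] at ht
    rw [Finset.mem_image]
    exact ⟨_, Finset.mem_univ _, (hlab ⟨0, hB⟩).trans ht.symm⟩
  · intro p p' hp
    have e : rv A B h (wordEquiv s (A * B) h p g) j = rv A B h (wordEquiv s (A * B) h p' g) j := by
      funext k
      rw [rv, rv, wordEquiv_apply, wordEquiv_apply]
      apply hp
      rw [hlab]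
      exact Finset.mem_singleton_self _
    dsimp only
    rw [e]

theorem zero_mem_WGen {N h : ℕ} {l : Fin N → ℕ} : (fun _ => 0 : Wo N h → K) ∈ WGen K h l 1 :=
  ⟨∅, Finset.empty_subset _, by simp, fun _ _ _ => rfl⟩

end words

section main

variable {K : Type} [Field K] [CharZero K] {A B h s n k : ℕ}

/-- the constants of the substitution -/
def cc (Fam : Fin n → Fin n → ℤ ⊕ (Fin s ⊕ YD s A B h)) (x : Fin s → K) (y : YD s A B h → K)
    (z : Fin n × Fin n → K) (ij : Fin n × Fin n) : K :=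
  entry x y (Fam ij.1 ij.2) + z ij

/-- the coefficients of `lam` -/
def ca (Fam : Fin n → Fin n → ℤ ⊕ (Fin s ⊕ YD s A B h)) (ij : Fin n × Fin n)
    (p : Wo (s * (A * B)) h) : K :=
  match Fam ij.1 ij.2 with
  | Sum.inr (Sum.inr (Sum.inl (g, i, l))) =>
    if ru A B h (wordEquiv s (A * B) h p g) i = l then (1 : K) else 0
  | _ => 0

/-- the coefficients of `mu` -/
def cb (Fam : Fin n → Fin n → ℤ ⊕ (Fin s ⊕ YD s A B h)) (ij : Fin n × Fin n)
    (p : Wo (s * (A * B)) h) : K :=
  match Fam ij.1 ij.2 with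
  | Sum.inr (Sum.inr (Sum.inr (g, j, l))) =>
    if rv A B h (wordEquiv s (A * B) h p g) j = l then (1 : K) else 0
  | _ => 0

theorem ca_mem (hA : 1 ≤ A) (Fam : Fin n → Fin n → ℤ ⊕ (Fin s ⊕ YD s A B h)) (ij : Fin n × Fin n) :
    (ca Fam ij : Wo (s * (A * B)) h → K) ∈ WGen K h (tu A (s * (A * B))) 1 := by
  have e : (ca Fam ij : Wo (s * (A * B)) h → K) = fun p => ca Fam ij p := rfl
  rw [e]
  unfold ca
  rcases hF : Fam ij.1 ij.2 with m | g | ⟨g, i, l⟩ | ⟨g, j, l⟩
  · exact zero_mem_WGen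
  · exact zero_mem_WGen
  · exact mem_WGen_u hA g i l
  · exact zero_mem_WGen

theorem cb_mem (hB : 1 ≤ B) (Fam : Fin n → Fin n → ℤ ⊕ (Fin s ⊕ YD s A B h)) (ij : Fin n × Fin n) :
    (cb Fam ij : Wo (s * (A * B)) h → K) ∈ WGen K h (tv B (s * (A * B))) 1 := by
  have e : (cb Fam ij : Wo (s * (A * B)) h → K) = fun p => cb Fam ij p := rfl
  rw [e]
  unfold cb
  rcases hF : Fam ij.1 ij.2 with m | g | ⟨g, i, l⟩ | ⟨g, j, l⟩
  · exact zero_mem_WGen
  · exact zero_mem_WGen
  · exact zero_mem_WGen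
  · exact mem_WGen_v hB g j l

/-- the entries in the variables -/
noncomputable def psiM (K : Type) [Field K] (Fam : Fin n → Fin n → ℤ ⊕ (Fin s ⊕ YD s A B h)) (ij : Fin n × Fin n) :
    MvPolynomial (Fin s ⊕ YD s A B h) K :=
  entry (fun g => X (Sum.inl g)) (fun v => X (Sum.inr v)) (Fam ij.1 ij.2)

theorem aeval_psiM (Fam : Fin n → Fin n → ℤ ⊕ (Fin s ⊕ YD s A B h))
    (hFam : ∀ (R : Type) [CommRing R] (x : Fin s → R) (y : YD s A B h → R),
      (Matrix.of fun i j => entry x y (Fam i j)).permanent =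
        ∏ g, (x g + chain (ru A B h) (rv A B h) (fun i b => y (Sum.inl (g, i, b)))
          (fun j b => y (Sum.inr (g, j, b))))) :
    aeval (psiM K Fam) (permP n K) =
      ∏ g : Fin s, (X (Sum.inl g) + rename Sum.inr (fg K s (ru A B h) (rv A B h) g)) := by
  have h1 : aeval (psiM K Fam) (permP n K) =
      (Matrix.of fun i j => entry (fun g => (X (Sum.inl g) : MvPolynomial (Fin s ⊕ YD s A B h) K))
        (fun v => X (Sum.inr v)) (Fam i j)).permanent := by
    unfold permP
    have h2 := map_permanent' (aeval (psiM K Fam) : MvPolynomial (Fin n × Fin n) K →ₐ[K]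
      MvPolynomial (Fin s ⊕ YD s A B h) K).toRingHom
      (Matrix.of fun i j => (X (i, j) : MvPolynomial (Fin n × Fin n) K))
    refine Eq.trans h2 ?_
    congr 1
    refine Matrix.ext fun i j => ?_
    show aeval (psiM K Fam) (X (i, j)) = _
    rw [aeval_X]
    rfl
  rw [h1, hFam]
  refine Finset.prod_congr rfl fun g _ => ?_
  congr 1
  rw [fg, chain, chain, map_sum]
  refine Finset.sum_congr rfl fun w _ => ?_
  rw [map_mul, map_prod, map_prod]
  simp

/-- the value of the restriction at a pair of words -/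
theorem value_eq (Fam : Fin n → Fin n → ℤ ⊕ (Fin s ⊕ YD s A B h)) (xs : Fin s → K)
    (c : YD s A B h → K) (τ : K) (z : Fin n × Fin n → K) (G : MvPolynomial (Fin n × Fin n) K)
    (p p' : Wo (s * (A * B)) h) :
    Mx (ru A B h) (rv A B h) c (subst (fg K s (ru A B h) (rv A B h)) xs c τ
      (aeval (fun i => psiM K Fam i + C (z i)) G)) (wordEquiv s (A * B) h p) (wordEquiv s (A * B) h p') =
    cf (s * B) (s * A) (PhiW (cc Fam (fun g => τ * xs g - eval c (fg K s (ru A B h) (rv A B h) g)) c z)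
      (ca Fam) (cb Fam) G) (p, p') := by
  rw [cf_PhiW, Mx, Fintype.card_fin, Fintype.card_fin]
  congr 1
  have h1 : ((aeval (line (ru A B h) (rv A B h) c (wordEquiv s (A * B) h p) (wordEquiv s (A * B) h p'))).comp
      ((subst (fg K s (ru A B h) (rv A B h)) xs c τ).comp
        (aeval (fun i => psiM K Fam i + C (z i))))) =
      (aeval (fun i => cst (cc Fam (fun g => τ * xs g - eval c (fg K s (ru A B h) (rv A B h) g)) c z i) +
        lam K * cst (ca Fam i p) + mu K * cst (cb Fam i p')) :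
        MvPolynomial (Fin n × Fin n) K →ₐ[K] Ser K) := by
    apply MvPolynomial.algHom_ext
    intro ij
    rw [AlgHom.comp_apply, AlgHom.comp_apply, aeval_X, aeval_X, map_add, map_add, cc, psiM]
    have e1 : ∀ x : K, aeval (line (ru A B h) (rv A B h) c (wordEquiv s (A * B) h p)
        (wordEquiv s (A * B) h p')) (subst (fg K s (ru A B h) (rv A B h)) xs c τ (C x)) = cst x := by
      intro x
      rw [← MvPolynomial.algebraMap_eq, AlgHom.commutes, AlgHom.commutes, algebraMap_ser']
      rfl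
    rw [e1, cst_add]
    unfold ca cb
    rcases hF : Fam ij.1 ij.2 with m | g | ⟨g, i, l⟩ | ⟨g, j, l⟩
    · simp only [entry, map_intCast, cst_zero, mul_zero, add_zero]
      rw [cst_intCast]
    · simp only [entry, subst, aeval_X, Sum.elim_inl, cst_zero, mul_zero, add_zero]
      have := e1 (τ * xs g - eval c (fg K s (ru A B h) (rv A B h) g))
      rw [← MvPolynomial.algebraMap_eq, AlgHom.commutes] at this
      rw [← MvPolynomial.algebraMap_eq, this]
    · simp only [entry, subst, aeval_X, Sum.elim_inr, cst_zero, mul_zero, add_zero, line]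
      ring
    · simp only [entry, subst, aeval_X, Sum.elim_inr, cst_zero, mul_zero, add_zero, line]
      ring
  exact DFunLike.congr_fun h1 G

/-- **THE BRIDGE** -/
theorem bridge (hA : 1 ≤ A) (hB : 1 ≤ B) (hh : 1 ≤ h)
    (Fam : Fin n → Fin n → ℤ ⊕ (Fin s ⊕ YD s A B h))
    (hFam : ∀ (R : Type) [CommRing R] (x : Fin s → R) (y : YD s A B h → R),
      (Matrix.of fun i j => entry x y (Fam i j)).permanent =
        ∏ g, (x g + chain (ru A B h) (rv A B h) (fun i b => y (Sum.inl (g, i, b)))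
          (fun j b => y (Sum.inr (g, j, b)))))
    (hru : Function.Injective (ru A B h)) (hrv : Function.Injective (rv A B h))
    (hadm : ∀ (y : Fin B → (Fin A → Fin h) → K) (z : Fin A → (Fin B → Fin h) → K),
      ∃ a a' : Fin k → Wg A B h → K, Adm (ru A B h) (rv A B h) (part (ru A B h) (rv A B h) y z)
        (fun S S' => B * S'.card < A * S.card) a a')
    (G : MvPolynomial (Fin n × Fin n) K) (hG : G ≠ 0) (hPG : permP n K ∣ G) :
    ∃ (c : Fin n × Fin n → K) (a b : Fin n × Fin n → Wo (s * (A * B)) h → K),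
      (∀ i, a i ∈ WGen K h (tu A (s * (A * B))) 1) ∧ (∀ i, b i ∈ WGen K h (tv B (s * (A * B))) 1) ∧
      ∃ P Q : (Fin s → Fin k) → Wo (s * (A * B)) h → K,
        (Matrix.of fun u v => ∑ p, ∑ p', P u p * Q v p' *
          cf (s * B) (s * A) (PhiW c a b G) (p, p')).det ≠ 0 := by
  classical
  have hinf : Infinite K := inferInstance
  have hP := aeval_psiM (K := K) Fam hFam
  have hP0 : aeval (psiM K Fam) (permP n K) ≠ 0 := by
    rw [hP, Finset.prod_ne_zero_iff]
    intro g _ h0
    have h1 := psi_t (K := K) (fg K s (ru A B h) (rv A B h)) g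
    rw [h0, map_zero] at h1
    exact X_ne_zero g h1.symm
  obtain ⟨G0, X1, hG0, hdvd, hred⟩ := reduction (psiM K Fam) (permP n K) G hP0 hG hPG
  rw [hP] at hdvd
  obtain ⟨xs, c, hcore⟩ := core_multiple (KK := Fin k) (fg K s (ru A B h) (rv A B h)) G0 hG0 hdvd
  have hadm' := fun g : Fin s => hadm (fun i b => c (Sum.inl (g, i, b))) (fun j b => c (Sum.inr (g, j, b)))
  choose a a' haa using hadm'
  have hWne : Nonempty (Wg A B h) := ⟨fun _ => ⟨0, hh⟩⟩
  obtain ⟨Λ, hΛ, hcmp⟩ := rowL (Wg A B h) (Fin B) (Fin A) (Fin A → Fin h) (Fin B → Fin h) K s k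
    (ru A B h) (rv A B h) (fun S S' => B * S'.card < A * S.card) hru hrv hWne (Or.inl ⟨⟨0, hB⟩⟩) c a a' haa
  obtain ⟨τ, hτ⟩ := hcore Λ hΛ.h0 hΛ.h1 hΛ.h2
  let ΛM : MvPolynomial (Fin s ⊕ YD s A B h) K →ₗ[K] Matrix (Fin s → Fin k) (Fin s → Fin k) K :=
    { toFun := fun H => Matrix.of fun κ κ' => Λ κ κ' univ (subst (fg K s (ru A B h) (rv A B h)) xs c τ H)
      map_add' := by intro x y; ext κ κ'; simp
      map_smul' := by intro x y; ext κ κ'; simp }
  obtain ⟨η, hη, hdet⟩ := hred (Fin s → Fin k) ΛM hτ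
  refine ⟨cc Fam (fun g => τ * xs g - eval c (fg K s (ru A B h) (rv A B h) g)) c (fun i => η * X1 i),
    ca Fam, cb Fam, ca_mem hA Fam, cb_mem hB Fam,
    fun u p => ∏ g, a g (u g) (wordEquiv s (A * B) h p g),
    fun v p' => ∏ g, a' g (v g) (wordEquiv s (A * B) h p' g), ?_⟩
  convert hdet using 2
  ext u v
  simp only [Matrix.of_apply, ΛM, LinearMap.coe_mk, AddHom.coe_mk]
  rw [hcmp, cmp, ← Equiv.sum_comp (wordEquiv s (A * B) h)]
  refine Finset.sum_congr rfl fun p _ => ?_
  rw [← Equiv.sum_comp (wordEquiv s (A * B) h)]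
  refine Finset.sum_congr rfl fun p' _ => ?_
  rw [← value_eq]

end main

end Pool.MCD
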