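import Pool.Agent.MCD.Comp
import Pool.Agent.MCD.Bridge
import Pool.Agent.MCD.Numbers

/-!
# Multiples of the permanent at constant depth: the assembly
-/

set_option autoImplicit false

namespace Pool.MCD

open Finset MvPolynomial Pool.CDep Pool.CD Pool.Agent.Helper41.CD
open Pool.Agent.Helper87.D3 (Ser cf cst lam mu cst_add cst_mul cst_one cst_zero cf_sub)

section val

variable {K E Γ : Type} [Field K] [Field E] [LinearOrderedCommGroupWithZero Γ] [Algebra K E]
  {v : Valuation E Γ}

theorem v_alg_eq_one (hv : ∀ x : K, v (algebraMap K E x) ≤ 1) {x : K} (hx : x ≠ 0) :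
    v (algebraMap K E x) = 1 := by
  apply le_antisymm (hv x)
  have h1 : v (algebraMap K E x) * v (algebraMap K E x⁻¹) = 1 := by
    rw [← map_mul, ← map_mul, mul_inv_cancel₀ hx, map_one, map_one]
  calc (1 : Γ) = v (algebraMap K E x) * v (algebraMap K E x⁻¹) := h1.symm
    _ ≤ v (algebraMap K E x) * 1 := mul_le_mul_right (hv _) _
    _ = _ := mul_one _

/-- a matrix close to a regular matrix with entries in `K` is regular -/
theorem det_ne_zero_of_close (hv : ∀ x : K, v (algebraMap K E x) ≤ 1) {κ : Type} [Fintype κ]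
    [DecidableEq κ] (M : Matrix κ κ K) (hM : M.det ≠ 0) (M1 : Matrix κ κ E)
    (h : ∀ i j, v (M1 i j - algebraMap K E (M i j)) < 1) : M1.det ≠ 0 := by
  set N : Matrix κ κ E := M⁻¹.map (algebraMap K E) with hN
  have h1 : N * M.map (algebraMap K E) = 1 := by
    rw [hN, ← Matrix.map_mul, Matrix.nonsing_inv_mul _ (IsUnit.mk0 _ hM)]
    exact Matrix.map_one _ (map_zero _) (map_one _)
  have h2 : N * M1 = 1 + N * (M1 - M.map (algebraMap K E)) := by
    rw [Matrix.mul_sub, h1]
    abel
  have h3 : (N * M1).det ≠ 0 := by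
    rw [h2]
    refine det_one_add_ne_zero v _ fun i j => ?_
    rw [Matrix.mul_apply]
    refine Valuation.map_sum_lt v one_ne_zero fun k _ => ?_
    rw [map_mul]
    calc v (N i k) * v ((M1 - M.map (algebraMap K E)) k j)
        ≤ 1 * v ((M1 - M.map (algebraMap K E)) k j) := mul_le_mul_left (hv _) _
      _ < 1 := by rw [one_mul]; exact h k j
  rw [Matrix.det_mul] at h3
  exact right_ne_zero_of_mul h3

variable {N h : ℕ} {σ κ : Type}

theorem cf_PhiW_map (c : σ → K) (a b : σ → Wo N h → K) (F : MvPolynomial σ K) (r e : ℕ)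
    (p q : Wo N h) :
    cf r e (PhiW (fun i => algebraMap K E (c i)) (fun i p => algebraMap K E (a i p))
      (fun i p => algebraMap K E (b i p)) (MvPolynomial.map (algebraMap K E) F)) (p, q) =
      algebraMap K E (cf r e (PhiW c a b F) (p, q)) := by
  rw [Pool.MCD.PhiW_apply, Pool.MCD.PhiW_apply, ← cf_serMap]
  congr 1
  rw [MvPolynomial.aeval_def, MvPolynomial.aeval_def, MvPolynomial.hom_eval₂,
    MvPolynomial.eval₂_map]
  have h2 : (serMap (algebraMap K E)).comp (algebraMap K (Ser K)) =
      (algebraMap E (Ser E)).comp (algebraMap K E) := by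
    ext x : 1
    rw [RingHom.comp_apply, RingHom.comp_apply, algebraMap_ser' (S := K) (R := K) x, serMap_cst,
      algebraMap_ser' (S := E) (R := E)]
    rfl
  rw [h2]
  congr 1
  ext i : 1
  rw [map_add, map_add, map_mul, map_mul, serMap_cst, serMap_cst, serMap_cst, serMap_lam,
    serMap_mu]

theorem v_cf_PhiW_lt (hv : ∀ x : K, v (algebraMap K E x) ≤ 1) (c : σ → K) (a b : σ → Wo N h → K)
    (F : MvPolynomial σ E) (hF : ∀ m, v (coeff m F) < 1) (r e : ℕ) (p q : Wo N h) :
    v (cf r e (PhiW (fun i => algebraMap K E (c i)) (fun i p => algebraMap K E (a i p))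
      (fun i p => algebraMap K E (b i p)) F) (p, q)) < 1 := by
  rw [Pool.MCD.PhiW_apply]
  exact v_cf_aeval_lt F hF _ (fun i => ((intSer_cst (hv _)).add (intSer_lam (hv _))).add
    (intSer_mu (hv _))) _ _

/-- the compressed matrix of a polynomial close to `G` -/
theorem cmpW_det [Fintype κ] [DecidableEq κ] (hv : ∀ x : K, v (algebraMap K E x) ≤ 1)
    (c : σ → K) (a b : σ → Wo N h → K) (α α' : κ → Wo N h → K) (r e : ℕ)
    (G : MvPolynomial σ K) (F : MvPolynomial σ E)
    (hF : ∀ m, v (coeff m F - algebraMap K E (coeff m G)) < 1)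
    (hG : (Matrix.of fun k k' => ∑ p, ∑ q, α k p * α' k' q *
      cf r e (PhiW c a b G) (p, q)).det ≠ 0) :
    (Matrix.of fun k k' => ∑ p, ∑ q, algebraMap K E (α k p) * algebraMap K E (α' k' q) *
      cf r e (PhiW (fun i => algebraMap K E (c i)) (fun i p => algebraMap K E (a i p))
        (fun i p => algebraMap K E (b i p)) F) (p, q)).det ≠ 0 := by
  refine det_ne_zero_of_close hv _ hG _ fun k k' => ?_
  rw [Matrix.of_apply, Matrix.of_apply, map_sum, ← Finset.sum_sub_distrib]
  refine Valuation.map_sum_lt v one_ne_zero fun p _ => ?_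
  rw [map_sum, ← Finset.sum_sub_distrib]
  refine Valuation.map_sum_lt v one_ne_zero fun q _ => ?_
  rw [map_mul, map_mul, ← mul_sub, map_mul, map_mul]
  have h1 : v (cf r e (PhiW (fun i => algebraMap K E (c i)) (fun i p => algebraMap K E (a i p))
        (fun i p => algebraMap K E (b i p)) F) (p, q) -
        algebraMap K E (cf r e (PhiW c a b G) (p, q))) < 1 := by
    rw [← cf_PhiW_map, ← Pi.sub_apply, ← cf_sub, ← map_sub]
    refine v_cf_PhiW_lt hv c a b _ (fun m => ?_) r e p q
    rw [coeff_sub, coeff_map]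
    exact hF m
  calc v (algebraMap K E (α k p)) * v (algebraMap K E (α' k' q)) * _
      ≤ 1 * 1 * _ := by
        gcongr
        · exact hv _
        · exact hv _
    _ < 1 := by rw [one_mul, one_mul]; exact h1

theorem wgen_map {l : Fin N → ℕ} {x : ℕ} {f : Wo N h → K} (hf : f ∈ WGen K h l x) :
    (fun p => algebraMap K E (f p)) ∈ WGen E h l x := by
  obtain ⟨J, hJ, hc, hd⟩ := hf
  exact ⟨J, hJ, hc, fun p p' hp => congrArg _ (hd p p' hp)⟩

end val

/-- **nonzero multiples of the permanent (and polynomials close to them) at constant depth** -/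
theorem mcd (hGL : ∀ (K : Type) [Field K], GroupLemma K) (k : ℕ) : ∃ C : ℝ, 0 < C ∧
    ∀ (K E Γ : Type) [Field K] [CharZero K] [Field E] [LinearOrderedCommGroupWithZero Γ]
      [Algebra K E] (v : Valuation E Γ) (n T S w w0 : ℕ)
      (f : Fin T → Fin S → MvPolynomial (Fin n × Fin n) E)
      (G : MvPolynomial (Fin n × Fin n) K),
      (∀ x : K, v (algebraMap K E x) ≤ 1) → 2 ≤ S → 1 ≤ w → w ≤ S → 1 ≤ w0 →
      (∀ i j, f i j ∈ Cls w0 w S k) → G ≠ 0 → permP n K ∣ G →
      (∀ m, v (coeff m (∑ i, ∏ j, f i j) - algebraMap K E (coeff m G)) < 1) →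
      n * Real.exp (-(C * (Real.log S ^ (1 - etaM k) * Real.log (2 * w) ^ etaM k +
        Real.log w0))) ≤ C * Real.log (2 * T) := by
  obtain ⟨C, hC, hfin⟩ := mcd_final k
  refine ⟨C, hC, ?_⟩
  intro K E Γ _ _ _ _ _ v n T S w w0 f G hv hS hw hwS hw0 hf hG hP hclose
  obtain ⟨A, B, m, X, Y, hB, hBA, hco, hm, hgr, hbound⟩ := hfin S w w0 hS hw hwS hw0
  have hA : 1 ≤ A := hB.trans hBA
  have hT : 1 ≤ T := by
    by_contra hT
    have hT0 : T = 0 := by omega
    subst hT0
    obtain ⟨d, hd⟩ := MvPolynomial.ne_zero_iff.1 hG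
    have h1 := hclose d
    rw [univ_eq_empty, sum_empty, coeff_zero, zero_sub, Valuation.map_neg,
      v_alg_eq_one hv hd] at h1
    exact lt_irrefl _ h1
  have hE : CharZero E := charZero_of_injective_algebraMap (algebraMap K E).injective
  apply hbound n T hT
  intro s hs hn
  set h : ℕ := 2 ^ m with hh
  have hh1 : 1 ≤ h := Nat.one_le_two_pow
  have hn' : s * (A * B * h ^ A + 1) ≤ n := by
    refine le_trans (Nat.mul_le_mul_left _ ?_) hn
    nlinarith [Nat.zero_le (A * B), Nat.zero_le (h ^ A)]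
  obtain ⟨c, a, b, α, α', ha, hb, hdet⟩ := exists_compression (K := K) hA hB hBA hco hh1 hn'
    (fun S S' => B * S'.card < A * S.card)
    (fun y z => digits_adm_part (hGL K) hA hB hco hm y z) G hG hP
  have hdet' := cmpW_det hv c a b α α' (s * B) (s * A) G (∑ i, ∏ j, f i j) hclose hdet
  have hNu := machine_words (K := E) (lu := tu A (s * (A * B))) (lv := tv B (s * (A * B))) hw0 hw
    (by positivity) (by positivity) hgr (fun i => algebraMap K E (c i))
    (fun i p => algebraMap K E (a i p)) (fun i p => algebraMap K E (b i p))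
    (fun i => wgen_map (ha i)) (fun i => wgen_map (hb i)) T f hf (s * B) (s * A)
  have hcard := card_le_compressed hh1 (fun t => card_tu hA t) (fun t => card_tv hB t) _ _ hdet'
    hNu
  have e1 : s * (A * B) = A * (s * B) := by ring
  have e2 : s * (A * B) = B * (s * A) := by ring
  have hr : (univ.image (tu A (s * (A * B)))).card = s * B := by
    rw [e1]
    exact card_image_tu hA
  have hE' : (univ.image (tv B (s * (A * B)))).card = s * A := by
    rw [e2]
    exact card_image_tv hB
  rw [hr, hE', Fintype.card_fun, Fintype.card_fin, Fintype.card_fin] at hcard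
  push_cast at hcard
  unfold kk at hcard
  exact hcard

end Pool.MCD
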