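import Pool.Agent.MCD.Defs

/-!
# Multiples at constant depth: the group lemma

Dual families of vectors annihilated by few linear conditions, and the count of the conditions
for one period of the two reading orders.
-/

set_option autoImplicit false
set_option linter.unusedSectionVars false

namespace Pool.MCD

open Finset

section Dual

variable {K : Type} [Field K] {W : Type} [Fintype W] [DecidableEq W]

/-- linearly independent functionals have dual vectors -/
theorem exists_dual_vectors {V : Type} [AddCommGroup V] [Module K V] {k : ℕ}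
    (f : Fin k → Module.Dual K V) (hf : LinearIndependent K f) :
    ∃ v : Fin k → V, ∀ i j, f j (v i) = if i = j then 1 else 0 := by
  classical
  have hsurj : Function.Surjective (LinearMap.pi f : V →ₗ[K] (Fin k → K)) := by
    rw [← LinearMap.range_eq_top]
    by_contra hne
    obtain ⟨g, hg0, hg⟩ := Submodule.exists_le_ker_of_lt_top _ (lt_top_iff_ne_top.2 hne)
    have hgs : ∀ x : Fin k → K, g x = ∑ j, x j * g (Pi.single j 1) := by
      intro x
      have hx : x = ∑ j, x j • (Pi.single j (1 : K) : Fin k → K) := by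
        funext i
        rw [Finset.sum_apply, Finset.sum_eq_single i]
        · rw [Pi.smul_apply, Pi.single_eq_same, smul_eq_mul, mul_one]
        · intro j _ hj
          rw [Pi.smul_apply, Pi.single_eq_of_ne (Ne.symm hj), smul_zero]
        · intro h
          exact absurd (Finset.mem_univ i) h
      conv_lhs => rw [hx]
      rw [map_sum]
      exact Finset.sum_congr rfl fun j _ => by rw [map_smul, smul_eq_mul]
    have hrel : ∑ j, g (Pi.single j 1) • f j = 0 := by
      apply LinearMap.ext
      intro v
      have h1 : g ((LinearMap.pi f : V →ₗ[K] (Fin k → K)) v) = 0 :=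
        hg (LinearMap.mem_range_self _ v)
      rw [hgs] at h1
      rw [LinearMap.sum_apply, LinearMap.zero_apply, ← h1]
      exact Finset.sum_congr rfl fun j _ => by
        rw [LinearMap.smul_apply, smul_eq_mul, LinearMap.pi_apply, mul_comm]
    have hz := (Fintype.linearIndependent_iff.1 hf) _ hrel
    apply hg0
    apply LinearMap.ext
    intro x
    rw [hgs, LinearMap.zero_apply]
    exact Finset.sum_eq_zero fun j _ => by rw [hz j, mul_zero]
  refine ⟨fun i => (hsurj (Pi.single i 1)).choose, fun i j => ?_⟩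
  have h1 := (hsurj (Pi.single i 1)).choose_spec
  have h2 := congrFun h1 j
  rw [LinearMap.pi_apply] at h2
  rw [h2, Pi.single_apply]
  by_cases hij : i = j
  · rw [if_pos hij.symm, if_pos hij]
  · rw [if_neg (Ne.symm hij), if_neg hij]

/-- the pairing as a functional -/
noncomputable def dotD (a : W → K) : Module.Dual K (W → K) where
  toFun b := ∑ p, b p * a p
  map_add' b c := by
    rw [← Finset.sum_add_distrib]
    exact Finset.sum_congr rfl fun p _ => by rw [Pi.add_apply, add_mul]
  map_smul' r b := by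
    rw [RingHom.id_apply, smul_eq_mul, Finset.mul_sum]
    exact Finset.sum_congr rfl fun p _ => by rw [Pi.smul_apply, smul_eq_mul, mul_assoc]

theorem dotD_apply (a b : W → K) : dotD a b = ∑ p, b p * a p := rfl

/-- the pairing as a linear map -/
noncomputable def dotL : (W → K) →ₗ[K] Module.Dual K (W → K) where
  toFun a := dotD a
  map_add' a c := by
    apply LinearMap.ext
    intro b
    rw [LinearMap.add_apply, dotD_apply, dotD_apply, dotD_apply, ← Finset.sum_add_distrib]
    exact Finset.sum_congr rfl fun p _ => by rw [Pi.add_apply, mul_add]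
  map_smul' r a := by
    apply LinearMap.ext
    intro b
    rw [RingHom.id_apply, LinearMap.smul_apply, dotD_apply, dotD_apply, smul_eq_mul,
      Finset.mul_sum]
    exact Finset.sum_congr rfl fun p _ => by rw [Pi.smul_apply, smul_eq_mul]; ring

theorem dotL_apply (a b : W → K) : dotL a b = ∑ p, b p * a p := rfl

theorem dotL_injective : Function.Injective (dotL : (W → K) →ₗ[K] Module.Dual K (W → K)) := by
  rw [injective_iff_map_eq_zero]
  intro a ha
  funext p
  have h := LinearMap.congr_fun ha (Pi.single p 1)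
  rw [dotL_apply, LinearMap.zero_apply] at h
  rw [Finset.sum_eq_single p] at h
  · rw [Pi.single_eq_same, one_mul] at h
    exact h
  · intro q _ hq
    rw [Pi.single_eq_of_ne hq, zero_mul]
  · intro h'
    exact absurd (Finset.mem_univ p) h'

theorem finrank_ker_pi {κ : Type} [Fintype κ] (C : κ → Module.Dual K (W → K)) :
    Fintype.card W ≤ Module.finrank K
      (LinearMap.ker (LinearMap.pi C : (W → K) →ₗ[K] (κ → K))) + Fintype.card κ := by
  have h1 := LinearMap.finrank_range_add_finrank_ker
    (LinearMap.pi C : (W → K) →ₗ[K] (κ → K))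
  have h2 : Module.finrank K (LinearMap.range (LinearMap.pi C : (W → K) →ₗ[K] (κ → K))) ≤
      Fintype.card κ := by
    refine (Submodule.finrank_le _).trans ?_
    rw [Module.finrank_fintype_fun_eq_card]
  have hE : Module.finrank K (W → K) = Fintype.card W := Module.finrank_fintype_fun_eq_card K
  omega

/-- the pairing of two subspaces -/
noncomputable def pairT (V V' : Submodule K (W → K)) : V' →ₗ[K] Module.Dual K V :=
  (Submodule.dualRestrict V) ∘ₗ dotL ∘ₗ V'.subtype

theorem pairT_apply (V V' : Submodule K (W → K)) (x : V') (y : V) :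
    pairT V V' x y = ∑ p, (y : W → K) p * (x : W → K) p := rfl

theorem finrank_ker_pairT (V V' : Submodule K (W → K)) :
    Module.finrank K (LinearMap.ker (pairT V V')) + Module.finrank K V ≤ Fintype.card W := by
  have hmem : ∀ x : LinearMap.ker (pairT V V'),
      dotL (((x : V') : W → K)) ∈ V.dualAnnihilator := by
    intro x
    rw [Submodule.mem_dualAnnihilator]
    intro y hy
    have h1 : pairT V V' x = 0 := x.2
    have h2 := LinearMap.congr_fun h1 ⟨y, hy⟩
    rw [pairT_apply] at h2
    rw [dotL_apply]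
    exact h2
  have h1 : Module.finrank K (LinearMap.ker (pairT V V')) ≤
      Module.finrank K V.dualAnnihilator := by
    refine LinearMap.finrank_le_finrank_of_injective
      (f := LinearMap.codRestrict V.dualAnnihilator
        (dotL ∘ₗ V'.subtype ∘ₗ (LinearMap.ker (pairT V V')).subtype) hmem) ?_
    intro x y hxy
    have h2 : dotL (((x : V') : W → K)) = dotL (((y : V') : W → K)) :=
      congrArg Subtype.val hxy
    exact Subtype.ext (Subtype.ext (dotL_injective h2))
  have h2 := Subspace.finrank_add_finrank_dualAnnihilator_eq V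
  rw [Module.finrank_fintype_fun_eq_card] at h2
  omega

theorem exists_pre {V E : Type} [AddCommGroup V] [Module K V] [AddCommGroup E] [Module K E]
    (T : V →ₗ[K] E) [FiniteDimensional K V] (k : ℕ)
    (hrange : k ≤ Module.finrank K (LinearMap.range T)) :
    ∃ x : Fin k → V, LinearIndependent K (fun i => T (x i)) := by
  obtain ⟨f, hf⟩ := exists_linearIndependent_of_le_finrank hrange
  have hpre : ∀ i, ∃ x : V, T x = (f i).1 := fun i => (f i).2
  choose x hx using hpre
  refine ⟨x, ?_⟩
  have h1 : (fun i => T (x i)) = fun i => (f i).1 := funext hx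
  rw [h1]
  exact hf.map' (LinearMap.range T).subtype (Submodule.ker_subtype _)

theorem exists_dual_sub (V V' : Submodule K (W → K)) (c c' k : ℕ)
    (hV : Fintype.card W ≤ Module.finrank K V + c)
    (hV' : Fintype.card W ≤ Module.finrank K V' + c')
    (hk : c + c' + k ≤ Fintype.card W) :
    ∃ a a' : Fin k → W → K, (∀ i, a i ∈ V) ∧ (∀ i, a' i ∈ V') ∧
      ∀ i j, ∑ p, a i p * a' j p = if i = j then 1 else 0 := by
  have hker := finrank_ker_pairT V V'
  have hrange : k ≤ Module.finrank K (LinearMap.range (pairT V V')) := by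
    have h1 := LinearMap.finrank_range_add_finrank_ker (pairT V V')
    omega
  obtain ⟨x, hx⟩ := exists_pre (pairT V V') k hrange
  obtain ⟨v, hv⟩ := exists_dual_vectors _ hx
  refine ⟨fun i => (v i).1, fun i => (x i).1, fun i => (v i).2, fun i => (x i).2, ?_⟩
  intro i j
  rw [← hv i j, pairT_apply]

/-- Dual families in two subspaces of small codimension, given by linear conditions. -/
theorem exists_dual_families {κ κ' : Type} [Fintype κ] [Fintype κ']
    (C : κ → Module.Dual K (W → K)) (C' : κ' → Module.Dual K (W → K)) (k : ℕ)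
    (hk : Fintype.card κ + Fintype.card κ' + k ≤ Fintype.card W) :
    ∃ a a' : Fin k → W → K, (∀ i c, C c (a i) = 0) ∧ (∀ i c, C' c (a' i) = 0) ∧
      ∀ i j, ∑ p, a i p * a' j p = if i = j then 1 else 0 := by
  obtain ⟨a, a', ha, ha', h⟩ := exists_dual_sub _ _ _ _ k (finrank_ker_pi C)
    (finrank_ker_pi C') hk
  refine ⟨a, a', fun i c => ?_, fun i c => ?_, h⟩
  · have h1 : (LinearMap.pi C : (W → K) →ₗ[K] (κ → K)) (a i) = 0 := ha i
    exact congrFun h1 c
  · have h1 : (LinearMap.pi C' : (W → K) →ₗ[K] (κ' → K)) (a' i) = 0 := ha' i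
    exact congrFun h1 c

end Dual

section conditions

variable {K : Type} [Field K] {W : Type} [Fintype W]

/-- the condition that the sum of `a w * G w` over the fibre of `r` vanishes -/
noncomputable def fibD {R : Type} [DecidableEq R] (res : W → R) (G : W → K) (r : R) :
    Module.Dual K (W → K) :=
  ∑ w ∈ univ.filter (fun w => res w = r), G w • LinearMap.proj w

theorem fibD_apply {R : Type} [DecidableEq R] (res : W → R) (G : W → K) (r : R) (a : W → K) :
    fibD res G r a = ∑ w ∈ univ.filter (fun w => res w = r), a w * G w := by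
  unfold fibD
  rw [LinearMap.sum_apply]
  exact Finset.sum_congr rfl fun w _ => by
    rw [LinearMap.smul_apply, LinearMap.proj_apply, smul_eq_mul, mul_comm]

theorem sum_of_fibD {R : Type} [DecidableEq R] (res : W → R) (a G : W → K)
    (h : ∀ r ∈ univ.image res, fibD res G r a = 0) (ψ : W → K)
    (hψ : ∀ w w1, res w = res w1 → ψ w = ψ w1) : ∑ w, a w * G w * ψ w = 0 := by
  rw [← Finset.sum_fiberwise_of_maps_to (s := univ) (t := univ.image res) (g := res)
    (fun w _ => Finset.mem_image_of_mem res (Finset.mem_univ w))]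
  refine Finset.sum_eq_zero fun r hr => ?_
  obtain ⟨w0, -, hw0⟩ := Finset.mem_image.1 hr
  have h1 := h r hr
  rw [fibD_apply] at h1
  have h2 : ∑ w ∈ univ.filter (fun w => res w = r), a w * G w * ψ w =
      (∑ w ∈ univ.filter (fun w => res w = r), a w * G w) * ψ w0 := by
    rw [Finset.sum_mul]
    refine Finset.sum_congr rfl fun w hw => ?_
    rw [hψ w w0 (((Finset.mem_filter.1 hw).2).trans hw0.symm)]
  rw [h2, h1, zero_mul]

variable {U V Lu Lv : Type} [Fintype U] [Fintype V] [DecidableEq U] [DecidableEq V]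
  [DecidableEq Lu] [DecidableEq Lv]

/-- the letters outside `S` -/
def offS (zu : W → U → Lu) (S : Finset U) (w : W) (i : {i // i ∉ S}) : Lu := zu w i.1

/-- the letters in `S` -/
def onS (zv : W → V → Lv) (S' : Finset V) (w : W) (j : {j // j ∈ S'}) : Lv := zv w j.1

/-- the letters outside `i` -/
def offI (zu : W → U → Lu) (i : U) (w : W) (i' : {i' // i' ≠ i}) : Lu := zu w i'.1

theorem side (zu : W → U → Lu) (zv : W → V → Lv) (F : Finset U → Finset V → W → W → K)
    (P : Finset U → Finset V → Prop) (M : ℕ)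
    (hF : ∀ S S' w w' w1', (∀ j ∈ S', zv w' j = zv w1' j) → F S S' w w' = F S S' w w1')
    (h1 : ∀ S S', P S S' → (univ.image (offS zu S)).card * (univ.image (onS zv S')).card ≤ M)
    (h2 : ∀ i : U, (univ.image (offI zu i)).card ≤ M) :
    ∃ (κ : Type) (_ : Fintype κ) (C : κ → Module.Dual K (W → K)),
      Fintype.card κ ≤ (2 ^ (Fintype.card U + Fintype.card V) + Fintype.card U) * M ∧
      ∀ a : W → K, (∀ c, C c a = 0) →
        (∀ S S', P S S' → ∀ (w' : W) (ψ : W → K),
          (∀ w w1, (∀ i, i ∉ S → zu w i = zu w1 i) → ψ w = ψ w1) →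
          ∑ w, a w * F S S' w w' * ψ w = 0) ∧
        ∀ (i : U) (ψ : W → K), (∀ w w1, (∀ i', i' ≠ i → zu w i' = zu w1 i') → ψ w = ψ w1) →
          ∑ w, a w * ψ w = 0 := by
  classical
  have hrep : ∀ (S' : Finset V) (t : ↥(univ.image (onS zv S'))),
      ∃ w' : W, onS zv S' w' = t.1 := by
    intro S' t
    obtain ⟨w', -, hw'⟩ := Finset.mem_image.1 t.2
    exact ⟨w', hw'⟩
  choose rep hrep using hrep
  let κ1 : Type := Σ Q : {Q : Finset U × Finset V // P Q.1 Q.2},
    ↥(univ.image (offS zu Q.1.1)) × ↥(univ.image (onS zv Q.1.2))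
  let κ2 : Type := Σ i : U, ↥(univ.image (offI zu i))
  refine ⟨κ1 ⊕ κ2, inferInstance, Sum.elim
    (fun c => fibD (offS zu c.1.1.1) (fun w => F c.1.1.1 c.1.1.2 w (rep _ c.2.2)) c.2.1.1)
    (fun c => fibD (offI zu c.1) (fun _ => 1) c.2.1), ?_, ?_⟩
  · rw [Fintype.card_sum, add_mul]
    refine Nat.add_le_add ?_ ?_
    · rw [Fintype.card_sigma]
      have h3 : ∀ Q : {Q : Finset U × Finset V // P Q.1 Q.2},
          Fintype.card (↥(univ.image (offS zu Q.1.1)) × ↥(univ.image (onS zv Q.1.2))) ≤ M := by
        intro Q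
        rw [Fintype.card_prod, Fintype.card_coe, Fintype.card_coe]
        exact h1 _ _ Q.2
      refine (Finset.sum_le_card_nsmul _ _ _ fun Q _ => h3 Q).trans ?_
      rw [smul_eq_mul, Finset.card_univ]
      refine Nat.mul_le_mul_right _ ?_
      refine (Fintype.card_subtype_le _).trans ?_
      rw [Fintype.card_prod, Fintype.card_finset, Fintype.card_finset, pow_add]
    · rw [Fintype.card_sigma]
      have h3 : ∀ i : U, Fintype.card ↥(univ.image (offI zu i)) ≤ M := by
        intro i
        rw [Fintype.card_coe]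
        exact h2 i
      refine (Finset.sum_le_card_nsmul _ _ _ fun i _ => h3 i).trans ?_
      rw [smul_eq_mul, Finset.card_univ]
  · intro a ha
    refine ⟨fun S S' hP w' ψ hψ => ?_, fun i ψ hψ => ?_⟩
    · have hw' : ∀ w, F S S' w w' = F S S' w (rep S' ⟨onS zv S' w',
          Finset.mem_image_of_mem _ (Finset.mem_univ w')⟩) := by
        intro w
        refine hF S S' w w' _ fun j hj => ?_
        have h3 := hrep S' ⟨onS zv S' w', Finset.mem_image_of_mem _ (Finset.mem_univ w')⟩
        exact (congrFun h3 ⟨j, hj⟩).symm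
      have h4 := sum_of_fibD (offS zu S) a (fun w => F S S' w (rep S' ⟨onS zv S' w',
          Finset.mem_image_of_mem _ (Finset.mem_univ w')⟩))
        (fun r hr => ha (Sum.inl ⟨⟨(S, S'), hP⟩, ⟨⟨r, hr⟩, ⟨onS zv S' w',
          Finset.mem_image_of_mem _ (Finset.mem_univ w')⟩⟩⟩)) ψ
        (fun w w1 hw => hψ w w1 fun i hi => congrFun hw ⟨i, hi⟩)
      rw [← h4]
      exact Finset.sum_congr rfl fun w _ => by rw [hw' w]
    · have h4 := sum_of_fibD (offI zu i) a (fun _ => (1 : K))
        (fun r hr => ha (Sum.inr ⟨i, ⟨r, hr⟩⟩)) ψ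
        (fun w w1 hw => hψ w w1 fun i' hi' => congrFun hw ⟨i', hi'⟩)
      rw [← h4]
      exact Finset.sum_congr rfl fun w _ => by rw [mul_one]

end conditions

/-- ROW G: the group lemma -/
theorem groupLemma (K : Type) [Field K] : GroupLemma K := by
  intro W U V Lu Lv _ _ _ _ _ _ _ _ zu zv F hv M k hF hM1 hM2 hMu hMv hk
  obtain ⟨κ, hκ, C, hC, hCa⟩ := side zu zv F (fun S S' => Proper S S' ∧ hv S S') M
    (fun S S' w w' w1' h => hF S S' w w w' w1' (fun _ _ => rfl) h)
    (fun S S' h => hM1 S S' h.1 h.2) hMu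
  obtain ⟨κ', hκ', C', hC', hCa'⟩ := side zv zu (fun S' S w' w => F S S' w w')
    (fun S' S => Proper S S' ∧ ¬ hv S S') M
    (fun S' S w' w w1 h => hF S S' w w1 w' w' h (fun _ _ => rfl))
    (fun S' S h => by
      rw [Nat.mul_comm]
      exact hM2 S S' h.1 h.2) hMv
  have hcard : Fintype.card κ + Fintype.card κ' + k ≤ Fintype.card W := by
    refine le_trans ?_ hk
    have e1 : (2 ^ (Fintype.card U + Fintype.card V) + Fintype.card U) * M ≤
        (2 ^ (Fintype.card U + Fintype.card V) + Fintype.card U + Fintype.card V) * M :=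
      Nat.mul_le_mul_right _ (by omega)
    have e2 : (2 ^ (Fintype.card V + Fintype.card U) + Fintype.card V) * M ≤
        (2 ^ (Fintype.card U + Fintype.card V) + Fintype.card U + Fintype.card V) * M := by
      rw [Nat.add_comm (Fintype.card V) (Fintype.card U)]
      exact Nat.mul_le_mul_right _ (by omega)
    omega
  obtain ⟨a, a', ha, ha', hd⟩ := exists_dual_families C C' k hcard
  refine ⟨a, a', hd, fun κ S S' hp hh w' ψ hψ => ?_, fun κ S S' hp hh w ψ hψ => ?_,
    fun κ i ψ hψ => ?_, fun κ j ψ hψ => ?_⟩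
  · exact (hCa (a κ) (ha κ)).1 S S' ⟨hp, hh⟩ w' ψ hψ
  · exact (hCa' (a' κ) (ha' κ)).1 S' S ⟨hp, hh⟩ w ψ hψ
  · exact (hCa (a κ) (ha κ)).2 i ψ hψ
  · exact (hCa' (a' κ) (ha' κ)).2 j ψ hψ

end Pool.MCD
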