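import Pool.Agent.MCD.Box
import Pool.Agent.MCD.Group
import Pool.Agent.MCD.Final

/-!
# Multiples of the permanent: cofactors of bounded degree

Terms `P * ∏ j, f j`, where `P` is an arbitrary polynomial of degree at most `ν`.
-/

set_option autoImplicit false
set_option linter.unusedSectionVars false

namespace Pool.MCD

open Finset MvPolynomial Pool.CDep Pool.CD Pool.Agent.Helper41.CD
open Pool.Agent.Helper87.D3 (Ser cf cst lam mu InB cf_add cf_sum cf_mul cf_cst cf_lam_mul cf_mu_mul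
  cf_one cf_cst_mul)

section deg
variable {B : Type} [CommRing B]

/-- series of total degree at most `d` -/
def DegLe (d : ℕ) (F : Ser B) : Prop := ∀ b e, d < b + e → cf b e F = 0

theorem DegLe.add {d : ℕ} {F G : Ser B} (hF : DegLe d F) (hG : DegLe d G) : DegLe d (F + G) :=
  fun b e h => by rw [cf_add, hF b e h, hG b e h, add_zero]

theorem DegLe.mono {d d' : ℕ} (hd : d ≤ d') {F : Ser B} (hF : DegLe d F) : DegLe d' F :=
  fun b e h => hF b e (lt_of_le_of_lt hd h)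

theorem DegLe.mul {d d' : ℕ} {F G : Ser B} (hF : DegLe d F) (hG : DegLe d' G) :
    DegLe (d + d') (F * G) := fun b e h => by
  rw [cf_mul]
  refine sum_eq_zero fun i hi => sum_eq_zero fun j hj => ?_
  have h1 := HasAntidiagonal.mem_antidiagonal.1 hi
  have h2 := HasAntidiagonal.mem_antidiagonal.1 hj
  by_cases h3 : d < i.1 + j.1
  · rw [hF _ _ h3, zero_mul]
  · rw [hG _ _ (by omega), mul_zero]

theorem DegLe.one : DegLe 0 (1 : Ser B) := fun b e h => by
  rw [cf_one, if_neg]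
  rintro ⟨rfl, rfl⟩
  exact absurd h (lt_irrefl _)

theorem DegLe.pow {F : Ser B} {d : ℕ} (hF : DegLe d F) (n : ℕ) : DegLe (n * d) (F ^ n) := by
  induction n with
  | zero => rw [pow_zero, zero_mul]; exact DegLe.one
  | succ n ih => rw [pow_succ, add_mul, one_mul]; exact ih.mul hF

theorem DegLe.prod {ι : Type} (s : Finset ι) (d : ι → ℕ) (F : ι → Ser B)
    (hF : ∀ i ∈ s, DegLe (d i) (F i)) : DegLe (∑ i ∈ s, d i) (∏ i ∈ s, F i) := by
  classical
  induction s using Finset.induction_on with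
  | empty => rw [prod_empty, sum_empty]; exact DegLe.one
  | insert i s hi ih =>
    rw [prod_insert hi, sum_insert hi]
    exact (hF i (mem_insert_self _ _)).mul (ih fun j hj => hF j (mem_insert_of_mem hj))

theorem DegLe.zero {d : ℕ} : DegLe d (0 : Ser B) := fun b e _ => by
  rw [Pool.Agent.Helper87.D3.cf_zero]

theorem DegLe.sum {ι : Type} (s : Finset ι) {d : ℕ} (F : ι → Ser B)
    (hF : ∀ i ∈ s, DegLe d (F i)) : DegLe d (∑ i ∈ s, F i) := by
  classical
  induction s using Finset.induction_on with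
  | empty => rw [sum_empty]; exact DegLe.zero
  | insert i s hi ih =>
    rw [sum_insert hi]
    exact (hF i (mem_insert_self _ _)).add (ih fun j hj => hF j (mem_insert_of_mem hj))

theorem DegLe.cst_mul {d : ℕ} (x : B) {F : Ser B} (hF : DegLe d F) : DegLe d (cst x * F) :=
  fun b e h => by rw [cf_cst_mul, hF b e h, mul_zero]

end deg

section cof
variable {K : Type} [Field K] {N h : ℕ} {lu lv : Fin N → ℕ} {σ : Type}

theorem gen_degLe (c : K) (α β : Fw K N h) :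
    DegLe 1 (cst (algebraMap K (Fw K N h) c) + lam _ * cst α + mu _ * cst β : Ser (Fw K N h)) := by
  intro b e hbe
  rw [cf_add, cf_add, cf_cst, cf_lam_mul, cf_mu_mul, if_neg (by omega), if_neg (by omega),
    if_neg (by omega), add_zero, add_zero]

/-- the degree of the image of a polynomial -/
theorem PhiW_degLe (c : σ → K) (a b : σ → Wo N h → K) (P : MvPolynomial σ K) :
    DegLe P.totalDegree (PhiW c a b P) := by
  conv => rw [P.as_sum]
  rw [map_sum]
  have hdeg : ∀ m ∈ P.support, m.degree ≤ P.totalDegree := fun m hm => le_totalDegree hm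
  have key : ∀ m ∈ P.support, DegLe P.totalDegree (PhiW c a b (monomial m (coeff m P))) := by
    intro m hm
    unfold PhiW
    rw [aeval_monomial, Pool.Agent.Helper59.CD.algebraMap_ser]
    refine DegLe.cst_mul _ ?_
    refine DegLe.mono (hdeg m hm) ?_
    rw [Finsupp.prod]
    have h1 := DegLe.prod m.support (fun i => m i * 1)
      (fun i => (cst (algebraMap K (Fw K N h) (c i)) +
        lam _ * cst (fun p : Wo N h × Wo N h => a i p.1) +
        mu _ * cst (fun p : Wo N h × Wo N h => b i p.2) : Ser (Fw K N h)) ^ m i)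
      fun i _ => (gen_degLe (c i) _ _).pow (m i)
    refine DegLe.mono (le_of_eq ?_) h1
    rw [Finsupp.degree_apply]
    exact sum_congr rfl fun i _ => mul_one _
  have hsum := DegLe.sum P.support (fun m => PhiW c a b (monomial m (coeff m P))) key
  convert hsum using 1
  rw [← P.as_sum]

/-- the coefficients of the image of a polynomial have small degree in the letters -/
theorem PhiW_inB (c : σ → K) (a b : σ → Wo N h → K) (ha : ∀ i, a i ∈ WGen K h lu 1)
    (hb : ∀ i, b i ∈ WGen K h lv 1) (P : MvPolynomial σ K) :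
    InB (Bi (WV K h lv) (WU K h lu)) (PhiW c a b P) := by
  have hV : Filt (WV K h lv) := filt_WV
  have hU : Filt (WU K h lu) := filt_WU
  unfold PhiW
  apply Pool.Agent.Helper59.CD.InB.aeval (big_Bi hV hU)
  intro i b' e
  rw [cf_add, cf_add, cf_cst, cf_lam_mul, cf_mu_mul]
  refine Submodule.add_mem _ (Submodule.add_mem _ ?_ ?_) ?_
  · split_ifs with h1
    · rw [h1.1, h1.2, Algebra.algebraMap_eq_smul_one]
      exact Submodule.smul_mem _ _ (big_Bi hV hU).one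
    · exact Submodule.zero_mem _
  · split_ifs with h1
    · rw [h1.1, h1.2]
      exact ⟨mem_WU_of_gen (ha i), mem_WV_fst (a i)⟩
    · exact Submodule.zero_mem _
  · split_ifs with h1
    · rw [h1.1, h1.2]
      exact ⟨mem_WU_snd (b i), mem_WV_of_gen (hb i)⟩
    · exact Submodule.zero_mem _

/-- `HU = x0 ^ 2`, `HV = y0 ^ 2`: the leaf bound -/
theorem cof_leaf {x0 y0 : ℝ} (hx : 0 < x0) (hy : 0 < y0) (c : σ → K) (a b : σ → Wo N h → K)
    (ha : ∀ i, a i ∈ WGen K h lu 1) (hb : ∀ i, b i ∈ WGen K h lv 1) (P : MvPolynomial σ K)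
    (b' e : ℕ) :
    Nu (WV K h lv) (WU K h lu) (y0 ^ 2) (x0 ^ 2) (cf b' e (PhiW c a b P)) (x0 ^ b' * y0 ^ e) := by
  have hV : Filt (WV K h lv) := filt_WV
  have hU : Filt (WU K h lu) := filt_WU
  have hmem := PhiW_inB (lu := lu) (lv := lv) c a b ha hb P b' e
  have hL := leaf_Bi hV hU (y0 ^ 2) (x0 ^ 2)
  have hX : 0 < x0 ^ b' := by positivity
  have hY : 0 < y0 ^ e := by positivity
  rcases le_total (x0 ^ b') (y0 ^ e) with h1 | h1
  · refine (hL.left hmem).mono ?_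
    calc (x0 ^ 2) ^ b' = x0 ^ b' * x0 ^ b' := by ring
      _ ≤ x0 ^ b' * y0 ^ e := mul_le_mul_of_nonneg_left h1 hX.le
  · refine (hL.right hmem).mono ?_
    calc (y0 ^ 2) ^ e = y0 ^ e * y0 ^ e := by ring
      _ ≤ x0 ^ b' * y0 ^ e := mul_le_mul_of_nonneg_right h1 hY.le

/-- THE MACHINE WITH COFACTORS -/
theorem machine_cof [CharZero K] {w0 w S k : ℕ} (hw0 : 1 ≤ w0) (hw : 1 ≤ w)
    {x0 y0 q : ℝ} (hx : 0 < x0) (hy : 0 < y0) (hq : 1 ≤ q) {X Y : ℕ → ℝ}
    (hG : Grw w0 w S (x0 ^ 2) (y0 ^ 2) (2 * k + 1) X Y) (hX : X (2 * k + 1) = x0 / q)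
    (hY : Y (2 * k + 1) = y0 / q) (c : σ → K)
    (a b : σ → Wo N h → K) (ha : ∀ i, a i ∈ WGen K h lu 1) (hb : ∀ i, b i ∈ WGen K h lv 1)
    (T ν : ℕ) (P : Fin T → MvPolynomial σ K) (hP : ∀ i, (P i).totalDegree ≤ ν)
    (f : Fin T → Fin S → MvPolynomial σ K) (hf : ∀ i j, f i j ∈ Cls w0 w S k)
    (r E : ℕ) :
    Nu (WV K h lv) (WU K h lu) (y0 ^ 2) (x0 ^ 2)
      (cf r E (PhiW c a b (∑ i, P i * ∏ j, f i j)))
      (T * (8 ^ (r + E) * (x0 ^ r * y0 ^ E) / q ^ (r + E - ν))) := by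
  have hV : Filt (WV K h lv) := filt_WV
  have hU : Filt (WU K h lu) := filt_WU
  have hq0 : 0 < q := lt_of_lt_of_le one_pos hq
  have hc : Cost K (fun F κ => Nu (WV K h lv) (WU K h lu) (y0 ^ 2) (x0 ^ 2) F κ) :=
    cost_Nu hV hU (by positivity) (by positivity)
  -- one term
  have hterm : ∀ i, Nu (WV K h lv) (WU K h lu) (y0 ^ 2) (x0 ^ 2)
      (cf r E (PhiW c a b (P i * ∏ j, f i j)))
      (8 ^ (r + E) * (x0 ^ r * y0 ^ E) / q ^ (r + E - ν)) := by
    intro i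
    have hprod : ∀ b' e, Nu (WV K h lv) (WU K h lu) (y0 ^ 2) (x0 ^ 2)
        (cf b' e (PhiW c a b (∏ j, f i j))) (4 ^ (b' + e) * (x0 / q) ^ b' * (y0 / q) ^ e) := by
      intro b' e
      have h1 := machine_words (lu := lu) (lv := lv) hw0 hw (HU := x0 ^ 2) (HV := y0 ^ 2)
        (by positivity) (by positivity) hG c a b ha hb 1 (fun _ => f i) (fun _ j => hf i j) b' e
      rw [hX, hY] at h1
      simpa using h1
    rw [map_mul, cf_mul, ← sum_product']
    have hb1 : ∀ z ∈ antidiagonal r ×ˢ antidiagonal E,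
        Nu (WV K h lv) (WU K h lu) (y0 ^ 2) (x0 ^ 2)
        (cf z.1.1 z.2.1 (PhiW c a b (P i)) * cf z.1.2 z.2.2 (PhiW c a b (∏ j, f i j)))
        (4 ^ (r + E) * (x0 ^ r * y0 ^ E) / q ^ (r + E - ν)) := by
      intro z hz
      rw [mem_product, HasAntidiagonal.mem_antidiagonal, HasAntidiagonal.mem_antidiagonal] at hz
      obtain ⟨hz1, hz2⟩ := hz
      by_cases hdeg : z.1.1 + z.2.1 ≤ ν
      · refine (hc.mul (cof_leaf hx hy c a b ha hb (P i) z.1.1 z.2.1)
          (hprod z.1.2 z.2.2)).mono ?_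
        have e1 : x0 ^ z.1.1 * y0 ^ z.2.1 *
            (4 ^ (z.1.2 + z.2.2) * (x0 / q) ^ z.1.2 * (y0 / q) ^ z.2.2) =
            4 ^ (z.1.2 + z.2.2) * (x0 ^ r * y0 ^ E) / q ^ (z.1.2 + z.2.2) := by
          rw [← hz1, ← hz2, div_pow, div_pow, pow_add, pow_add, pow_add, pow_add]
          field_simp
        rw [e1]
        have h2 : q ^ (r + E - ν) ≤ q ^ (z.1.2 + z.2.2) := pow_le_pow_right₀ hq (by omega)
        have h3 : (4 : ℝ) ^ (z.1.2 + z.2.2) ≤ 4 ^ (r + E) :=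
          pow_le_pow_right₀ (by norm_num) (by omega)
        gcongr
      · have h0 : cf z.1.1 z.2.1 (PhiW c a b (P i)) = 0 :=
          PhiW_degLe c a b (P i) _ _ (lt_of_le_of_lt (hP i) (not_le.1 hdeg))
        rw [h0, zero_mul]
        exact hc.mono hc.zero (by positivity)
    refine (hc.sum _ _ _ hb1).mono ?_
    rw [sum_const, nsmul_eq_mul, card_product, Finset.Nat.card_antidiagonal,
      Finset.Nat.card_antidiagonal]
    have h4 : ((((r + 1) * (E + 1) : ℕ)) : ℝ) ≤ 2 ^ (r + E) := by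
      have h5 : (r + 1) * (E + 1) ≤ 2 ^ (r + E) := by
        rw [pow_add]
        exact Nat.mul_le_mul (Nat.succ_le_of_lt Nat.lt_two_pow_self)
          (Nat.succ_le_of_lt Nat.lt_two_pow_self)
      exact_mod_cast h5
    have h6 : (8 : ℝ) ^ (r + E) = 2 ^ (r + E) * 4 ^ (r + E) := by
      rw [← mul_pow]
      norm_num
    rw [h6]
    have h7 : 0 ≤ 4 ^ (r + E) * (x0 ^ r * y0 ^ E) / q ^ (r + E - ν) := by positivity
    calc ((((r + 1) * (E + 1) : ℕ)) : ℝ) * (4 ^ (r + E) * (x0 ^ r * y0 ^ E) / q ^ (r + E - ν))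
        ≤ 2 ^ (r + E) * (4 ^ (r + E) * (x0 ^ r * y0 ^ E) / q ^ (r + E - ν)) :=
          mul_le_mul_of_nonneg_right h4 h7
      _ = _ := by ring
  rw [map_sum, cf_sum]
  refine (hc.sum univ _ _ fun i _ => hterm i).mono ?_
  rw [sum_const, nsmul_eq_mul, card_univ, Fintype.card_fin]

end cof

/-! ### numbers -/

/-- from the rank inequality to the number of summands -/
theorem cof_count {A B m s T ν : ℕ} {c : ℝ} (hc : 16 ≤ c) (hA : 1 ≤ A) (hB : 1 ≤ B) (hT : 1 ≤ T)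
    (h : ((((2 ^ m : ℕ) ^ (A * B) + 1) / 2 : ℕ) : ℝ) ^ s ≤ 2 ^ (s * B + s * A) *
      (T * (8 ^ (s * B + s * A) * (((2 : ℝ) ^ (((m * A : ℕ) : ℝ) / 2)) ^ (s * B) *
        ((2 : ℝ) ^ (((m * B : ℕ) : ℝ) / 2)) ^ (s * A)) /
        ((2 : ℝ) ^ c) ^ (s * B + s * A - ν)))) : (2 : ℝ) ^ s ≤ (T * 2 ^ ν : ℕ) := by
  push_cast
  have hT1 : (1 : ℝ) ≤ T := by exact_mod_cast hT
  by_cases hν : 2 * ν ≤ s * B + s * A
  swap
  · have h1 : s ≤ ν := by
      have h2 : s * 1 ≤ s * B := Nat.mul_le_mul_left _ hB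
      have h3 : s * 1 ≤ s * A := Nat.mul_le_mul_left _ hA
      omega
    have h2 : (2 : ℝ) ^ s ≤ 2 ^ ν := pow_le_pow_right₀ (by norm_num) h1
    have h3 : (0 : ℝ) < 2 ^ ν := by positivity
    nlinarith
  · -- the products
    have hZ1 : ((2 : ℝ) ^ (((m * A : ℕ) : ℝ) / 2)) ^ (s * B) *
        ((2 : ℝ) ^ (((m * B : ℕ) : ℝ) / 2)) ^ (s * A) = ((2 : ℝ) ^ (m * (A * B))) ^ s := by
      rw [← Real.rpow_natCast, ← Real.rpow_mul (by norm_num), ← Real.rpow_natCast,
        ← Real.rpow_mul (by norm_num), ← Real.rpow_add (by norm_num), ← pow_mul,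
        ← Real.rpow_natCast (2 : ℝ) (m * (A * B) * s)]
      congr 1
      push_cast
      ring
    rw [hZ1] at h
    set Z : ℝ := ((2 : ℝ) ^ (m * (A * B))) ^ s with hZ
    have hZ0 : 0 < Z := by positivity
    have h0 : Z ≤ 2 ^ s * ((((2 ^ m : ℕ) ^ (A * B) + 1) / 2 : ℕ) : ℝ) ^ s := by
      rw [← mul_pow]
      exact pow_le_pow_left₀ (by positivity) (kk_ge A B m) s
    set M : ℕ := s * B + s * A with hM
    have hsM : 2 * s ≤ M := by
      have h2 : s * 1 ≤ s * B := Nat.mul_le_mul_left _ hB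
      have h3 : s * 1 ≤ s * A := Nat.mul_le_mul_left _ hA
      omega
    have hq : (2 : ℝ) ^ (16 * (M - ν)) ≤ ((2 : ℝ) ^ c) ^ (M - ν) := by
      rw [pow_mul]
      refine pow_le_pow_left₀ (by positivity) ?_ _
      have : (2 : ℝ) ^ ((16 : ℕ) : ℝ) ≤ (2 : ℝ) ^ c :=
        Real.rpow_le_rpow_of_exponent_le (by norm_num) (by exact_mod_cast hc)
      rwa [Real.rpow_natCast] at this
    have h1 : Z ≤ 2 ^ s * (2 ^ M * (T * (8 ^ M * Z / 2 ^ (16 * (M - ν))))) := by
      refine h0.trans (mul_le_mul_of_nonneg_left (h.trans ?_) (by positivity))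
      gcongr
    have h2 : (2 : ℝ) ^ (16 * (M - ν)) ≤ 2 ^ s * 2 ^ M * T * 8 ^ M := by
      have h3 : (0 : ℝ) < 2 ^ (16 * (M - ν)) := by positivity
      have h4 : Z * 2 ^ (16 * (M - ν)) ≤ Z * (2 ^ s * 2 ^ M * T * 8 ^ M) := by
        calc Z * 2 ^ (16 * (M - ν)) ≤
            (2 ^ s * (2 ^ M * (T * (8 ^ M * Z / 2 ^ (16 * (M - ν)))))) * 2 ^ (16 * (M - ν)) :=
              mul_le_mul_of_nonneg_right h1 h3.le
          _ = Z * (2 ^ s * 2 ^ M * T * 8 ^ M) := by field_simp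
      exact le_of_mul_le_mul_left h4 hZ0
    have h5 : (2 : ℝ) ^ s * 2 ^ M * T * 8 ^ M = T * 2 ^ (s + 4 * M) := by
      have : (8 : ℝ) ^ M = 2 ^ (3 * M) := by
        rw [pow_mul]
        norm_num
      rw [this, show s + 4 * M = s + M + 3 * M by ring, pow_add, pow_add]
      ring
    rw [h5] at h2
    have h6 : (2 : ℝ) ^ (s + 4 * M) * 2 ^ s ≤ 2 ^ (16 * (M - ν)) := by
      rw [← pow_add]
      exact pow_le_pow_right₀ (by norm_num) (by omega)
    have h7 : (2 : ℝ) ^ s ≤ T := by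
      have h8 : (0 : ℝ) < 2 ^ (s + 4 * M) := by positivity
      have h9 : (2 : ℝ) ^ (s + 4 * M) * 2 ^ s ≤ 2 ^ (s + 4 * M) * T := by
        refine (h6.trans h2).trans (le_of_eq ?_)
        ring
      exact le_of_mul_le_mul_left h9 h8
    have h8 : (1 : ℝ) ≤ 2 ^ ν := one_le_pow₀ (by norm_num)
    nlinarith

/-- the numbers of the final bound, with cofactors of degree `ν` -/
theorem cof_final (k : ℕ) : ∃ C : ℝ, 0 < C ∧ ∀ S w w0 : ℕ, 2 ≤ S → 1 ≤ w → w ≤ S → 1 ≤ w0 →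
    ∃ (A B m : ℕ) (X Y : ℕ → ℝ) (x0 y0 q : ℝ), 1 ≤ B ∧ B ≤ A ∧ Nat.Coprime A B ∧
      2 ^ (A + B + 4) ≤ 2 ^ m ∧ 0 < x0 ∧ 0 < y0 ∧ 1 ≤ q ∧ x0 ^ 2 = ((2 ^ m : ℕ) : ℝ) ^ A ∧
      y0 ^ 2 = ((2 ^ m : ℕ) : ℝ) ^ B ∧ Grw w0 w S (x0 ^ 2) (y0 ^ 2) (2 * k + 1) X Y ∧
      X (2 * k + 1) = x0 / q ∧ Y (2 * k + 1) = y0 / q ∧
      ∀ n T ν : ℕ, 1 ≤ T →
        (∀ s : ℕ, 1 ≤ s → s * ((A * B + 3) * ((2 ^ m) ^ A + 1)) ≤ n →
          ((((2 ^ m : ℕ) ^ (A * B) + 1) / 2 : ℕ) : ℝ) ^ s ≤ 2 ^ (s * B + s * A) *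
            (T * (8 ^ (s * B + s * A) * (x0 ^ (s * B) * y0 ^ (s * A)) /
              q ^ (s * B + s * A - ν)))) →
        n * Real.exp (-(C * (Real.log S ^ (1 - etaM k) * Real.log (2 * w) ^ etaM k +
          Real.log w0))) ≤ C * (Real.log (2 * T) + ν) := by
  obtain ⟨C', hC', hnum⟩ := mcd_numbers k
  refine ⟨max 24 (2 * C'), lt_of_lt_of_le (by norm_num) (le_max_left _ _), ?_⟩
  intro S w w0 hS hw hwS hw0
  obtain ⟨A, B, m, X, Y, c, hB, hBA, hco, hm, hG, hc, hX, hY, hle⟩ := hnum S w w0 hS hw hwS hw0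
  have hsq : ∀ D : ℕ, ((2 : ℝ) ^ (((m * D : ℕ) : ℝ) / 2)) ^ 2 = ((2 ^ m : ℕ) : ℝ) ^ D := by
    intro D
    rw [← Real.rpow_natCast, ← Real.rpow_mul (by norm_num)]
    push_cast
    rw [← pow_mul, ← Real.rpow_natCast (2 : ℝ) (m * D)]
    congr 1
    push_cast
    ring
  refine ⟨A, B, m, X, Y, (2 : ℝ) ^ (((m * A : ℕ) : ℝ) / 2), (2 : ℝ) ^ (((m * B : ℕ) : ℝ) / 2),
    (2 : ℝ) ^ c, hB, hBA, hco, Nat.pow_le_pow_right (by norm_num) hm, by positivity,
    by positivity, Real.one_le_rpow (by norm_num) (by linarith), hsq A, hsq B, ?_, ?_, ?_, ?_⟩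
  · rw [hsq, hsq]
    exact hG
  · rw [hX, Real.rpow_sub (by norm_num)]
  · rw [hY, Real.rpow_sub (by norm_num)]
  intro n T ν hT hs
  have hG0 : 0 ≤ Real.log S ^ (1 - etaM k) * Real.log (2 * w) ^ etaM k + Real.log w0 := by
    have e1 : 0 ≤ Real.log S := Real.log_natCast_nonneg S
    have e2 : (1 : ℝ) ≤ w := by exact_mod_cast hw
    have e3 : 0 ≤ Real.log (2 * w) := Real.log_nonneg (by linarith)
    have e4 : 0 ≤ Real.log w0 := Real.log_natCast_nonneg w0
    positivity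
  have hkey : (2 : ℝ) ^ (n / 2 ^ (2 * (m * A) + 4)) ≤ ((T * 2 ^ ν : ℕ) : ℝ) := by
    set t := n / 2 ^ (2 * (m * A) + 4) with ht
    rcases Nat.eq_zero_or_pos t with ht0 | htpos
    · rw [ht0, pow_zero]
      exact_mod_cast Nat.mul_pos hT (Nat.two_pow_pos ν)
    · exact cof_count hc (by omega) hB hT (hs t htpos (mcd_size hBA (by omega) ht))
  have h1 := log_final hC' hG0 hle hkey
  refine h1.trans (mul_le_mul_of_nonneg_left ?_ (le_trans (by norm_num) (le_max_left _ _)))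
  have hT1 : (1 : ℝ) ≤ T := by exact_mod_cast hT
  have h2 : Real.log (2 * ((T * 2 ^ ν : ℕ) : ℝ)) = Real.log (2 * T) + ν * Real.log 2 := by
    push_cast
    rw [← mul_assoc, Real.log_mul (by positivity) (by positivity), Real.log_pow]
  rw [h2]
  have h3 : Real.log 2 ≤ 1 := by
    have := Real.log_two_lt_d9
    linarith
  have h4 : (0 : ℝ) ≤ ν := Nat.cast_nonneg _
  nlinarith

/-- **THE BOUND**, in full: sums of products with cofactors, over a valued field, close to a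
polynomial whose top form is a multiple of the permanent -/
theorem mcd_full (k : ℕ) :
    ∃ C : ℝ, 0 < C ∧ ∀ (K E Γ : Type) [Field K] [CharZero K] [Field E]
      [LinearOrderedCommGroupWithZero Γ] [Algebra K E] (v : Valuation E Γ) (n T S w w0 ν : ℕ)
      (P : Fin T → MvPolynomial (Fin n × Fin n) E)
      (f : Fin T → Fin S → MvPolynomial (Fin n × Fin n) E)
      (G : MvPolynomial (Fin n × Fin n) K),
      (∀ x : K, v (algebraMap K E x) ≤ 1) → 2 ≤ S → 1 ≤ w → w ≤ S → 1 ≤ w0 →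
      (∀ i, (P i).totalDegree ≤ ν) → (∀ i j, f i j ∈ Cls w0 w S k) → G ≠ 0 →
      permP n K ∣ homogeneousComponent G.totalDegree G →
      (∀ m, v (coeff m (∑ i, P i * ∏ j, f i j) - algebraMap K E (coeff m G)) < 1) →
      n * Real.exp (-(C * (Real.log S ^ (1 - etaM k) * Real.log (2 * w) ^ etaM k +
          Real.log w0))) ≤ C * (Real.log (2 * T) + ν) := by
  obtain ⟨C, hC, H⟩ := cof_final k
  refine ⟨C, hC, fun K E Γ _ _ _ _ _ v n T S w w0 ν P f G hv hS hw hwS hw0 hP hf hG hPG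
    hclose => ?_⟩
  obtain ⟨A, B, m, X, Y, x0, y0, q, hB, hBA, hco, hm, hx0, hy0, hq, hxA, hyB, hGrw, hX, hY, Hn⟩ :=
    H S w w0 hS hw hwS hw0
  have hA : 1 ≤ A := hB.trans hBA
  have hh : 1 ≤ 2 ^ m := Nat.one_le_two_pow
  have hT : 1 ≤ T := by
    by_contra hT
    have hT0 : T = 0 := by omega
    subst hT0
    obtain ⟨d, hd⟩ := MvPolynomial.ne_zero_iff.1 hG
    have h1 := hclose d
    rw [univ_eq_empty, sum_empty, coeff_zero, zero_sub, Valuation.map_neg,
      v_alg_eq_one hv hd] at h1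
    exact lt_irrefl _ h1
  have hE : CharZero E := charZero_of_injective_algebraMap (algebraMap K E).injective
  refine Hn n T ν hT fun s hs hsn => ?_
  have hsize : s * (A * B * (2 ^ m) ^ A + 1) ≤ n := by
    refine le_trans (Nat.mul_le_mul_left _ ?_) hsn
    have e : (A * B + 3) * ((2 ^ m) ^ A + 1) =
        A * B * (2 ^ m) ^ A + (A * B + 3 * (2 ^ m) ^ A + 3) := by ring
    omega
  obtain ⟨Fam, hFam⟩ := rowP A B (2 ^ m) s n hA hB hBA hco hh hsize
  obtain ⟨c, a, b, ha, hb, P', Q, hdet⟩ := bridge_top hA hB hh Fam hFam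
    (digits_adm_part (groupLemma K) hA hB hco hm) G hG hPG
  have hdet' := cmpW_det hv c a b P' Q (s * B) (s * A) G (∑ i, P i * ∏ j, f i j) hclose hdet
  have h1 := machine_cof (K := E) (lu := tu A (s * (A * B))) (lv := tv B (s * (A * B)))
    hw0 hw hx0 hy0 hq hGrw hX hY (fun i => algebraMap K E (c i))
    (fun i p => algebraMap K E (a i p)) (fun i p => algebraMap K E (b i p))
    (fun i => wgen_map (ha i)) (fun i => wgen_map (hb i)) T ν P hP f hf (s * B) (s * A)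
  rw [hxA, hyB] at h1
  have h2 := card_le_compressed hh (card_tu hA) (card_tv hB) _ _ hdet' h1
  have e1 : s * (A * B) = A * (s * B) := by ring
  have e2 : s * (A * B) = B * (s * A) := by ring
  have c1 : (univ.image (tu A (s * (A * B)))).card = s * B := by
    rw [e1]
    exact card_image_tu hA
  have c2 : (univ.image (tv B (s * (A * B)))).card = s * A := by
    rw [e2]
    exact card_image_tv hB
  rw [c1, c2, Fintype.card_fun, Fintype.card_fin, Fintype.card_fin] at h2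
  have h3 : kk A B (2 ^ m) = ((2 ^ m : ℕ) ^ (A * B) + 1) / 2 := rfl
  rw [h3] at h2
  push_cast at h2 ⊢
  exact h2

/-- **THE BOUND** for sums of products with cofactors whose top form is a multiple of the
permanent -/
theorem mcd_top_cof (k : ℕ) :
    ∃ C : ℝ, 0 < C ∧ ∀ (K : Type) [Field K] [CharZero K] (n T S w w0 ν : ℕ)
      (P : Fin T → MvPolynomial (Fin n × Fin n) K)
      (f : Fin T → Fin S → MvPolynomial (Fin n × Fin n) K),
      2 ≤ S → 1 ≤ w → w ≤ S → 1 ≤ w0 → (∀ i, (P i).totalDegree ≤ ν) →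
      (∀ i j, f i j ∈ Cls w0 w S k) → (∑ i, P i * ∏ j, f i j) ≠ 0 →
      permP n K ∣ homogeneousComponent (∑ i, P i * ∏ j, f i j).totalDegree
        (∑ i, P i * ∏ j, f i j) →
      n * Real.exp (-(C * (Real.log S ^ (1 - etaM k) * Real.log (2 * w) ^ etaM k +
          Real.log w0))) ≤ C * (Real.log (2 * T) + ν) := by
  obtain ⟨C, hC, H⟩ := mcd_full k
  refine ⟨C, hC, fun K _ _ n T S w w0 ν P f hS hw hwS hw0 hP hf hG hPG => ?_⟩
  classical
  refine H K K (WithZero (Multiplicative ℤ)) (1 : Valuation K (WithZero (Multiplicative ℤ)))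
    n T S w w0 ν P f _ (fun x => Valuation.one_apply_le_one x) hS hw hwS hw0 hP hf hG hPG
    fun m => ?_
  rw [Algebra.algebraMap_self, RingHom.id_apply, sub_self, map_zero]
  exact zero_lt_one

/-- ZERO TESTS by sums of products with cofactors -/
theorem box_cof (k : ℕ) :
    ∃ C : ℝ, 0 < C ∧ ∀ n T S w w0 ν t : ℕ, 2 ≤ n → 2 ≤ S → 1 ≤ w → w ≤ S → 1 ≤ w0 →
      C * (Real.log (2 * T) + ν) < n * Real.exp (-(C * (Real.log S ^ (1 - etaM k) *
        Real.log (2 * w) ^ etaM k + Real.log w0))) →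
      ∀ G : Fin t → MvPolynomial (Fin n × Fin n) ℂ,
        (∀ i, G i ≠ 0 ∧ ∃ (P : Fin T → MvPolynomial (Fin n × Fin n) ℂ)
          (f : Fin T → Fin S → MvPolynomial (Fin n × Fin n) ℂ),
          (∀ a, (P a).totalDegree ≤ ν) ∧ (∀ a b, f a b ∈ Cls w0 w S k) ∧
            G i = ∑ a, P a * ∏ b, f a b) →
      ∀ R : ℕ, ∃ X : Matrix (Fin n) (Fin n) ℤ, X.permanent = 0 ∧
        (∀ a b, (R : ℤ) ≤ |(X + Matrix.single a b 1).permanent| ∧
          (X - Matrix.single a b 1).permanent = -(X + Matrix.single a b 1).permanent) ∧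
        ∀ Y : Matrix (Fin n) (Fin n) ℂ, (∀ a b, ‖Y a b - X a b‖ ≤ R) →
          ∀ i, eval (fun p => Y p.1 p.2) (G i) ≠ 0 := by
  obtain ⟨C, hC, H⟩ := mcd_top_cof k
  refine ⟨C, hC, fun n T S w w0 ν t hn hS hw hwS hw0 hlt G hG R => ?_⟩
  refine Pool.HY.box_int n t hn G (fun i hdvd => ?_) R
  obtain ⟨hG0, P, f, hP, hf, hGf⟩ := hG i
  rw [hGf] at hG0 hdvd
  exact absurd (H ℂ n T S w w0 ν P f hS hw hwS hw0 hP hf hG0 hdvd) (not_le.2 hlt)

end Pool.MCD
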