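import Pool.Agent.MCD.Grp
import Pool.Agent.MCD.Core
import Pool.Agent.MCD.Red
import Pool.Agent.MCD.RowL
import Pool.Agent.MCD.Gadget
import Pool.Agent.MCD.Digits

/-!
# Multiples at constant depth: the regular compressed coefficient matrix
-/

set_option autoImplicit false

namespace Pool.MCD

open Finset MvPolynomial Pool.CDep Pool.CD
open Pool.Agent.Helper87.D3 (Ser cf cst lam mu cst_add cst_mul cst_one cst_zero)

section comp

/-- the compressed matrix of the coefficients of `lam ^ r * mu ^ E` -/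
noncomputable def cmpW {K : Type} [Field K] {N h : ℕ} {σ κ : Type} (c : σ → K)
    (a b : σ → Wo N h → K) (α α' : κ → Wo N h → K) (r E : ℕ) (F : MvPolynomial σ K) :
    Matrix κ κ K :=
  Matrix.of fun k k' => ∑ p, ∑ q, α k p * α' k' q * cf r E (PhiW c a b F) (p, q)

variable {K : Type} [Field K]

theorem map_chain {R R' : Type} [CommRing R] [CommRing R'] (f : R →+* R') {W U V Lu Lv : Type}
    [Fintype W] [Fintype U] [Fintype V] (zu : W → U → Lu) (zv : W → V → Lv) (y : U → Lu → R)
    (z : V → Lv → R) :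
    f (chain zu zv y z) = chain zu zv (fun i a => f (y i a)) fun j b => f (z j b) := by
  unfold chain
  rw [map_sum]
  refine Finset.sum_congr rfl fun w _ => ?_
  rw [map_mul, map_prod, map_prod]

theorem map_entry {R R' : Type} [CommRing R] [CommRing R'] (f : R →+* R') {s A B h : ℕ}
    (x : Fin s → R) (y : YD s A B h → R) (e : ℤ ⊕ (Fin s ⊕ YD s A B h)) :
    f (entry x y e) = entry (fun g => f (x g)) (fun v => f (y v)) e := by
  rcases e with k | g | v
  · exact map_intCast f k
  · rfl
  · rfl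

/-- the entries as polynomials -/
noncomputable def ent (K : Type) [Field K] {s A B h n : ℕ}
    (Fam : Fin n → Fin n → ℤ ⊕ (Fin s ⊕ YD s A B h)) (ij : Fin n × Fin n) :
    MvPolynomial (Fin s ⊕ YD s A B h) K :=
  entry (fun g => X (Sum.inl g)) (fun v => X (Sum.inr v)) (Fam ij.1 ij.2)

theorem aeval_permP {n : ℕ} {τ : Type} (ψ : Fin n × Fin n → MvPolynomial τ K) :
    MvPolynomial.aeval ψ (permP n K) = (Matrix.of fun i j => ψ (i, j)).permanent := by
  have h2 : MvPolynomial.aeval ψ (permP n K) =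
      ((MvPolynomial.aeval ψ : MvPolynomial (Fin n × Fin n) K →ₐ[K] MvPolynomial τ K) : _ →+* _)
        (permP n K) := rfl
  rw [h2]
  unfold permP
  rw [map_permanent']
  congr 1
  refine Matrix.ext fun i j => ?_
  show MvPolynomial.aeval ψ (X (i, j) : MvPolynomial (Fin n × Fin n) K) = _
  rw [MvPolynomial.aeval_X]
  rfl

theorem aeval_ent {s A B h n : ℕ} (Fam : Fin n → Fin n → ℤ ⊕ (Fin s ⊕ YD s A B h))
    (hFam : ∀ (R : Type) [CommRing R] (x : Fin s → R) (y : YD s A B h → R),
        (Matrix.of fun i j => entry x y (Fam i j)).permanent =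
          ∏ g, (x g + chain (ru A B h) (rv A B h) (fun i b => y (Sum.inl (g, i, b)))
            (fun j b => y (Sum.inr (g, j, b))))) :
    MvPolynomial.aeval (ent K Fam) (permP n K) =
      ∏ g, (X (Sum.inl g) + rename Sum.inr (fg K s (ru A B h) (rv A B h) g)) := by
  rw [aeval_permP]
  have h1 := hFam (MvPolynomial (Fin s ⊕ YD s A B h) K) (fun g => X (Sum.inl g))
    (fun v => X (Sum.inr v))
  have h2 : (Matrix.of fun i j => ent K Fam (i, j)) = Matrix.of fun i j =>
      entry (fun g => (X (Sum.inl g) : MvPolynomial (Fin s ⊕ YD s A B h) K))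
        (fun v => X (Sum.inr v)) (Fam i j) := rfl
  rw [h2, h1]
  refine Finset.prod_congr rfl fun g _ => ?_
  congr 1
  let R : MvPolynomial (YD s A B h) K →+* MvPolynomial (Fin s ⊕ YD s A B h) K :=
    (rename Sum.inr : MvPolynomial (YD s A B h) K →ₐ[K]
      MvPolynomial (Fin s ⊕ YD s A B h) K).toRingHom
  have h3 := map_chain R (ru A B h) (rv A B h) (fun i a => X (Sum.inl (g, i, a)))
      (fun j b => X (Sum.inr (g, j, b)))
  have h4 : rename Sum.inr (fg K s (ru A B h) (rv A B h) g) =
      R (fg K s (ru A B h) (rv A B h) g) := rfl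
  rw [h4]
  unfold fg
  rw [h3]
  congr 1
  · funext i b
    show _ = rename Sum.inr (X _)
    rw [rename_X]
  · funext j b
    show _ = rename Sum.inr (X _)
    rw [rename_X]

theorem t_ne_zero [CharZero K] {s : ℕ} {σ : Type} (f : Fin s → MvPolynomial σ K) (g : Fin s) :
    (X (Sum.inl g) + rename Sum.inr (f g) : MvPolynomial (Fin s ⊕ σ) K) ≠ 0 := by
  intro h0
  have h1 := psi_t f g
  rw [h0, map_zero] at h1
  exact X_ne_zero (R := MvPolynomial σ K) g h1.symm

/-- the value of the whole substitution at an entry -/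
theorem line_subst {s A B h : ℕ} [CharZero K] (f : Fin s → MvPolynomial (YD s A B h) K)
    (xs : Fin s → K) (c : YD s A B h → K) (τ : K) (p p' : Wo (s * (A * B)) h)
    (e : ℤ ⊕ (Fin s ⊕ YD s A B h)) (z : K) :
    MvPolynomial.aeval (line (ru A B h) (rv A B h) c (grp p) (grp p')) (subst f xs c τ
      (entry (fun g => X (Sum.inl g)) (fun v => X (Sum.inr v)) e + C z)) =
      cst (cfc (fun g => τ * xs g - eval c (f g)) c e + z) + lam K * cst (cfa p e) +
        mu K * cst (cfb p' e) := by
  rw [map_add, map_add]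
  have hC : ∀ w : K, MvPolynomial.aeval (line (ru A B h) (rv A B h) c (grp p) (grp p'))
      (C w : MvPolynomial (YD s A B h) K) = cst w := by
    intro w
    rw [MvPolynomial.aeval_C, algebraMap_ser']
    rfl
  have hC' : subst f xs c τ (C z : MvPolynomial (Fin s ⊕ YD s A B h) K) = C z := by
    unfold subst
    rw [MvPolynomial.aeval_C]
    rfl
  rw [hC', hC, cst_add]
  rcases e with k | g | ⟨g, i, α⟩ | ⟨g, j, β⟩
  · have h1 : subst f xs c τ ((k : ℤ) : MvPolynomial (Fin s ⊕ YD s A B h) K) =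
        C ((k : ℤ) : K) := by
      rw [map_intCast, map_intCast]
    show MvPolynomial.aeval _ (subst f xs c τ ((k : ℤ) : MvPolynomial _ K)) + _ =
      cst ((k : ℤ) : K) + _ + lam K * cst 0 + mu K * cst 0
    rw [h1, hC, cst_zero, mul_zero, mul_zero, add_zero, add_zero]
  · have h1 : subst f xs c τ (X (Sum.inl g)) = C (τ * xs g - eval c (f g)) := by
      unfold subst
      rw [MvPolynomial.aeval_X]
      rfl
    show MvPolynomial.aeval _ (subst f xs c τ (X (Sum.inl g))) + _ =
      cst (τ * xs g - eval c (f g)) + _ + lam K * cst 0 + mu K * cst 0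
    rw [h1, hC, cst_zero, mul_zero, mul_zero, add_zero, add_zero]
  · have h1 : subst f xs c τ (X (Sum.inr (Sum.inl (g, i, α)))) = X (Sum.inl (g, i, α)) := by
      unfold subst
      rw [MvPolynomial.aeval_X]
      rfl
    show MvPolynomial.aeval _ (subst f xs c τ (X (Sum.inr (Sum.inl (g, i, α))))) + _ =
      cst (c (Sum.inl (g, i, α))) + _ +
        lam K * cst (if ru A B h (grp p g) i = α then 1 else 0) + mu K * cst 0
    rw [h1, MvPolynomial.aeval_X, cst_zero, mul_zero, add_zero]
    show cst (c (Sum.inl (g, i, α))) +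
      lam K * cst (if ru A B h (grp p g) i = α then 1 else 0) + cst z = _
    ring
  · have h1 : subst f xs c τ (X (Sum.inr (Sum.inr (g, j, β)))) = X (Sum.inr (g, j, β)) := by
      unfold subst
      rw [MvPolynomial.aeval_X]
      rfl
    show MvPolynomial.aeval _ (subst f xs c τ (X (Sum.inr (Sum.inr (g, j, β))))) + _ =
      cst (c (Sum.inr (g, j, β))) + _ + lam K * cst 0 +
        mu K * cst (if rv A B h (grp p' g) j = β then 1 else 0)
    rw [h1, MvPolynomial.aeval_X, cst_zero, mul_zero, add_zero]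
    show cst (c (Sum.inr (g, j, β))) +
      mu K * cst (if rv A B h (grp p' g) j = β then 1 else 0) + cst z = _
    ring

/-- **the regular compressed coefficient matrix of a nonzero multiple of the permanent** -/
theorem exists_compression {A B h s n k : ℕ} (hA : 1 ≤ A) (hB1 : 1 ≤ B) (hB : B ≤ A)
    (hc : A.Coprime B) (hh : 1 ≤ h) (hn : s * (A * B * h ^ A + 1) ≤ n) [CharZero K]
    (hv : Finset (Fin B) → Finset (Fin A) → Prop)
    (hadm : ∀ (y : Fin B → (Fin A → Fin h) → K) (z : Fin A → (Fin B → Fin h) → K),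
      ∃ a a' : Fin k → Wg A B h → K,
        Adm (ru A B h) (rv A B h) (part (ru A B h) (rv A B h) y z) hv a a')
    (G : MvPolynomial (Fin n × Fin n) K) (hG : G ≠ 0) (hP : permP n K ∣ G) :
    ∃ (c : Fin n × Fin n → K) (a b : Fin n × Fin n → Wo (s * (A * B)) h → K)
      (α α' : (Fin s → Fin k) → Wo (s * (A * B)) h → K),
      (∀ i, a i ∈ WGen K h (tu A (s * (A * B))) 1) ∧
      (∀ i, b i ∈ WGen K h (tv B (s * (A * B))) 1) ∧
      (cmpW c a b α α' (s * B) (s * A) G).det ≠ 0 := by
  classical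
  obtain ⟨Fam, hFam⟩ := rowP A B h s n hA hB1 hB hc hh hn
  have hψ := aeval_ent (K := K) Fam hFam
  set f := fg K s (ru A B h) (rv A B h) with hf
  have hne : MvPolynomial.aeval (ent K Fam) (permP n K) ≠ 0 := by
    rw [hψ]
    exact Finset.prod_ne_zero_iff.2 fun g _ => t_ne_zero f g
  obtain ⟨G0, X1, hG0, hdvd, hred⟩ := reduction (ent K Fam) (permP n K) G hne hG hP
  obtain ⟨xs, c, hcore⟩ := core_multiple (KK := Fin k) f G0 hG0 (hψ ▸ hdvd)
  choose a a' hadm' using fun g : Fin s => hadm (fun i b => c (Sum.inl (g, i, b)))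
    (fun j b => c (Sum.inr (g, j, b)))
  have hW : Nonempty (Wg A B h) := ⟨fun _ => ⟨0, hh⟩⟩
  have hU : Nonempty (Fin B) := ⟨⟨0, hB1⟩⟩
  obtain ⟨Λ, hΛ, hcmp⟩ := rowL (Wg A B h) (Fin B) (Fin A) (Fin A → Fin h) (Fin B → Fin h) K s k
    (ru A B h) (rv A B h) hv (ru_injective A B h) (rv_injective A B h) hW (Or.inl hU) c a a' hadm'
  obtain ⟨τ, hτ⟩ := hcore Λ hΛ.h0 hΛ.h1 hΛ.h2
  let Lm : MvPolynomial (Fin s ⊕ YD s A B h) K →ₗ[K]
      Matrix (Fin s → Fin k) (Fin s → Fin k) K :=
    { toFun := fun H => Matrix.of fun κ κ' => Λ κ κ' univ (subst f xs c τ H)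
      map_add' := fun H H' => by
        ext κ κ'
        simp only [map_add, Matrix.of_apply, Matrix.add_apply]
      map_smul' := fun z H => by
        ext κ κ'
        simp only [map_smul, Matrix.of_apply, Matrix.smul_apply, RingHom.id_apply] }
  obtain ⟨η, hη, hdet⟩ := hred _ Lm hτ
  refine ⟨fun ij => cfc (fun g => τ * xs g - eval c (f g)) c (Fam ij.1 ij.2) + η * X1 ij,
    fun ij p => cfa p (Fam ij.1 ij.2), fun ij p => cfb p (Fam ij.1 ij.2),
    fun κ p => ∏ g, a g (κ g) (grp p g), fun κ p => ∏ g, a' g (κ g) (grp p g),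
    fun i => wgen_cfa hA _, fun i => wgen_cfb hB1 _, ?_⟩
  convert hdet using 2
  ext κ κ'
  show _ = Λ κ κ' univ (subst f xs c τ (MvPolynomial.aeval
    (fun i => ent K Fam i + C (η * X1 i)) G))
  rw [hcmp]
  unfold cmpW cmp
  rw [Matrix.of_apply]
  rw [← (EW s A B h).sum_comp]
  refine Finset.sum_congr rfl fun p _ => ?_
  rw [← (EW s A B h).sum_comp]
  refine Finset.sum_congr rfl fun p' _ => ?_
  simp only [grp_EW]
  congr 1
  rw [PhiW_apply]
  unfold Mx
  rw [Fintype.card_fin, Fintype.card_fin]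
  congr 1
  have h1 : MvPolynomial.aeval (line (ru A B h) (rv A B h) c p p') (subst f xs c τ
      (MvPolynomial.aeval (fun i => ent K Fam i + C (η * X1 i)) G)) =
      MvPolynomial.aeval (fun i => MvPolynomial.aeval (line (ru A B h) (rv A B h) c p p')
        (subst f xs c τ (ent K Fam i + C (η * X1 i)))) G := by
    rw [← AlgHom.comp_apply, ← AlgHom.comp_apply]
    congr 1
    apply MvPolynomial.algHom_ext
    intro i
    simp only [AlgHom.comp_apply, MvPolynomial.aeval_X]
  rw [h1]
  congr 2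
  funext i
  have h2 := line_subst f xs c τ (EW s A B h p) (EW s A B h p') (Fam i.1 i.2) (η * X1 i)
  rw [grp_EW, grp_EW] at h2
  exact h2.symm

end comp

end Pool.MCD
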