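import Pool.Agent.MCD.Defs
import Pool.Agent.CDep.Plug
import Pool.Agent.CDep.Blocks

/-!
# Multiples at constant depth: words of several groups as digit strings
-/

set_option autoImplicit false

namespace Pool.MCD

open Finset MvPolynomial Pool.CDep Pool.CD
open Pool.Agent.Helper87.D3 (Ser cf cst lam mu)

section grp

variable {s A B h : ℕ}

/-- digit strings of `s` groups of `A * B` digits -/
def EW (s A B h : ℕ) : (Fin s → Wg A B h) ≃ Wo (s * (A * B)) h :=
  (Equiv.curry (Fin s) (Fin (A * B)) (Fin h)).symm.trans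
    (Equiv.arrowCongr finProdFinEquiv (Equiv.refl _))

/-- the digits of one group -/
def grp (p : Wo (s * (A * B)) h) (g : Fin s) : Wg A B h := fun d => p (finProdFinEquiv (g, d))

theorem EW_symm (p : Wo (s * (A * B)) h) : (EW s A B h).symm p = grp p := by
  rfl

theorem grp_EW (p : Fin s → Wg A B h) : grp (EW s A B h p) = p := by
  rw [← EW_symm, Equiv.symm_apply_apply]

theorem tu_grp (hA : 1 ≤ A) (g : Fin s) (i : Fin B) (k : Fin A) :
    tu A (s * (A * B)) (finProdFinEquiv (g, ⟨i.val * A + k.val, dig_lt i k⟩)) =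
      2 * (A * (B * g.val + i.val)) := by
  unfold tu
  have h1 : (finProdFinEquiv (g, (⟨i.val * A + k.val, dig_lt i k⟩ : Fin (A * B)))).val =
      A * (B * g.val + i.val) + k.val := by
    rw [finProdFinEquiv_apply_val]
    ring
  rw [h1, Nat.mul_add_div hA, Nat.div_eq_of_lt k.2, Nat.add_zero]

theorem tv_grp (hB : 1 ≤ B) (g : Fin s) (j : Fin A) (k : Fin B) :
    tv B (s * (A * B)) (finProdFinEquiv (g, ⟨j.val * B + k.val, dig_lt' j k⟩)) =
      2 * (B * (A * g.val + j.val)) + 1 := by
  unfold tv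
  have h1 : (finProdFinEquiv (g, (⟨j.val * B + k.val, dig_lt' j k⟩ : Fin (A * B)))).val =
      B * (A * g.val + j.val) + k.val := by
    rw [finProdFinEquiv_apply_val]
    ring
  rw [h1, Nat.mul_add_div hB, Nat.div_eq_of_lt k.2]
  simp only [Nat.add_zero]

/-- a function of one block of the first reader -/
theorem wgen_ru {K : Type} [Field K] (hA : 1 ≤ A) (g : Fin s) (i : Fin B)
    (f : (Fin A → Fin h) → K) :
    (fun p : Wo (s * (A * B)) h => f (ru A B h (grp p g) i)) ∈
      WGen K h (tu A (s * (A * B))) 1 := by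
  classical
  refine ⟨{2 * (A * (B * g.val + i.val))}, ?_, by simp, fun p p' hp => ?_⟩
  · rw [Finset.singleton_subset_iff, Finset.mem_image]
    exact ⟨_, Finset.mem_univ _, tu_grp hA g i ⟨0, hA⟩⟩
  · have h1 : ru A B h (grp p g) i = ru A B h (grp p' g) i := by
      funext k
      exact hp _ (by rw [tu_grp hA, Finset.mem_singleton])
    simp only [h1]

theorem wgen_rv {K : Type} [Field K] (hB : 1 ≤ B) (g : Fin s) (j : Fin A)
    (f : (Fin B → Fin h) → K) :
    (fun p : Wo (s * (A * B)) h => f (rv A B h (grp p g) j)) ∈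
      WGen K h (tv B (s * (A * B))) 1 := by
  classical
  refine ⟨{2 * (B * (A * g.val + j.val)) + 1}, ?_, by simp, fun p p' hp => ?_⟩
  · rw [Finset.singleton_subset_iff, Finset.mem_image]
    exact ⟨_, Finset.mem_univ _, tv_grp hB g j ⟨0, hB⟩⟩
  · have h1 : rv A B h (grp p g) j = rv A B h (grp p' g) j := by
      funext k
      exact hp _ (by rw [tv_grp hB, Finset.mem_singleton])
    simp only [h1]

theorem wgen_zero {K : Type} [Field K] {N : ℕ} (l : Fin N → ℕ) :
    (fun _ => 0 : Wo N h → K) ∈ WGen K h l 1 :=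
  ⟨∅, Finset.empty_subset _, by simp, fun _ _ _ => rfl⟩

variable {K : Type} [Field K]

/-- the coefficient of `lam` of an entry -/
def cfa (p : Wo (s * (A * B)) h) : ℤ ⊕ (Fin s ⊕ YD s A B h) → K
  | Sum.inl _ => 0
  | Sum.inr (Sum.inl _) => 0
  | Sum.inr (Sum.inr (Sum.inl (g, i, α))) => if ru A B h (grp p g) i = α then 1 else 0
  | Sum.inr (Sum.inr (Sum.inr _)) => 0

/-- the coefficient of `mu` of an entry -/
def cfb (p : Wo (s * (A * B)) h) : ℤ ⊕ (Fin s ⊕ YD s A B h) → K
  | Sum.inl _ => 0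
  | Sum.inr (Sum.inl _) => 0
  | Sum.inr (Sum.inr (Sum.inl _)) => 0
  | Sum.inr (Sum.inr (Sum.inr (g, j, β))) => if rv A B h (grp p g) j = β then 1 else 0

theorem wgen_cfa (hA : 1 ≤ A) (e : ℤ ⊕ (Fin s ⊕ YD s A B h)) :
    (fun p => (cfa p e : K)) ∈ WGen K h (tu A (s * (A * B))) 1 := by
  rcases e with _ | _ | ⟨g, i, α⟩ | _
  · exact wgen_zero _
  · exact wgen_zero _
  · exact wgen_ru hA g i fun w => if w = α then 1 else 0
  · exact wgen_zero _

theorem wgen_cfb (hB : 1 ≤ B) (e : ℤ ⊕ (Fin s ⊕ YD s A B h)) :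
    (fun p => (cfb p e : K)) ∈ WGen K h (tv B (s * (A * B))) 1 := by
  rcases e with _ | _ | _ | ⟨g, j, β⟩
  · exact wgen_zero _
  · exact wgen_zero _
  · exact wgen_zero _
  · exact wgen_rv hB g j fun w => if w = β then 1 else 0

/-- the point `(x, c)` in an entry -/
def cfc (x : Fin s → K) (c : YD s A B h → K) : ℤ ⊕ (Fin s ⊕ YD s A B h) → K
  | Sum.inl k => (k : K)
  | Sum.inr (Sum.inl g) => x g
  | Sum.inr (Sum.inr v) => c v

end grp

section phi

variable {K : Type} [Field K] {N h : ℕ} {σ : Type}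

theorem PhiW_apply (c : σ → K) (a b : σ → Wo N h → K) (F : MvPolynomial σ K) (r E : ℕ)
    (p q : Wo N h) : cf r E (PhiW c a b F) (p, q) =
      cf r E (MvPolynomial.aeval (fun i => cst (c i) + lam K * cst (a i p) +
        mu K * cst (b i q)) F) := by
  have h1 : serMap (Pi.evalRingHom (fun _ : Wo N h × Wo N h => K) (p, q)) (PhiW c a b F) =
      MvPolynomial.aeval (fun i => cst (c i) + lam K * cst (a i p) +
        mu K * cst (b i q)) F := by
    unfold PhiW
    rw [MvPolynomial.aeval_def, MvPolynomial.aeval_def, MvPolynomial.hom_eval₂]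
    have h2 : (serMap (Pi.evalRingHom (fun _ : Wo N h × Wo N h => K) (p, q))).comp
        (algebraMap K (Ser (Fw K N h))) = algebraMap K (Ser K) := by
      ext x : 1
      rw [RingHom.comp_apply, algebraMap_ser' (S := K) (R := Fw K N h) x, serMap_cst,
        algebraMap_ser' (S := K) (R := K) x]
      rfl
    rw [h2]
    congr 1
    ext i : 1
    show serMap _ _ = _
    rw [map_add, map_add, map_mul, map_mul, serMap_cst, serMap_cst, serMap_cst, serMap_lam,
      serMap_mu]
    rfl
  rw [← h1, cf_serMap]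
  rfl

end phi

end Pool.MCD
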