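import Pool.Agent.MCD.Defs

/-!
# Multiples of the permanent: fine evaluation, squarefree coefficients (ROW L, part 1)
-/

set_option autoImplicit false
set_option linter.unusedSectionVars false

namespace Pool.MCD

open Finset MvPolynomial
open Pool.Agent.Helper87.D3 (Ser cf cst lam mu)

section sqf
variable {I K : Type} [DecidableEq I] [Field K]

/-- squarefree exponents -/
noncomputable def ex (T : Finset I) : I →₀ ℕ := Finsupp.indicator T fun _ _ => 1

theorem ex_apply (T : Finset I) (i : I) : ex T i = if i ∈ T then 1 else 0 := by
  unfold ex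
  rw [Finsupp.indicator_apply]
  split_ifs <;> rfl

theorem ex_injective : Function.Injective (ex : Finset I → I →₀ ℕ) := by
  intro S T h
  ext i
  have h1 : ex S i = ex T i := by rw [h]
  rw [ex_apply, ex_apply] at h1
  by_cases h2 : i ∈ S <;> by_cases h3 : i ∈ T <;> simp_all

theorem ex_support (T : Finset I) : (ex T).support = T := by
  ext i
  rw [Finsupp.mem_support_iff, ex_apply]
  by_cases h : i ∈ T <;> simp [h]

/-- coefficients of a product at squarefree exponents -/
theorem coeff_ex_mul (T : Finset I) (F G : MvPolynomial I K) :
    coeff (ex T) (F * G) = ∑ S ∈ T.powerset, coeff (ex S) F * coeff (ex (T \ S)) G := by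
  rw [coeff_mul]
  symm
  refine Finset.sum_bij (fun S _ => (ex S, ex (T \ S))) ?_ ?_ ?_ ?_
  · intro S hS
    rw [mem_powerset] at hS
    rw [HasAntidiagonal.mem_antidiagonal]
    ext i
    simp only [Finsupp.add_apply, ex_apply, mem_sdiff]
    by_cases h1 : i ∈ S
    · simp [h1, hS h1]
    · simp [h1]
  · intro S _ S' _ h
    exact ex_injective (Prod.ext_iff.1 h).1
  · rintro ⟨x, y⟩ hx
    rw [HasAntidiagonal.mem_antidiagonal] at hx
    have hxy : ∀ i, x i + y i = if i ∈ T then 1 else 0 := fun i => by
      rw [← ex_apply, ← hx, Finsupp.add_apply]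
    refine ⟨x.support, ?_, ?_⟩
    · rw [mem_powerset]
      intro i hi
      rw [Finsupp.mem_support_iff] at hi
      by_contra hiT
      have := hxy i
      rw [if_neg hiT] at this
      omega
    · refine Prod.ext ?_ ?_
      · ext i
        simp only [ex_apply, Finsupp.mem_support_iff]
        have := hxy i
        split_ifs at this ⊢ <;> omega
      · ext i
        simp only [ex_apply, mem_sdiff, Finsupp.mem_support_iff]
        have := hxy i
        by_cases h1 : i ∈ T
        · rw [if_pos h1] at this
          by_cases h2 : x i = 0
          · rw [if_pos ⟨h1, not_not.2 h2⟩]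
            omega
          · rw [if_neg (fun h => h.2 h2)]
            omega
        · rw [if_neg h1] at this
          rw [if_neg (fun h => h1 h.1)]
          omega
  · intro S _
    rfl

/-- restriction to the variables of `T` -/
noncomputable def keep (T : Finset I) : MvPolynomial I K →ₐ[K] MvPolynomial I K :=
  aeval fun i => if i ∈ T then X i else 0

theorem coeff_keep (n : I →₀ ℕ) (F : MvPolynomial I K) :
    coeff n (keep n.support F) = coeff n F := by
  classical
  induction F using MvPolynomial.induction_on' with
  | monomial m a =>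
    have h1 : keep n.support (monomial m a) =
        if m.support ⊆ n.support then monomial m a else (0 : MvPolynomial I K) := by
      unfold keep
      rw [aeval_monomial, Finsupp.prod]
      split_ifs with h
      · rw [monomial_eq, algebraMap_eq, Finsupp.prod]
        congr 1
        exact prod_congr rfl fun i hi => by rw [if_pos (h hi)]
      · rw [Finset.not_subset] at h
        obtain ⟨i, hi, hin⟩ := h
        rw [prod_eq_zero hi, mul_zero]
        rw [if_neg hin, zero_pow (Finsupp.mem_support_iff.1 hi)]
    rw [h1]
    split_ifs with h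
    · rfl
    · rw [coeff_zero, coeff_monomial, if_neg]
      rintro rfl
      exact h (Subset.refl _)
  | add p q hp hq => rw [map_add, coeff_add, coeff_add, hp, hq]

/-- products of linear factors in different variables -/
theorem coeff_prod_linear {ι : Type} [DecidableEq ι] (φ : ι → I) (hφ : Function.Injective φ)
    (a b : ι → K) (A : Finset ι) (T : Finset I) :
    coeff (ex T) (∏ i ∈ A, (C (a i) + C (b i) * X (φ i) : MvPolynomial I K)) =
      if T ⊆ A.image φ then (∏ i ∈ A.filter (fun i => φ i ∈ T), b i) *
        ∏ i ∈ A.filter (fun i => φ i ∉ T), a i else 0 := by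
  induction A using Finset.induction_on generalizing T with
  | empty =>
    rw [prod_empty, image_empty, coeff_one]
    by_cases hT : T = ∅
    · subst hT
      have h0 : (0 : I →₀ ℕ) = ex ∅ := by
        ext i
        rw [ex_apply, if_neg (notMem_empty i)]
        rfl
      rw [if_pos h0, if_pos (Subset.refl _)]
      simp
    · rw [if_neg, if_neg]
      · rwa [subset_empty]
      · intro h0
        apply hT
        have : ex T = ex ∅ := by
          rw [← h0]
          ext i
          rw [ex_apply, if_neg (notMem_empty i)]
          rfl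
        exact ex_injective this
  | insert i A hi ih =>
    rw [prod_insert hi, add_mul, coeff_add, coeff_C_mul, mul_assoc, coeff_C_mul, coeff_X_mul', ih,
      ex_support]
    have hne : ∀ i' ∈ A, φ i' ≠ φ i := fun i' hi' h => hi (hφ h ▸ hi')
    by_cases hT : φ i ∈ T
    · have h1 : ex T - Finsupp.single (φ i) 1 = ex (T.erase (φ i)) := by
        ext j
        simp only [Finsupp.tsub_apply, ex_apply, Finsupp.single_apply, mem_erase]
        by_cases hj : φ i = j
        · subst hj
          simp [hT]
        · rw [if_neg hj, Nat.sub_zero]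
          have : j ≠ φ i := fun h => hj h.symm
          simp [this]
      rw [if_pos hT, h1, ih]
      have h2 : ¬ T ⊆ A.image φ := fun h => by
        obtain ⟨i', hi', he⟩ := mem_image.1 (h hT)
        exact hne i' hi' he
      rw [if_neg h2, mul_zero, zero_add]
      have h3 : T.erase (φ i) ⊆ A.image φ ↔ T ⊆ (insert i A).image φ := by
        rw [image_insert]
        constructor
        · intro h j hj
          by_cases hj' : j = φ i
          · rw [hj']; exact mem_insert_self _ _
          · exact mem_insert_of_mem (h (mem_erase.2 ⟨hj', hj⟩))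
        · intro h j hj
          rw [mem_erase] at hj
          rcases mem_insert.1 (h hj.2) with h' | h'
          · exact absurd h' hj.1
          · exact h'
      by_cases h4 : T ⊆ (insert i A).image φ
      · rw [if_pos (h3.2 h4), if_pos h4, filter_insert, if_pos hT, filter_insert,
          if_neg (not_not.2 hT), prod_insert (by simp [hi])]
        rw [← mul_assoc]
        congr 1
        · congr 1
          refine prod_congr ?_ fun _ _ => rfl
          refine filter_congr fun i' hi' => ?_
          rw [mem_erase]
          exact ⟨fun h => h.2, fun h => ⟨hne i' hi', h⟩⟩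
        · refine prod_congr ?_ fun _ _ => rfl
          refine filter_congr fun i' hi' => ?_
          rw [mem_erase]
          exact ⟨fun h h' => h ⟨hne i' hi', h'⟩, fun h h' => h h'.2⟩
      · rw [if_neg (fun h => h4 (h3.1 h)), if_neg h4, mul_zero]
    · rw [if_neg hT, mul_zero, add_zero]
      have h3 : T ⊆ A.image φ ↔ T ⊆ (insert i A).image φ := by
        rw [image_insert]
        constructor
        · exact fun h => h.trans (subset_insert _ _)
        · intro h j hj
          rcases mem_insert.1 (h hj) with h' | h'
          · exact absurd (h' ▸ hj) hT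
          · exact h'
      by_cases h4 : T ⊆ (insert i A).image φ
      · rw [if_pos (h3.2 h4), if_pos h4, filter_insert, if_neg hT, filter_insert, if_pos hT,
          prod_insert (by simp [hi])]
        ring
      · rw [if_neg (fun h => h4 (h3.1 h)), if_neg h4, mul_zero]

end sqf

section fine
variable {W U V Lu Lv : Type} [Fintype W] [Fintype U] [Fintype V] [DecidableEq W]
  [DecidableEq U] [DecidableEq V] [DecidableEq Lu] [DecidableEq Lv] {s : ℕ} {K : Type} [Field K]

/-- one variable for every block of every group -/
abbrev Bl (s : ℕ) (U V : Type) : Type := Fin s × (U ⊕ V)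

/-- fine version of `line` -/
noncomputable def fine (zu : W → U → Lu) (zv : W → V → Lv) (c : YZ s U V Lu Lv → K)
    (p p' : Fin s → W) : YZ s U V Lu Lv → MvPolynomial (Bl s U V) K
  | Sum.inl (g, i, a) => C (c (Sum.inl (g, i, a))) +
      C (if zu (p g) i = a then 1 else 0) * X (g, Sum.inl i)
  | Sum.inr (g, j, b) => C (c (Sum.inr (g, j, b))) +
      C (if zv (p' g) j = b then 1 else 0) * X (g, Sum.inr j)

variable (zu : W → U → Lu) (zv : W → V → Lv) (c : YZ s U V Lu Lv → K)

/-- the coefficient at `n` depends only on the letters of the blocks in the support of `n` -/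
theorem coeff_fine_congr (n : Bl s U V →₀ ℕ) (p p' q q' : Fin s → W)
    (h1 : ∀ g i, n (g, Sum.inl i) ≠ 0 → zu (p g) i = zu (q g) i)
    (h2 : ∀ g j, n (g, Sum.inr j) ≠ 0 → zv (p' g) j = zv (q' g) j)
    (H : MvPolynomial (YZ s U V Lu Lv) K) :
    coeff n (aeval (fine zu zv c p p') H) = coeff n (aeval (fine zu zv c q q') H) := by
  have h3 : (keep n.support).comp (aeval (fine zu zv c p p')) =
      (keep n.support).comp (aeval (fine zu zv c q q')) := by
    refine MvPolynomial.algHom_ext fun v => ?_
    rcases v with ⟨g, i, a⟩ | ⟨g, j, b⟩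
    · rw [AlgHom.comp_apply, AlgHom.comp_apply, aeval_X, aeval_X]
      simp only [fine]
      rw [map_add, map_add, map_mul, map_mul]
      by_cases hn : n (g, Sum.inl i) = 0
      · have h4 : keep n.support (X (g, Sum.inl i) : MvPolynomial (Bl s U V) K) = 0 := by
          unfold keep
          rw [aeval_X, if_neg (by rw [Finsupp.mem_support_iff]; exact not_not.2 hn)]
        rw [h4, mul_zero, mul_zero]
      · rw [h1 g i hn]
    · rw [AlgHom.comp_apply, AlgHom.comp_apply, aeval_X, aeval_X]
      simp only [fine]
      rw [map_add, map_add, map_mul, map_mul]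
      by_cases hn : n (g, Sum.inr j) = 0
      · have h4 : keep n.support (X (g, Sum.inr j) : MvPolynomial (Bl s U V) K) = 0 := by
          unfold keep
          rw [aeval_X, if_neg (by rw [Finsupp.mem_support_iff]; exact not_not.2 hn)]
        rw [h4, mul_zero, mul_zero]
      · rw [h2 g j hn]
  have h5 : keep n.support (aeval (fine zu zv c p p') H) =
      keep n.support (aeval (fine zu zv c q q') H) := by
    have := DFunLike.congr_fun h3 H
    rwa [AlgHom.comp_apply, AlgHom.comp_apply] at this
  rw [← coeff_keep n (aeval (fine zu zv c p p') H), h5, coeff_keep]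

theorem coeff_zero_fine (p p' : Fin s → W) (H : MvPolynomial (YZ s U V Lu Lv) K) :
    coeff 0 (aeval (fine zu zv c p p') H) = eval c H := by
  have h3 : (constantCoeff : MvPolynomial (Bl s U V) K →+* K).comp
      (aeval (fine zu zv c p p') : MvPolynomial (YZ s U V Lu Lv) K →ₐ[K] _).toRingHom =
      eval c := by
    refine MvPolynomial.ringHom_ext (fun a => ?_) fun v => ?_
    · simp
    · rcases v with ⟨g, i, a⟩ | ⟨g, j, b⟩
      · simp only [RingHom.comp_apply, AlgHom.toRingHom_eq_coe, RingHom.coe_coe, aeval_X, fine,
          map_add, map_mul, constantCoeff_C, constantCoeff_X, mul_zero, add_zero, eval_X]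
      · simp only [RingHom.comp_apply, AlgHom.toRingHom_eq_coe, RingHom.coe_coe, aeval_X, fine,
          map_add, map_mul, constantCoeff_C, constantCoeff_X, mul_zero, add_zero, eval_X]
  have h4 := congrArg (fun φ : MvPolynomial (YZ s U V Lu Lv) K →+* K => φ H) h3
  simpa [constantCoeff_eq] using h4

/-- blocks of `T` in the group `g`, first reading -/
def su (g : Fin s) (T : Finset (Bl s U V)) : Finset U := univ.filter fun i => (g, Sum.inl i) ∈ T

/-- blocks of `T` in the group `g`, second reading -/
def sv (g : Fin s) (T : Finset (Bl s U V)) : Finset V := univ.filter fun j => (g, Sum.inr j) ∈ T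

theorem aeval_fg (g : Fin s) (p p' : Fin s → W) :
    aeval (fine zu zv c p p') (fg K s zu zv g) =
      ∑ w, ∏ b : U ⊕ V, (C (Sum.elim (fun i => c (Sum.inl (g, i, zu w i)))
          (fun j => c (Sum.inr (g, j, zv w j))) b) +
        C (Sum.elim (fun i => if zu (p g) i = zu w i then 1 else 0)
          (fun j => if zv (p' g) j = zv w j then 1 else 0) b) * X (g, b)) := by
  unfold fg chain
  rw [map_sum]
  refine sum_congr rfl fun w _ => ?_
  rw [map_mul, map_prod, map_prod, Fintype.prod_sum_type]
  congr 1
  · refine prod_congr rfl fun i _ => ?_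
    rw [aeval_X]
    rfl
  · refine prod_congr rfl fun i _ => ?_
    rw [aeval_X]
    rfl

/-- the squarefree coefficients of the chain polynomial -/
theorem coeff_fg (g : Fin s) (p p' : Fin s → W) (T : Finset (Bl s U V)) :
    coeff (ex T) (aeval (fine zu zv c p p') (fg K s zu zv g)) =
      if (∀ b ∈ T, b.1 = g) then
        part zu zv (fun i a => c (Sum.inl (g, i, a))) (fun j b => c (Sum.inr (g, j, b)))
          (su g T) (sv g T) (p g) (p' g) else 0 := by
  rw [aeval_fg, coeff_sum]
  have hφ : Function.Injective (fun b : U ⊕ V => (g, b)) := fun b b' h => (Prod.ext_iff.1 h).2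
  have hT : T ⊆ (univ : Finset (U ⊕ V)).image (fun b => (g, b)) ↔ ∀ b ∈ T, b.1 = g := by
    constructor
    · intro h b hb
      obtain ⟨b', -, hb'⟩ := mem_image.1 (h hb)
      rw [← hb']
    · intro h b hb
      exact mem_image.2 ⟨b.2, mem_univ _, Prod.ext (h b hb).symm rfl⟩
  by_cases h : ∀ b ∈ T, b.1 = g
  · rw [if_pos h]
    unfold part
    refine sum_congr rfl fun w _ => ?_
    rw [coeff_prod_linear _ hφ, if_pos (hT.2 h)]
    have h1 : (univ : Finset (U ⊕ V)).filter (fun b => (g, b) ∈ T) = (su g T).disjSum (sv g T) := by
      ext b
      rcases b with i | j <;> simp [su, sv]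
    have h2 : (univ : Finset (U ⊕ V)).filter (fun b => (g, b) ∉ T) =
        ((su g T)ᶜ).disjSum ((sv g T)ᶜ) := by
      ext b
      rcases b with i | j <;> simp [su, sv]
    rw [h1, h2, prod_disjSum, prod_disjSum]
    simp only [Sum.elim_inl, Sum.elim_inr]
    ring
  · rw [if_neg h]
    refine sum_eq_zero fun w _ => ?_
    rw [coeff_prod_linear _ hφ, if_neg (fun h' => h (hT.1 h'))]

end fine

end Pool.MCD
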