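import Pool.Agent.MCD.Numbers

/-!
# Numbers with a prescribed gain, asymptotic form (for the tests of satisfiability)
-/

set_option autoImplicit false

namespace Pool.MCD

open Pool.Helper98.CD

open Pool.CD Pool.CDep in
/-- the parameters of the groups -/
theorem gain_numbers (k g : ℕ) (hg : 1 ≤ g) : ∃ C : ℝ, 0 < C ∧ ∀ S w w0 : ℕ, 2 ≤ S → 1 ≤ w → w ≤ S → 1 ≤ w0 →
    ∃ (A B m : ℕ) (X Y : ℕ → ℝ) (c : ℝ), 1 ≤ B ∧ B ≤ A ∧ Nat.Coprime A B ∧ A + B + 4 ≤ m ∧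
      Grw w0 w S (((2 ^ m : ℕ) : ℝ) ^ A) (((2 ^ m : ℕ) : ℝ) ^ B) (2 * k + 1) X Y ∧ 16 * (g : ℝ) ≤ c ∧
      X (2 * k + 1) = (2 : ℝ) ^ (((m * A : ℕ) : ℝ) / 2 - c) ∧
      Y (2 * k + 1) = (2 : ℝ) ^ (((m * B : ℕ) : ℝ) / 2 - c) ∧
      ((m * A : ℕ) : ℝ) ≤ C * (Real.log S ^ (1 - etaM k) * Real.log (2 * w) ^ etaM k +
        Real.log w0) := by
  have hfib : 2 ≤ Nat.fib (2 * k + 3) := by
    have h1 : Nat.fib 3 ≤ Nat.fib (2 * k + 3) := Nat.fib_mono (by omega)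
    exact h1
  obtain ⟨C, hC, hpar⟩ := final_params (2 * Nat.fib (2 * k + 3)) (by omega)
  refine ⟨g * (6 * C), by positivity, ?_⟩
  intro S w w0 hS hw hwS hw0
  obtain ⟨σ, ω0, μ, hσ, hω0, hμ, hwω0, hSp0, hw0p0, hfin⟩ := hpar S w w0 hS hw hwS hw0
  obtain ⟨ω, hωdef⟩ : ∃ ω : ℕ, ω = g * ω0 := ⟨_, rfl⟩
  have hωge : ω0 ≤ ω := by rw [hωdef]; exact Nat.le_mul_of_pos_left _ hg
  have hω : 1 ≤ ω := hω0.trans hωge
  have hwω : 16 * w ≤ 2 ^ ω := hwω0.trans (Nat.pow_le_pow_right (by norm_num) hωge)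
  have hSp : S ≤ 2 ^ (5 * σ * ω * μ * (8 * σ) ^ (2 * Nat.fib (2 * k + 3) - 2)) :=
    hSp0.trans (Nat.pow_le_pow_right (by norm_num) (Nat.mul_le_mul_right _
      (Nat.mul_le_mul_right _ (Nat.mul_le_mul_left _ hωge))))
  have hw0p : (16 * w0) ^ 8 ≤ 2 ^ (5 * ω * μ * (8 * σ) ^ (2 * Nat.fib (2 * k + 3) - 2)) :=
    hw0p0.trans (Nat.pow_le_pow_right (by norm_num) (Nat.mul_le_mul_right _
      (Nat.mul_le_mul_right _ (Nat.mul_le_mul_left _ hωge))))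
  obtain ⟨A, B, s, c0, τ, hs, hB, hBA, hA2, h1, h2, h3, h4, h5, h6, h7, h8, h9⟩ :=
    cf_numbers2 (2 * k + 1) σ (by omega) hσ
  rw [show 2 * k + 1 + 2 = 2 * k + 3 by ring] at h8 h9
  have hpow : ∀ x : ℕ, x ^ (2 * Nat.fib (2 * k + 3) - 2) =
      x ^ (Nat.fib (2 * k + 3) - 1) * x ^ (Nat.fib (2 * k + 3) - 1) := by
    intro x
    rw [← pow_add]
    congr 1
    omega
  rw [hpow] at hSp hw0p
  set q : ℕ := 3 * (B / s + 1) with hq
  have hsq : 3 * B ≤ s * q := by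
    have e1 := Nat.div_add_mod B s
    have e2 := Nat.mod_lt B (show 0 < s by omega)
    have e3 : s * q = 3 * (s * (B / s) + s) := by rw [hq]; ring
    omega
  have hsq' : s * q ≤ 6 * A := by
    have e1 := Nat.mul_div_le B s
    have e3 : s * q = 3 * (s * (B / s) + s) := by rw [hq]; ring
    omega
  have hq1 : 1 ≤ q := by
    rw [hq]
    exact Nat.mul_pos (by norm_num) (Nat.succ_pos _)
  have hμq : 1 ≤ μ * q := Nat.mul_pos hμ hq1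
  clear_value q
  -- the powers
  have hP : (8 * σ) ^ (Nat.fib (2 * k + 3) - 1) * (8 * σ) ^ (Nat.fib (2 * k + 3) - 1) ≤
      q * (3 * (s * B)) := by
    calc (8 * σ) ^ (Nat.fib (2 * k + 3) - 1) * (8 * σ) ^ (Nat.fib (2 * k + 3) - 1) ≤
          (3 * B) * (3 * B) := Nat.mul_le_mul h9 h9
      _ ≤ (3 * B) * (s * q) := Nat.mul_le_mul_left _ hsq
      _ = q * (3 * (s * B)) := by ring
  have hS' : S ≤ 2 ^ (5 * σ * ω * (μ * q) * (3 * (s * B))) := by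
    refine hSp.trans (Nat.pow_le_pow_right (by norm_num) ?_)
    calc 5 * σ * ω * μ * ((8 * σ) ^ (Nat.fib (2 * k + 3) - 1) *
          (8 * σ) ^ (Nat.fib (2 * k + 3) - 1)) ≤ 5 * σ * ω * μ * (q * (3 * (s * B))) :=
          Nat.mul_le_mul_left _ hP
      _ = _ := by ring
  have hw0' : (16 * w0) ^ 8 ≤ 2 ^ (5 * ω * (μ * q) * (3 * (s * B))) := by
    refine hw0p.trans (Nat.pow_le_pow_right (by norm_num) ?_)
    calc 5 * ω * μ * ((8 * σ) ^ (Nat.fib (2 * k + 3) - 1) *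
          (8 * σ) ^ (Nat.fib (2 * k + 3) - 1)) ≤ 5 * ω * μ * (q * (3 * (s * B))) :=
          Nat.mul_le_mul_left _ hP
      _ = _ := by ring
  obtain ⟨c, hc, hX1, hY1, hN1, hstep⟩ := growth_exists (2 * k + 1) σ ω (μ * q) A B s S w w0 c0 τ
    (by omega) hσ hω hμq hs hB hBA h1 h2 h3 h4 h5 hw hwω _ le_rfl hS' hw0'
  set m : ℕ := 16 * s * ω * (μ * q) with hm
  clear_value m
  have hω4 : 4 * g ≤ ω := by
    have h4 : 4 ≤ ω0 := by
      by_contra hcon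
      have e1 : 2 ^ ω0 ≤ 2 ^ 3 := Nat.pow_le_pow_right (by norm_num) (by omega)
      omega
    rw [hωdef, Nat.mul_comm 4 g]
    exact Nat.mul_le_mul_left _ h4
  have hcast : ∀ D : ℕ, ((2 ^ m : ℕ) : ℝ) ^ D = (2 : ℝ) ^ (m * D) := by
    intro D
    push_cast
    rw [pow_mul]
  refine ⟨A, B, m, fun i => (2 : ℝ) ^ (((m * A : ℕ) : ℝ) / 2 - c i),
    fun i => (2 : ℝ) ^ (((m * B : ℕ) : ℝ) / 2 - c i), c (2 * k + 1), hB, hBA, h6, ?_, ?_, ?_, rfl,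
    rfl, ?_⟩
  · have e1 : 16 * (3 * B) ≤ m := by
      calc 16 * (3 * B) = 16 * (3 * B) * 1 * 1 := by ring
        _ ≤ 16 * (s * q) * ω * μ :=
          Nat.mul_le_mul (Nat.mul_le_mul (Nat.mul_le_mul_left _ hsq) hω) hμ
        _ = m := by rw [hm]; ring
    omega
  · rw [hcast, hcast]
    exact ⟨hX1, hY1, hN1, fun i hi hiL => (hstep i hi hiL).1, fun i hi hiL => (hstep i hi hiL).2.1,
      fun i hi hiL => (hstep i hi hiL).2.2.1, fun i hi hiL => (hstep i hi hiL).2.2.2⟩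
  · have e1 := hc (2 * k + 1) (by omega) le_rfl
    have e2 : 4 * (g : ℝ) ≤ ω := by exact_mod_cast hω4
    linarith
  · have e1 : m * A ≤ g * (6 * (64 * ω0 * μ * (18 * σ) ^ (2 * Nat.fib (2 * k + 3) - 2))) := by
      rw [hpow]
      generalize (18 * σ) ^ (Nat.fib (2 * k + 3) - 1) = x at h8
      calc m * A = 16 * ω * μ * (s * q) * A := by rw [hm]; ring
        _ ≤ 16 * ω * μ * (6 * A) * A := by gcongr
        _ = 96 * ω * μ * (A * A) := by ring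
        _ ≤ 96 * ω * μ * ((2 * x) * (2 * x)) :=
            Nat.mul_le_mul_left _ (Nat.mul_le_mul h8 h8)
        _ = _ := by rw [hωdef]; ring
    have e2 : ((m * A : ℕ) : ℝ) ≤
        g * (6 * ((64 * ω0 * μ * (18 * σ) ^ (2 * Nat.fib (2 * k + 3) - 2) : ℕ) : ℝ)) := by
      exact_mod_cast e1
    refine e2.trans ?_
    have e3 := mul_le_mul_of_nonneg_left hfin (show (0 : ℝ) ≤ (g : ℝ) * 6 by positivity)
    unfold etaM
    linarith


theorem etaM_pos (k : ℕ) : 0 < etaM k := by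
  unfold etaM
  have h1 : 2 ≤ Nat.fib (2 * k + 3) := by
    have h1 : Nat.fib 3 ≤ Nat.fib (2 * k + 3) := Nat.fib_mono (by omega)
    exact h1
  have h2 : (2 : ℝ) ≤ Nat.fib (2 * k + 3) := by exact_mod_cast h1
  push_cast
  apply one_div_pos.2
  linarith

theorem etaM_le (k : ℕ) : etaM k ≤ 1 := by
  unfold etaM
  have h1 : 2 ≤ Nat.fib (2 * k + 3) := by
    have h1 : Nat.fib 3 ≤ Nat.fib (2 * k + 3) := Nat.fib_mono (by omega)
    exact h1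
  have h2 : (2 : ℝ) ≤ Nat.fib (2 * k + 3) := by exact_mod_cast h1
  push_cast
  rw [div_le_one (by linarith)]
  linarith

open Pool.CD in
theorem Grw_one_le {w0 w S : ℕ} {HU HV : ℝ} {L : ℕ} {X Y : ℕ → ℝ} (hw0 : 1 ≤ w0) (hw : 1 ≤ w)
    (hG : Grw w0 w S HU HV L X Y) : ∀ i, 1 ≤ i → i ≤ L → 1 ≤ X i ∧ 1 ≤ Y i := by
  have h0 : (1 : ℝ) ≤ w0 := by exact_mod_cast hw0
  have h1 : (1 : ℝ) ≤ w := by exact_mod_cast hw
  intro i hi
  induction i, hi using Nat.le_induction with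
  | base => intro _; exact ⟨h0.trans hG.X1, h0.trans hG.Y1⟩
  | succ i hi ih =>
    intro hiL
    obtain ⟨h2, h3⟩ := ih (by omega)
    have h4 := hG.X2 i hi hiL
    have h5 := hG.Y2 i hi hiL
    constructor
    · nlinarith
    · nlinarith

open Pool.CD in
/-- **asymptotic form with gain `16 g`**: fan-in `S ≤ n ^ D`, gates of fan-in at most `n ^ δ` -/
theorem gain_asymp (k g : ℕ) (hg : 1 ≤ g) (D M ε : ℝ) (hM : 0 ≤ M) (hε : 0 < ε) :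
    ∃ (δ : ℝ) (n0 : ℕ), 0 < δ ∧ ∀ n S w w0 : ℕ, n0 ≤ n → (S : ℝ) ≤ (n : ℝ) ^ D →
      (w : ℝ) ≤ (n : ℝ) ^ δ → (w0 : ℝ) ≤ (n : ℝ) ^ δ → 2 ≤ S → 1 ≤ w → w ≤ S → 1 ≤ w0 →
      ∃ (A B m : ℕ) (X Y : ℕ → ℝ) (c : ℝ), 1 ≤ B ∧ B ≤ A ∧ Nat.Coprime A B ∧ A + B + 4 ≤ m ∧
        Grw w0 w S (((2 ^ m : ℕ) : ℝ) ^ A) (((2 ^ m : ℕ) : ℝ) ^ B) (2 * k + 1) X Y ∧
        16 * (g : ℝ) ≤ c ∧ X (2 * k + 1) = (2 : ℝ) ^ (((m * A : ℕ) : ℝ) / 2 - c) ∧
        Y (2 * k + 1) = (2 : ℝ) ^ (((m * B : ℕ) : ℝ) / 2 - c) ∧ 1 ≤ X (2 * k + 1) ∧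
        1 ≤ Y (2 * k + 1) ∧ (2 : ℝ) ^ (M * ((m * A : ℕ) : ℝ)) ≤ (n : ℝ) ^ ε := by
  obtain ⟨C, hC, hnum⟩ := gain_numbers k g hg
  obtain ⟨η, hη⟩ : ∃ η : ℝ, η = etaM k := ⟨_, rfl⟩
  have hη0 : 0 < η := by rw [hη]; exact etaM_pos k
  have hη1 : η ≤ 1 := by rw [hη]; exact etaM_le k
  rw [← hη] at hnum
  obtain ⟨D', hD'⟩ : ∃ D' : ℝ, D' = max D 1 := ⟨_, rfl⟩
  have hDD : D ≤ D' := by rw [hD']; exact le_max_left _ _
  have hD1 : 1 ≤ D' := by rw [hD']; exact le_max_right _ _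
  obtain ⟨ε1, hε1⟩ : ∃ ε1 : ℝ, ε1 = ε / (C * (M + 1)) := ⟨_, rfl⟩
  have hε10 : 0 < ε1 := by rw [hε1]; positivity
  obtain ⟨u, hu⟩ : ∃ u : ℝ, u = (ε1 / (2 * D')) ^ (1 / η) := ⟨_, rfl⟩
  have hu0 : 0 < u := by rw [hu]; positivity
  obtain ⟨δ, hδ⟩ : ∃ δ : ℝ, δ = min (ε1 / 2) (u / 2) := ⟨_, rfl⟩
  have hδ0 : 0 < δ := by rw [hδ]; exact lt_min (by positivity) (by positivity)
  have hδ1 : δ ≤ ε1 / 2 := by rw [hδ]; exact min_le_left _ _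
  have hδ2 : 2 * δ ≤ u := by
    have : δ ≤ u / 2 := by rw [hδ]; exact min_le_right _ _
    linarith
  have hδη : (2 * δ) ^ η ≤ ε1 / (2 * D') := by
    have h1 : (2 * δ) ^ η ≤ u ^ η := Real.rpow_le_rpow (by positivity) hδ2 hη0.le
    have h2 : u ^ η = ε1 / (2 * D') := by
      rw [hu, ← Real.rpow_mul (by positivity), one_div_mul_cancel hη0.ne', Real.rpow_one]
    rwa [h2] at h1
  refine ⟨δ, ⌈Real.exp (1 / δ)⌉₊, hδ0, ?_⟩
  intro n S w w0 hn hSn hwn hw0n hS hw hwS hw0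
  obtain ⟨A, B, m, X, Y, c, hB, hBA, hco, hm, hG, hc, hX, hY, hle⟩ := hnum S w w0 hS hw hwS hw0
  have hn' : Real.exp (1 / δ) ≤ n := (Nat.le_ceil _).trans (by exact_mod_cast hn)
  have hnpos : (0 : ℝ) < n := (Real.exp_pos _).trans_le hn'
  obtain ⟨ℓ, hℓ⟩ : ∃ ℓ : ℝ, ℓ = Real.log n := ⟨_, rfl⟩
  have hℓδ : 1 / δ ≤ ℓ := by
    rw [hℓ]
    exact (Real.le_log_iff_exp_le hnpos).2 hn'
  have hδℓ : 1 ≤ δ * ℓ := by
    rw [div_le_iff₀ hδ0] at hℓδ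
    linarith
  have hℓ0 : 0 < ℓ := lt_of_lt_of_le (by positivity) hℓδ
  have hl2 : Real.log 2 ≤ 1 := by
    have := Real.log_two_lt_d9
    linarith
  have hl20 : 0 < Real.log 2 := Real.log_pos (by norm_num)
  have hSpos : (0 : ℝ) < S := by exact_mod_cast (show 0 < S by omega)
  have hwpos : (0 : ℝ) < w := by exact_mod_cast (show 0 < w by omega)
  have hw0pos : (0 : ℝ) < w0 := by exact_mod_cast (show 0 < w0 by omega)
  have hlS : Real.log S ≤ D' * ℓ := by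
    have h1 := Real.log_le_log hSpos hSn
    rw [Real.log_rpow hnpos, ← hℓ] at h1
    exact h1.trans (mul_le_mul_of_nonneg_right hDD hℓ0.le)
  have hlw : Real.log w ≤ δ * ℓ := by
    have h1 := Real.log_le_log hwpos hwn
    rwa [Real.log_rpow hnpos, ← hℓ] at h1
  have hlw0 : Real.log w0 ≤ δ * ℓ := by
    have h1 := Real.log_le_log hw0pos hw0n
    rwa [Real.log_rpow hnpos, ← hℓ] at h1
  have hl2w : Real.log (2 * w) ≤ 2 * δ * ℓ := by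
    rw [Real.log_mul (by norm_num) hwpos.ne']
    linarith
  have hlS0 : 0 ≤ Real.log S := Real.log_natCast_nonneg S
  have hl2w0 : 0 ≤ Real.log (2 * w) := by
    apply Real.log_nonneg
    have : (1 : ℝ) ≤ w := by exact_mod_cast hw
    linarith
  have hpart : Real.log S ^ (1 - η) * Real.log (2 * w) ^ η ≤ ε1 / 2 * ℓ := by
    have h1 : Real.log S ^ (1 - η) ≤ D' * ℓ ^ (1 - η) := by
      have h2 : Real.log S ^ (1 - η) ≤ (D' * ℓ) ^ (1 - η) :=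
        Real.rpow_le_rpow hlS0 hlS (by linarith)
      rw [Real.mul_rpow (by linarith) hℓ0.le] at h2
      refine h2.trans (mul_le_mul_of_nonneg_right ?_ (by positivity))
      calc D' ^ (1 - η) ≤ D' ^ (1 : ℝ) :=
            Real.rpow_le_rpow_of_exponent_le hD1 (by linarith)
        _ = D' := Real.rpow_one _
    have h3 : Real.log (2 * w) ^ η ≤ ε1 / (2 * D') * ℓ ^ η := by
      have h4 : Real.log (2 * w) ^ η ≤ (2 * δ * ℓ) ^ η := Real.rpow_le_rpow hl2w0 hl2w hη0.le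
      rw [Real.mul_rpow (by positivity) hℓ0.le] at h4
      exact h4.trans (mul_le_mul_of_nonneg_right hδη (by positivity))
    have h5 : Real.log S ^ (1 - η) * Real.log (2 * w) ^ η ≤
        (D' * ℓ ^ (1 - η)) * (ε1 / (2 * D') * ℓ ^ η) :=
      mul_le_mul h1 h3 (by positivity) (by positivity)
    refine h5.trans (le_of_eq ?_)
    have h6 : ℓ ^ (1 - η) * ℓ ^ η = ℓ := by
      rw [← Real.rpow_add hℓ0]
      simp
    calc (D' * ℓ ^ (1 - η)) * (ε1 / (2 * D') * ℓ ^ η) =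
          (D' * (ε1 / (2 * D'))) * (ℓ ^ (1 - η) * ℓ ^ η) := by ring
      _ = ε1 / 2 * ℓ := by
        rw [h6]
        congr 1
        field_simp
  have hfin : ((m * A : ℕ) : ℝ) ≤ C * (ε1 * ℓ) := by
    refine hle.trans (mul_le_mul_of_nonneg_left ?_ hC.le)
    have : δ * ℓ ≤ ε1 / 2 * ℓ := mul_le_mul_of_nonneg_right hδ1 hℓ0.le
    linarith
  have hone := Grw_one_le hw0 hw hG (2 * k + 1) (by omega) le_rfl
  refine ⟨A, B, m, X, Y, c, hB, hBA, hco, hm, hG, hc, hX, hY, hone.1, hone.2, ?_⟩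
  have h1 : (2 : ℝ) ^ (M * ((m * A : ℕ) : ℝ)) = Real.exp (M * ((m * A : ℕ) : ℝ) * Real.log 2) := by
    rw [Real.rpow_def_of_pos (by norm_num)]
    congr 1
    ring
  have h2 : (n : ℝ) ^ ε = Real.exp (ε * ℓ) := by
    rw [Real.rpow_def_of_pos hnpos, ← hℓ]
    congr 1
    ring
  rw [h1, h2]
  apply Real.exp_le_exp.2
  have h3 : (0 : ℝ) ≤ ((m * A : ℕ) : ℝ) := Nat.cast_nonneg _
  have h4 : M * ((m * A : ℕ) : ℝ) * Real.log 2 ≤ M * ((m * A : ℕ) : ℝ) * 1 :=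
    mul_le_mul_of_nonneg_left hl2 (by positivity)
  have h5 : M * ((m * A : ℕ) : ℝ) ≤ M * (C * (ε1 * ℓ)) := mul_le_mul_of_nonneg_left hfin hM
  have h6 : (M + 1) * (C * (ε1 * ℓ)) = ε * ℓ := by
    rw [hε1]
    field_simp
  have h7 : 0 ≤ C * (ε1 * ℓ) := by positivity
  nlinarith

end Pool.MCD
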